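import Mathlib

set_option autoImplicit false

/-!
Elementary lemmas: fractional parts, a matching lemma, simultaneous approximation. The lemmas
`lift_unit` and `dirichlet` are copies of `near_lift` and `near_dirichlet` of
`Pool.Agent.N858.DS.Near`.
-/

namespace Pool.Agent.K9h20

open Finset

/-- An integer with a given residue which is prime to `N`. -/
lemma lift_unit {q N : ℕ} (hq : 0 < q) (hN : 0 < N) {u : ℤ} (hu : IsCoprime u (q : ℤ)) :
    ∃ a : ℤ, IsCoprime a (N : ℤ) ∧ (q : ℤ) ∣ a - u := by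
  have : NeZero (N * q) := ⟨(Nat.mul_pos hN hq).ne'⟩
  have hdvd : q ∣ N * q := Dvd.intro_left N rfl
  obtain ⟨v, hv⟩ := ZMod.unitsMap_surjective hdvd (ZMod.unitOfIsCoprime u hu)
  refine ⟨((v : ZMod (N * q)).val : ℤ), ?_, ?_⟩
  · have h1 : Nat.Coprime (v : ZMod (N * q)).val (N * q) := ZMod.val_coe_unit_coprime v
    exact Nat.isCoprime_iff_coprime.2 (Nat.Coprime.coprime_mul_right_right h1)
  · rw [← ZMod.intCast_zmod_eq_zero_iff_dvd]
    have h1 := congrArg (fun w : (ZMod q)ˣ => (w : ZMod q)) hv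
    simp only [ZMod.unitsMap_def, Units.coe_map, ZMod.coe_unitOfIsCoprime] at h1
    push_cast
    rw [sub_eq_zero, ← h1]
    exact (ZMod.natCast_val _)

/-- Dirichlet's simultaneous approximation theorem. -/
lemma dirichlet {I : Type*} [Fintype I] (θ : I → ℝ) (K : ℕ) (hK : 0 < K) :
    ∃ t : ℕ, 0 < t ∧ t ≤ K ^ Fintype.card I ∧ ∀ i, ∃ z : ℤ, |(t : ℝ) * θ i - z| ≤ 1 / K := by
  classical
  have hK0 : (0 : ℝ) < K := by exact_mod_cast hK
  have hlt : ∀ x : ℝ, ⌊(K : ℝ) * Int.fract x⌋₊ < K := by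
    intro x
    rw [Nat.floor_lt (mul_nonneg hK0.le (Int.fract_nonneg x))]
    calc (K : ℝ) * Int.fract x < K * 1 := mul_lt_mul_of_pos_left (Int.fract_lt_one x) hK0
      _ = K := mul_one _
  let f : Fin (K ^ Fintype.card I + 1) → I → Fin K := fun t i =>
    ⟨⌊(K : ℝ) * Int.fract (((t : ℕ) : ℝ) * θ i)⌋₊, hlt _⟩
  obtain ⟨t, t', hne, heq⟩ := Fintype.exists_ne_map_eq_of_card_lt f (by simp)
  have key : ∀ t t' : Fin (K ^ Fintype.card I + 1), t < t' → f t = f t' →
      ∃ t : ℕ, 0 < t ∧ t ≤ K ^ Fintype.card I ∧ ∀ i, ∃ z : ℤ, |(t : ℝ) * θ i - z| ≤ 1 / K := by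
    intro t t' hlt' heq
    have h1 : (t : ℕ) < (t' : ℕ) := hlt'
    refine ⟨(t' : ℕ) - (t : ℕ), by omega, by omega, fun i => ?_⟩
    refine ⟨⌊((t' : ℕ) : ℝ) * θ i⌋ - ⌊((t : ℕ) : ℝ) * θ i⌋, ?_⟩
    have h2 : ⌊(K : ℝ) * Int.fract (((t : ℕ) : ℝ) * θ i)⌋₊ =
        ⌊(K : ℝ) * Int.fract (((t' : ℕ) : ℝ) * θ i)⌋₊ := by
      have := congrFun heq i
      simp only [f, Fin.mk.injEq] at this
      exact this
    have h3 : 0 ≤ (K : ℝ) * Int.fract (((t : ℕ) : ℝ) * θ i) :=
      mul_nonneg hK0.le (Int.fract_nonneg _)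
    have h4 : 0 ≤ (K : ℝ) * Int.fract (((t' : ℕ) : ℝ) * θ i) :=
      mul_nonneg hK0.le (Int.fract_nonneg _)
    have h5 := Nat.floor_le h3
    have h6 := Nat.lt_floor_add_one ((K : ℝ) * Int.fract (((t : ℕ) : ℝ) * θ i))
    have h7 := Nat.floor_le h4
    have h8 := Nat.lt_floor_add_one ((K : ℝ) * Int.fract (((t' : ℕ) : ℝ) * θ i))
    rw [← h2] at h7 h8
    have h9 : (((t' : ℕ) - (t : ℕ) : ℕ) : ℝ) * θ i -
        ((⌊((t' : ℕ) : ℝ) * θ i⌋ - ⌊((t : ℕ) : ℝ) * θ i⌋ : ℤ) : ℝ) =
        Int.fract (((t' : ℕ) : ℝ) * θ i) - Int.fract (((t : ℕ) : ℝ) * θ i) := by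
      rw [Nat.cast_sub h1.le, Int.fract, Int.fract]
      push_cast
      ring
    rw [h9, abs_le]
    constructor
    · rw [← sub_nonneg]
      have : 0 ≤ (K : ℝ) * (Int.fract (((t' : ℕ) : ℝ) * θ i) - Int.fract (((t : ℕ) : ℝ) * θ i)) + 1 := by
        linarith
      have h10 : Int.fract (((t' : ℕ) : ℝ) * θ i) - Int.fract (((t : ℕ) : ℝ) * θ i) - -(1 / (K : ℝ)) =
          ((K : ℝ) * (Int.fract (((t' : ℕ) : ℝ) * θ i) - Int.fract (((t : ℕ) : ℝ) * θ i)) + 1) / K := by
        field_simp
        ring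
      rw [h10]
      exact div_nonneg this hK0.le
    · rw [le_div_iff₀ hK0]
      linarith
  rcases lt_or_gt_of_ne hne with h | h
  · exact key t t' h heq
  · exact key t' t h heq.symm

/-- If every fibre of `f` is at most as large as the fibre of `g` over the same point, then `f` and
`g` differ by a permutation. -/
theorem exists_match {n : ℕ} {α : Type*} [DecidableEq α] (f g : Fin n → α)
    (h : ∀ l, (univ.filter fun l' => f l' = f l).card ≤ (univ.filter fun k => g k = f l).card) :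
    ∃ σ : Equiv.Perm (Fin n), ∀ l, g (σ l) = f l := by
  classical
  obtain ⟨s, hs, hs2⟩ := (all_card_le_biUnion_card_iff_exists_injective
    (fun l => univ.filter fun k => g k = f l)).1 (by
      intro S
      have h1 : (S.biUnion fun l => univ.filter fun k => g k = f l) =
          univ.filter fun k => g k ∈ S.image f := by
        ext k
        simp [eq_comm]
      rw [h1, card_eq_sum_card_fiberwise (f := f) (s := S) (t := S.image f)
        (fun x hx => mem_coe.2 (mem_image_of_mem f hx)),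
        card_eq_sum_card_fiberwise (f := g) (s := univ.filter fun k => g k ∈ S.image f)
        (t := S.image f) (fun x hx => by
          have := mem_coe.1 hx
          rw [mem_filter] at this
          exact mem_coe.2 this.2)]
      refine sum_le_sum fun v hv => ?_
      obtain ⟨l, hl, rfl⟩ := mem_image.1 hv
      refine (card_le_card (filter_subset_filter _ (subset_univ _))).trans ((h l).trans ?_)
      refine card_le_card fun k hk => ?_
      rw [mem_filter] at hk
      rw [mem_filter, mem_filter]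
      exact ⟨⟨mem_univ _, by rw [hk.2]; exact hv⟩, hk.2⟩)
  refine ⟨Equiv.ofBijective s (Finite.injective_iff_bijective.1 hs), fun l => ?_⟩
  have := hs2 l
  rw [mem_filter] at this
  exact this.2

lemma fract_le_self {u : ℝ} (hu : 0 ≤ u) : Int.fract u ≤ u := by
  rw [Int.fract]
  have : (0 : ℝ) ≤ ⌊u⌋ := by exact_mod_cast Int.floor_nonneg.2 hu
  linarith

lemma fract_near {u c η : ℝ} {w : ℤ} (h : |u - c - w| ≤ η) : Int.fract (u - (c - η)) ≤ 2 * η := by
  have h1 := abs_le.1 h
  have h2 : u - (c - η) = (u - c - w + η) + w := by ring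
  rw [h2, Int.fract_add_intCast]
  exact (fract_le_self (by linarith)).trans (by linarith)

/-- Sums of two fractional parts. -/
lemma fract_pair {u d : ℝ} (hd : 0 ≤ d) (hd1 : d < 1) :
    Int.fract u + Int.fract (d - u) ≤ 1 + d - if Int.fract u ≤ d then 1 else 0 := by
  have h0 := Int.fract_nonneg u
  have h1 := Int.fract_lt_one u
  have h2 : Int.fract (d - u) = Int.fract (d - Int.fract u) := by
    rw [Int.fract_eq_fract]
    exact ⟨-⌊u⌋, by rw [Int.fract]; push_cast; ring⟩
  rw [h2]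
  split_ifs with h
  · have := fract_le_self (u := d - Int.fract u) (by linarith)
    linarith
  · have h3 : Int.fract (d - Int.fract u) = Int.fract (d - Int.fract u + 1) := by
      rw [Int.fract_add_one]
    rw [h3]
    have := fract_le_self (u := d - Int.fract u + 1) (by linarith)
    linarith

lemma fract_pair' {u d : ℝ} (hd : 0 < d) (hd1 : d ≤ 1) :
    Int.fract u + Int.fract (-u - d) ≤ 1 - d + if 1 - d < Int.fract u then 1 else 0 := by
  have h0 := Int.fract_nonneg u
  have h1 := Int.fract_lt_one u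
  have h2 : Int.fract (-u - d) = Int.fract (-Int.fract u - d) := by
    rw [Int.fract_eq_fract]
    exact ⟨-⌊u⌋, by rw [Int.fract]; push_cast; ring⟩
  rw [h2]
  split_ifs with h
  · have h3 : Int.fract (-Int.fract u - d) = Int.fract (-Int.fract u - d + ((2 : ℤ) : ℝ)) := by
      rw [Int.fract_add_intCast]
    rw [h3]
    have := fract_le_self (u := -Int.fract u - d + ((2 : ℤ) : ℝ)) (by push_cast; linarith)
    push_cast at this ⊢
    linarith
  · have h3 : Int.fract (-Int.fract u - d) = Int.fract (-Int.fract u - d + 1) := by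
      rw [Int.fract_add_one]
    rw [h3]
    have := fract_le_self (u := -Int.fract u - d + 1) (by linarith)
    linarith

end Pool.Agent.K9h20
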