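import Pool.Agent.K9h20.Far
import Pool.Agent.K9h20.Pair
import Pool.Agent.N858.PC.Semi

set_option autoImplicit false

/-!
Weights of semistable parabolic bundles for which all but two of the tuples are almost scalar: the
two remaining tuples are almost opposite.
-/

namespace Pool.Agent.K9h20

open Finset Pool.Agent.N858.PC

section

variable {X : Type*} [Fintype X] [DecidableEq X] {n : ℕ}

omit [DecidableEq X] in
lemma lineSS_fract {Z : X → Fin n → ℝ} (h : LineSS Z) (β : X → ℝ) (hβ : 0 < ∑ x, β x) :
    (n : ℝ) ≤ n * ∑ x, β x + ∑ x, ∑ l, Int.fract (Z x l - β x) := by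
  have h1 := h β hβ
  have h2 : ∑ x, ∑ l, Int.fract (Z x l - β x) =
      ∑ x, ∑ l, Z x l - n * ∑ x, β x - ((∑ x, ∑ l, ⌊Z x l - β x⌋ : ℤ) : ℝ) := by
    push_cast
    rw [mul_sum, ← sum_sub_distrib, ← sum_sub_distrib]
    refine sum_congr rfl fun x _ => ?_
    have h3 : (n : ℝ) * β x = ∑ _l : Fin n, β x := by simp
    rw [h3, ← sum_sub_distrib, ← sum_sub_distrib]
    refine sum_congr rfl fun l _ => ?_
    rw [Int.fract]
  rw [h2]
  linarith

lemma sum_split {y z : X} (hyz : y ≠ z) (f : X → ℝ) :
    ∑ x, f x = f y + f z + ∑ x ∈ (univ.erase y).erase z, f x := by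
  rw [← add_sum_erase univ f (mem_univ y),
    ← add_sum_erase (univ.erase y) f (mem_erase.2 ⟨hyz.symm, mem_univ z⟩)]
  ring

lemma card_split {y z : X} (hyz : y ≠ z) :
    (((univ.erase y).erase z).card : ℝ) = Fintype.card X - 2 := by
  have h1 := card_erase_add_one (mem_univ y)
  have h2 := card_erase_add_one (mem_erase.2 ⟨hyz.symm, mem_univ z⟩ : z ∈ univ.erase y)
  rw [card_univ] at h1
  have h3 : ((univ.erase y).erase z).card + 2 = Fintype.card X := by omega
  have h4 : (((univ.erase y).erase z).card : ℝ) + 2 = Fintype.card X := by exact_mod_cast h3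
  linarith

theorem arc_count {Z : X → Fin n → ℝ}
    (h1 : LineSS Z) (h2 : LineSS fun x l => -Z x l) {y z : X} (hyz : y ≠ z) {η : ℝ} (hη : 0 < η)
    (c : X → ℝ) (hc : ∀ x, x ≠ y → x ≠ z → ∀ l, ∃ w : ℤ, |Z x l - c x - w| ≤ η)
    (hsmall : 2 * n * η * (Fintype.card X - 2) < 1) :
    ∃ s : ℝ, ∀ t d : ℝ, 0 ≤ d → d + 2 * η * Fintype.card X ≤ 1 →
      (univ.filter fun l => Int.fract (Z y l - t) ≤ d).card ≤
      (univ.filter fun k =>
        1 - (d + 2 * η * (Fintype.card X - 1)) < Int.fract (Z z k + t - s)).card := by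
  have hne : ∀ x ∈ (univ.erase y).erase z, x ≠ y ∧ x ≠ z := by
    intro x hx
    rw [mem_erase, mem_erase] at hx
    exact ⟨hx.2.1, hx.1⟩
  have hM : (2 : ℝ) ≤ Fintype.card X := by
    have h3 := card_split hyz
    have h4 : (0 : ℝ) ≤ (((univ.erase y).erase z).card : ℝ) := Nat.cast_nonneg _
    linarith
  set M : ℝ := (Fintype.card X : ℝ) with hMdef
  set S : ℝ := ∑ x ∈ (univ.erase y).erase z, c x with hS
  refine ⟨η - S + (M - 2) * η, fun t d hd hd1 => ?_⟩
  set s : ℝ := η - S + (M - 2) * η with hs
  set d' : ℝ := d + 2 * η * (M - 1) with hd'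
  have hnz : z ≠ y := hyz.symm
  -- the first inequality
  have e1 := lineSS_fract h1 (fun x => if x = y then t else if x = z then s - t else c x - η) (by
    rw [sum_split hyz]
    simp only [if_true, if_neg hnz]
    rw [sum_congr rfl fun x hx => by rw [if_neg (hne x hx).1, if_neg (hne x hx).2],
      sum_sub_distrib, sum_const, nsmul_eq_mul, card_split hyz, ← hS, hs]
    linarith)
  have e2 := lineSS_fract h2 (fun x => if x = y then -(t + d) else
      if x = z then t + d + η + S + (M - 2) * η else -c x - η) (by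
    rw [sum_split hyz]
    simp only [if_true, if_neg hnz]
    rw [sum_congr rfl fun x hx => by rw [if_neg (hne x hx).1, if_neg (hne x hx).2],
      sum_sub_distrib, sum_const, nsmul_eq_mul, card_split hyz, sum_neg_distrib, ← hS]
    linarith)
  rw [sum_split hyz, sum_split hyz (fun x => ∑ l, Int.fract (Z x l - _))] at e1
  rw [sum_split hyz, sum_split hyz (fun x => ∑ l, Int.fract (-Z x l - _))] at e2
  simp only [if_true, if_neg hnz] at e1 e2
  have f1 : ∑ x ∈ (univ.erase y).erase z, (if x = y then t else if x = z then s - t else c x - η) =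
      S - (M - 2) * η := by
    rw [sum_congr rfl fun x hx => by rw [if_neg (hne x hx).1, if_neg (hne x hx).2],
      sum_sub_distrib, sum_const, nsmul_eq_mul, card_split hyz, ← hS]
  have f2 : ∑ x ∈ (univ.erase y).erase z, (if x = y then -(t + d) else
      if x = z then t + d + η + S + (M - 2) * η else -c x - η) = -S - (M - 2) * η := by
    rw [sum_congr rfl fun x hx => by rw [if_neg (hne x hx).1, if_neg (hne x hx).2],
      sum_sub_distrib, sum_const, nsmul_eq_mul, card_split hyz, sum_neg_distrib, ← hS]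
  have f3 : ∑ x ∈ (univ.erase y).erase z, ∑ l, Int.fract (Z x l -
      (if x = y then t else if x = z then s - t else c x - η)) ≤ (M - 2) * (n * (2 * η)) := by
    have hcs : (M - 2) * (n * (2 * η)) =
        ∑ x ∈ (univ.erase y).erase z, ((n : ℝ) * (2 * η)) := by
      rw [sum_const, nsmul_eq_mul, card_split hyz]
    rw [hcs]
    refine sum_le_sum fun x hx => ?_
    rw [if_neg (hne x hx).1, if_neg (hne x hx).2]
    have : (n : ℝ) * (2 * η) = ∑ _l : Fin n, (2 * η) := by simp
    rw [this]
    refine sum_le_sum fun l _ => ?_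
    obtain ⟨w, hw⟩ := hc x (hne x hx).1 (hne x hx).2 l
    exact fract_near hw
  have f4 : ∑ x ∈ (univ.erase y).erase z, ∑ l, Int.fract (-Z x l -
      (if x = y then -(t + d) else if x = z then t + d + η + S + (M - 2) * η else -c x - η)) ≤
        (M - 2) * (n * (2 * η)) := by
    have hcs : (M - 2) * (n * (2 * η)) =
        ∑ x ∈ (univ.erase y).erase z, ((n : ℝ) * (2 * η)) := by
      rw [sum_const, nsmul_eq_mul, card_split hyz]
    rw [hcs]
    refine sum_le_sum fun x hx => ?_
    rw [if_neg (hne x hx).1, if_neg (hne x hx).2]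
    have : (n : ℝ) * (2 * η) = ∑ _l : Fin n, (2 * η) := by simp
    rw [this]
    refine sum_le_sum fun l _ => ?_
    obtain ⟨w, hw⟩ := hc x (hne x hx).1 (hne x hx).2 l
    refine fract_near (w := -w) ?_
    rw [← abs_neg]
    convert hw using 2
    push_cast
    ring
  rw [f1] at e1
  rw [f2] at e2
  -- the two remaining points
  have g1 : ∑ l, Int.fract (Z y l - t) + ∑ l, Int.fract (-Z y l - -(t + d)) ≤
      n * (1 + d) - (univ.filter fun l => Int.fract (Z y l - t) ≤ d).card := by
    rw [← sum_add_distrib]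
    have : (n : ℝ) * (1 + d) - (univ.filter fun l => Int.fract (Z y l - t) ≤ d).card =
        ∑ l : Fin n, (1 + d - if Int.fract (Z y l - t) ≤ d then 1 else 0) := by
      rw [sum_sub_distrib, sum_const, card_univ, Fintype.card_fin, nsmul_eq_mul, sum_boole]
    rw [this]
    refine sum_le_sum fun l _ => ?_
    have h3 := fract_pair (u := Z y l - t) hd (by nlinarith)
    have h4 : -Z y l - -(t + d) = d - (Z y l - t) := by ring
    rw [h4]
    exact h3
  have g2 : ∑ l, Int.fract (Z z l - (s - t)) +
      ∑ l, Int.fract (-Z z l - (t + d + η + S + (M - 2) * η)) ≤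
      n * (1 - d') + (univ.filter fun k => 1 - d' < Int.fract (Z z k + t - s)).card := by
    rw [← sum_add_distrib]
    have : (n : ℝ) * (1 - d') + (univ.filter fun k => 1 - d' < Int.fract (Z z k + t - s)).card =
        ∑ k : Fin n, (1 - d' + if 1 - d' < Int.fract (Z z k + t - s) then 1 else 0) := by
      rw [sum_add_distrib, sum_const, card_univ, Fintype.card_fin, nsmul_eq_mul, sum_boole]
    rw [this]
    refine sum_le_sum fun k _ => ?_
    have h3 := fract_pair' (u := Z z k + t - s) (d := d') (by rw [hd']; nlinarith)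
      (by rw [hd']; nlinarith)
    have h4 : Z z k - (s - t) = Z z k + t - s := by ring
    have h5 : -Z z k - (t + d + η + S + (M - 2) * η) = -(Z z k + t - s) - d' := by
      rw [hd', hs]
      ring
    rw [h4, h5]
    exact h3
  have hfin : ((univ.filter fun l => Int.fract (Z y l - t) ≤ d).card : ℝ) <
      ((univ.filter fun k => 1 - d' < Int.fract (Z z k + t - s)).card : ℝ) + 1 := by
    have k1 : (n : ℝ) * (t + (s - t) + (S - (M - 2) * η)) = n * η := by
      rw [hs]
      ring
    have k2 : (n : ℝ) * (-(t + d) + (t + d + η + S + (M - 2) * η) + (-S - (M - 2) * η)) =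
        n * η := by ring
    rw [k1] at e1
    rw [k2] at e2
    have k3 : n * (1 + d) + n * (1 - d') = 2 * n - 2 * n * η * (M - 1) := by
      rw [hd']
      ring
    nlinarith
  have : (univ.filter fun l => Int.fract (Z y l - t) ≤ d).card <
      (univ.filter fun k => 1 - d' < Int.fract (Z z k + t - s)).card + 1 := by exact_mod_cast hfin
  omega

end

end Pool.Agent.K9h20
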