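import Mathlib

set_option autoImplicit false

/-!
Inequalities for sums of two and three cosines.
-/

namespace Pool.Agent.K9h20

lemma cos_two_aux {s t : ℝ} (hs : 0 ≤ s) (hs' : s ≤ 1 / 2) (ht : 0 ≤ t) (ht' : t ≤ 1 / 2)
    (h : 11 / 23 ≤ s + t) :
    Real.cos (2 * Real.pi * s) + Real.cos (2 * Real.pi * t) ≤ 0.139 := by
  have hpi := Real.pi_pos
  have hpi' := Real.pi_lt_d4
  have h1 : Real.cos (2 * Real.pi * s) + Real.cos (2 * Real.pi * t) =
      2 * Real.cos (Real.pi * (s + t)) * Real.cos (Real.pi * (s - t)) := by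
    rw [Real.cos_add_cos]
    ring_nf
  have h2 : 0 ≤ Real.cos (Real.pi * (s - t)) :=
    Real.cos_nonneg_of_neg_pi_div_two_le_of_le (by nlinarith) (by nlinarith)
  have h3 := Real.cos_le_one (Real.pi * (s - t))
  have h4 : Real.cos (Real.pi * (s + t)) ≤ Real.pi / 46 := by
    have h5 : Real.cos (Real.pi * (s + t)) ≤ Real.cos (Real.pi * (11 / 23)) :=
      Real.cos_le_cos_of_nonneg_of_le_pi (by positivity) (by nlinarith) (by nlinarith)
    have h6 : Real.cos (Real.pi * (11 / 23)) = Real.sin (Real.pi / 46) := by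
      rw [← Real.cos_pi_div_two_sub]
      congr 1
      ring
    have h7 := Real.sin_le (show 0 ≤ Real.pi / 46 by positivity)
    linarith
  rw [h1]
  rcases le_total (Real.cos (Real.pi * (s + t))) 0 with h5 | h5
  · have h6 : 2 * Real.cos (Real.pi * (s + t)) * Real.cos (Real.pi * (s - t)) ≤ 0 :=
      mul_nonpos_of_nonpos_of_nonneg (by linarith) h2
    norm_num
    linarith
  · have h6 : 2 * Real.cos (Real.pi * (s + t)) * Real.cos (Real.pi * (s - t)) ≤
        2 * Real.cos (Real.pi * (s + t)) * 1 := mul_le_mul_of_nonneg_left h3 (by linarith)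
    norm_num
    linarith

lemma cos_three_aux {s t r : ℝ} (hs : 0 ≤ s) (hs' : s ≤ 1 / 2) (ht : 0 ≤ t) (ht' : t ≤ 1 / 2)
    (_hr : 0 ≤ r) (hr' : r ≤ 1 / 2) (h : 45 / 46 ≤ s + t + r) :
    Real.cos (2 * Real.pi * s) + Real.cos (2 * Real.pi * t) + Real.cos (2 * Real.pi * r) ≤
      -0.8 := by
  have hpi := Real.pi_pos
  have hpi' := Real.pi_lt_d4
  rcases le_total (1 / 2) (s + t) with hσ | hσ
  · have h1 : Real.cos (2 * Real.pi * s) + Real.cos (2 * Real.pi * t) =
        2 * Real.cos (Real.pi * (s + t)) * Real.cos (Real.pi * (s - t)) := by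
      rw [Real.cos_add_cos]
      ring_nf
    have h2 : Real.cos (Real.pi * (s + t)) ≤ 0 :=
      Real.cos_nonpos_of_pi_div_two_le_of_le (by nlinarith) (by nlinarith)
    have h3 : -Real.cos (Real.pi * (s + t)) ≤ Real.cos (Real.pi * (s - t)) := by
      rw [← Real.cos_pi_sub, ← Real.cos_abs (Real.pi * (s - t))]
      refine Real.cos_le_cos_of_nonneg_of_le_pi (abs_nonneg _) (by nlinarith) ?_
      rw [abs_le]
      constructor <;> nlinarith
    have h4 : 2 * Real.cos (Real.pi * (s + t)) * Real.cos (Real.pi * (s - t)) ≤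
        -2 * Real.cos (Real.pi * (s + t)) ^ 2 := by nlinarith
    have h5 : -2 * Real.cos (Real.pi * (s + t)) ^ 2 = -1 - Real.cos (2 * Real.pi * (1 - (s + t))) := by
      have h6 : Real.cos (2 * Real.pi * (1 - (s + t))) = Real.cos (2 * (Real.pi * (s + t))) := by
        rw [show 2 * Real.pi * (1 - (s + t)) = 2 * Real.pi - 2 * (Real.pi * (s + t)) by ring,
          Real.cos_two_pi_sub]
      rw [h6, Real.cos_two_mul]
      ring
    have h6 : Real.cos (2 * Real.pi * r) ≤ Real.cos (2 * Real.pi * (1 - (s + t))) + 0.2 := by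
      rcases le_total (1 - (s + t)) r with h7 | h7
      · have h8 : Real.cos (2 * Real.pi * r) ≤ Real.cos (2 * Real.pi * (1 - (s + t))) :=
          Real.cos_le_cos_of_nonneg_of_le_pi (by
            have : 0 ≤ 1 - (s + t) := by linarith
            positivity) (by nlinarith) (by nlinarith)
        norm_num
        linarith
      · have h8 := Real.abs_cos_sub_cos_le (2 * Real.pi * r) (2 * Real.pi * (1 - (s + t)))
        have h9 := (abs_le.1 h8).2
        have h10 : |2 * Real.pi * r - 2 * Real.pi * (1 - (s + t))| =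
            2 * Real.pi * ((1 - (s + t)) - r) := by
          rw [abs_of_nonpos (by nlinarith)]
          ring
        rw [h10] at h9
        norm_num
        nlinarith
    norm_num at h6 ⊢
    linarith
  · have h1 := cos_two_aux hs hs' ht ht' (by linarith)
    have h2 : Real.cos (2 * Real.pi * r) ≤ Real.cos (2 * Real.pi * (11 / 23)) :=
      Real.cos_le_cos_of_nonneg_of_le_pi (by positivity) (by nlinarith) (by nlinarith)
    have h3 : Real.cos (2 * Real.pi * (11 / 23)) = -Real.cos (Real.pi / 23) := by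
      rw [← Real.cos_pi_sub]
      congr 1
      ring
    have h4 := Real.one_sub_sq_div_two_le_cos (x := Real.pi / 23)
    have h5 : (Real.pi / 23) ^ 2 / 2 ≤ 0.01 := by
      rw [div_pow]
      have : Real.pi ^ 2 ≤ 10 := by nlinarith
      norm_num
      linarith
    norm_num at h1 h5 ⊢
    linarith

/-- Reduction to the distance to the nearest integer. -/
lemma cos_round (x : ℝ) : Real.cos (2 * Real.pi * x) = Real.cos (2 * Real.pi * |x - round x|) := by
  have h1 : Real.cos (2 * Real.pi * x) = Real.cos (2 * Real.pi * (x - round x)) := by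
    rw [show 2 * Real.pi * (x - round x) = 2 * Real.pi * x - (round x : ℤ) * (2 * Real.pi) by ring,
      Real.cos_sub_int_mul_two_pi]
  rw [h1]
  rcases abs_choice (x - round x) with h | h
  · rw [h]
  · rw [h, mul_neg, Real.cos_neg]

end Pool.Agent.K9h20
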