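import Pool.Agent.K9h20.Ram

set_option autoImplicit false

/-!
Sums of two cosines all of whose conjugates are small: an algebraic integer with all conjugates at
most `0.278` is zero or has mean at most `-1`.
-/

namespace Pool.Agent.K9h20

open Finset Polynomial
open Pool.Agent.R927.GP
open ArithmeticFunction (moebius)

lemma log_small : Real.log 0.278 ≤ -1.278 := by
  have h1 : (0.278 : ℝ) ≤ (1 / 2) ^ 2 * 1.027 ^ 4 := by norm_num
  have h2 := Real.log_le_log (by norm_num) h1
  rw [Real.log_mul (by norm_num) (by norm_num), Real.log_pow, Real.log_pow, one_div,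
    Real.log_inv] at h2
  have h3 := Real.log_two_gt_d9
  have h4 := Real.log_le_sub_one_of_pos (show (0 : ℝ) < 1.027 by norm_num)
  push_cast at h2
  norm_num at h2 h4 ⊢
  linarith

lemma add_log_le {t : ℝ} (ht : t ≠ 0) (h : t ≤ 0.278) : t + 1 + Real.log |t| ≤ 0 := by
  rcases lt_or_gt_of_ne ht with h1 | h1
  · have h2 := Real.log_le_sub_one_of_pos (abs_pos.2 ht)
    rw [abs_of_neg h1] at h2 ⊢
    linarith
  · rw [abs_of_pos h1]
    have h2 := Real.log_le_log h1 h
    have h3 := log_small
    norm_num at h2 h3 h ⊢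
    linarith

/-- The sum of the conjugates. -/
theorem pair_core {N : ℕ} [NeZero N] {x y : ℚ} (hx : x.den ∣ N) (hy : y.den ∣ N)
    (h : ∀ u : (ZMod N)ˣ, 2 * Real.cos (2 * Real.pi * (((u : ZMod N).val : ℝ) * x)) +
      2 * Real.cos (2 * Real.pi * (((u : ZMod N).val : ℝ) * y)) ≤ 0.278)
    (h0 : ∃ u : (ZMod N)ˣ, 2 * Real.cos (2 * Real.pi * (((u : ZMod N).val : ℝ) * x)) +
      2 * Real.cos (2 * Real.pi * (((u : ZMod N).val : ℝ) * y)) ≠ 0) :
    ∑ u : (ZMod N)ˣ, (2 * Real.cos (2 * Real.pi * (((u : ZMod N).val : ℝ) * x)) +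
      2 * Real.cos (2 * Real.pi * (((u : ZMod N).val : ℝ) * y))) ≤ -N.totient := by
  have hN : 0 < N := Nat.pos_of_ne_zero (NeZero.ne N)
  have hNz : (0 : ℤ) < N := by exact_mod_cast hN
  have hprim := Complex.isPrimitiveRoot_exp N hN.ne'
  set ζ : ℂ := Complex.exp (2 * Real.pi * Complex.I / N) with hζ
  -- the numerators
  have hnum : ∀ x : ℚ, x.den ∣ N → ∃ (A : ℕ) (w : ℤ), A ≤ N ∧ (x : ℝ) = A / N + w := by
    intro x hx
    obtain ⟨c, hc⟩ := hx
    refine ⟨((c * x.num) % N).toNat, (c * x.num) / N, ?_, ?_⟩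
    · have h1 := Int.emod_lt_of_pos (c * x.num) hNz
      omega
    · have h1 := Int.emod_nonneg (c * x.num) hNz.ne'
      have h2 : (((c * x.num) % N).toNat : ℝ) = (((c * x.num) % N : ℤ) : ℝ) := by
        exact_mod_cast Int.toNat_of_nonneg h1
      have h3 : ((((c * x.num) % N : ℤ) : ℝ) + N * (((c * x.num) / N : ℤ) : ℝ)) = c * x.num := by
        exact_mod_cast Int.emod_add_mul_ediv (c * x.num) N
      have hN0 : (N : ℝ) ≠ 0 := by exact_mod_cast hN.ne'
      have h4 : (x : ℝ) = x.num / x.den := by exact_mod_cast (Rat.num_div_den x).symm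
      have hd : (x.den : ℝ) ≠ 0 := by exact_mod_cast x.den_pos.ne'
      have h5 : (N : ℝ) = x.den * c := by exact_mod_cast hc
      have hc0 : (c : ℝ) ≠ 0 := by
        intro h6
        rw [h6, mul_zero] at h5
        exact hN0 h5
      rw [h2]
      have h6 : (x : ℝ) * N = c * x.num := by
        rw [h4, h5]
        field_simp
      field_simp
      rw [h6, ← h3]
  obtain ⟨A, wA, hA, hxA⟩ := hnum x hx
  obtain ⟨B, wB, hB, hyB⟩ := hnum y hy
  -- the polynomial
  let f : ℤ[X] := X ^ A + X ^ (N - A) + (X ^ B + X ^ (N - B))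
  have hcos : ∀ (a A : ℕ) (w : ℤ) (x : ℝ), A ≤ N → x = A / N + w →
      (ζ ^ a) ^ A + (ζ ^ a) ^ (N - A) = ((2 * Real.cos (2 * Real.pi * ((a : ℝ) * x)) : ℝ) : ℂ) := by
    intro a A w x hA hx
    have hN0 : (N : ℂ) ≠ 0 := by exact_mod_cast hN.ne'
    have h1 : (ζ ^ a) ^ A = Complex.exp (((2 * Real.pi * ((a : ℝ) * x) : ℝ) : ℂ) * Complex.I) := by
      have h2 : ((2 * Real.pi * ((a : ℝ) * x) : ℝ) : ℂ) * Complex.I =
          ((a * A : ℕ) : ℂ) * (2 * Real.pi * Complex.I / N) +
            ((a * w : ℤ) : ℂ) * (2 * Real.pi * Complex.I) := by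
        rw [hx]
        push_cast
        field_simp
      rw [h2, Complex.exp_add, Complex.exp_int_mul_two_pi_mul_I, mul_one, Complex.exp_nat_mul,
        ← pow_mul]
    have h3 : (ζ ^ a) ^ (N - A) = ((ζ ^ a) ^ A)⁻¹ := by
      apply eq_inv_of_mul_eq_one_left
      rw [← pow_add, Nat.sub_add_cancel hA, ← pow_mul, mul_comm a N, pow_mul, hprim.pow_eq_one,
        one_pow]
    rw [h3, h1, ← Complex.exp_neg]
    push_cast
    rw [Complex.cos]
    ring_nf
  have hval : ∀ u : (ZMod N)ˣ, aeval (ζ ^ (u : ZMod N).val) f =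
      ((2 * Real.cos (2 * Real.pi * (((u : ZMod N).val : ℝ) * x)) +
      2 * Real.cos (2 * Real.pi * (((u : ZMod N).val : ℝ) * y)) : ℝ) : ℂ) := by
    intro u
    simp only [f, map_add, map_pow, aeval_X]
    rw [hcos _ A wA x hA hxA, hcos _ B wB y hB hyB]
    push_cast
    ring
  set c : (ZMod N)ˣ → ℝ := fun u => 2 * Real.cos (2 * Real.pi * (((u : ZMod N).val : ℝ) * x)) +
      2 * Real.cos (2 * Real.pi * (((u : ZMod N).val : ℝ) * y)) with hc
  obtain ⟨u₀, hu₀⟩ := h0
  have hpr : ∀ u : (ZMod N)ˣ, IsPrimitiveRoot (ζ ^ (u : ZMod N).val) N := fun u =>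
    hprim.pow_of_coprime _ (ZMod.val_coe_unit_coprime u)
  have hne : ∀ u, c u ≠ 0 := by
    intro u hu
    apply hu₀
    have h1 : aeval (ζ ^ (u : ZMod N).val) f = 0 := by
      rw [hval u]
      change ((c u : ℝ) : ℂ) = 0
      rw [hu]
      simp
    have h2 := aeval_conj hN f (hpr u) (hpr u₀) h1
    rw [hval u₀] at h2
    exact_mod_cast h2
  obtain ⟨M, hM⟩ := exists_prod_eq_int hN f
  have hnorm : ∀ u : (ZMod N)ˣ, ‖aeval (ζ ^ (u : ZMod N).val) f‖ = |c u| := by
    intro u
    rw [hval u, Complex.norm_real, Real.norm_eq_abs]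
  have hprod : ∏ z ∈ primitiveRoots N ℂ, aeval z f ≠ 0 := by
    rw [prod_ne_zero_iff]
    intro w hw h1
    rw [mem_primitiveRoots hN] at hw
    have h2 := aeval_conj hN f hw (hpr u₀) h1
    rw [hval u₀] at h2
    exact hu₀ (by exact_mod_cast h2)
  have hM0 : M ≠ 0 := by
    rintro rfl
    rw [Int.cast_zero] at hM
    exact hprod hM
  have hlog : (0 : ℝ) ≤ ∑ u : (ZMod N)ˣ, Real.log |c u| := by
    have h1 : ∑ u : (ZMod N)ˣ, Real.log |c u| =
        ∑ z ∈ primitiveRoots N ℂ, Real.log ‖aeval z f‖ := by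
      rw [sum_prim hprim (fun z => Real.log ‖aeval z f‖)]
      exact sum_congr rfl fun u _ => by rw [hnorm u]
    rw [h1, ← Real.log_prod (fun z hz => norm_ne_zero_iff.2 (prod_ne_zero_iff.1 hprod z hz)),
      ← norm_prod, hM, Complex.norm_intCast]
    apply Real.log_nonneg
    have : (1 : ℤ) ≤ |M| := Int.one_le_abs hM0
    exact_mod_cast this
  have hsum : ∑ u : (ZMod N)ˣ, (c u + 1) ≤ -∑ u : (ZMod N)ˣ, Real.log |c u| := by
    rw [← sum_neg_distrib]
    refine sum_le_sum fun u _ => ?_
    have := add_log_le (hne u) (h u)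
    linarith
  rw [sum_add_distrib, sum_const, card_univ, ZMod.card_units_eq_totient, nsmul_eq_mul,
    mul_one] at hsum
  change ∑ u : (ZMod N)ˣ, c u ≤ _
  linarith

/-- Numbers with Möbius function `-1`. -/
lemma moebius_cases {q : ℕ} (h : moebius q = -1) : q = 2 ∨ q = 3 ∨ q = 5 ∨ 5 ≤ q.totient := by
  have hq0 : q ≠ 0 := by
    rintro rfl
    simp at h
  by_cases hbig : ∃ p, p.Prime ∧ 7 ≤ p ∧ p ∣ q
  · obtain ⟨p, hp, hp7, hpq⟩ := hbig
    have h1 := Nat.totient_dvd_of_dvd hpq
    rw [Nat.totient_prime hp] at h1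
    have h2 := Nat.le_of_dvd (Nat.totient_pos.2 (Nat.pos_of_ne_zero hq0)) h1
    omega
  · push Not at hbig
    have hsq : Squarefree q := by
      by_contra hns
      rw [ArithmeticFunction.moebius_eq_zero_of_not_squarefree hns] at h
      norm_num at h
    have h30 : q ∣ 30 := by
      rw [← Nat.prod_primeFactors_of_squarefree hsq]
      have h1 : q.primeFactors ⊆ {2, 3, 5} := by
        intro p hp
        have hpp := Nat.prime_of_mem_primeFactors hp
        have h2 : p < 7 := by
          by_contra hlt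
          exact hbig p hpp (by omega) (Nat.dvd_of_mem_primeFactors hp)
        interval_cases p <;> simp_all +decide
      have h2 := prod_dvd_prod_of_subset _ _ (fun p => p) h1
      have h3 : ∏ p ∈ ({2, 3, 5} : Finset ℕ), p = 30 := by decide
      rwa [h3] at h2
    have hle := Nat.le_of_dvd (by norm_num) h30
    have : q ∈ Nat.divisors 30 := Nat.mem_divisors.2 ⟨h30, by norm_num⟩
    have hdiv : Nat.divisors 30 = {1, 2, 3, 5, 6, 10, 15, 30} := by decide
    rw [hdiv] at this
    simp only [mem_insert, mem_singleton] at this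
    rcases this with rfl | rfl | rfl | rfl | rfl | rfl | rfl | rfl
    · simp at h
    · simp
    · simp
    · simp
    · exfalso
      rw [show (6 : ℕ) = 2 * 3 by norm_num, ArithmeticFunction.isMultiplicative_moebius.map_mul_of_coprime
        (by norm_num), ArithmeticFunction.moebius_apply_prime (by norm_num),
        ArithmeticFunction.moebius_apply_prime (by norm_num)] at h
      norm_num at h
    · exfalso
      rw [show (10 : ℕ) = 2 * 5 by norm_num, ArithmeticFunction.isMultiplicative_moebius.map_mul_of_coprime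
        (by norm_num), ArithmeticFunction.moebius_apply_prime (by norm_num),
        ArithmeticFunction.moebius_apply_prime (by norm_num)] at h
      norm_num at h
    · exfalso
      rw [show (15 : ℕ) = 3 * 5 by norm_num, ArithmeticFunction.isMultiplicative_moebius.map_mul_of_coprime
        (by norm_num), ArithmeticFunction.moebius_apply_prime (by norm_num),
        ArithmeticFunction.moebius_apply_prime (by norm_num)] at h
      norm_num at h
    · right; right; right
      decide

lemma moebius_ge {q : ℕ} (hq : 0 < q) (h2 : q ≠ 2) (h3 : q ≠ 3) (h5 : q ≠ 5) :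
    -(q.totient : ℝ) ≤ 5 * (moebius q : ℤ) := by
  have hpos : (0 : ℝ) < q.totient := by exact_mod_cast Nat.totient_pos.2 hq
  rcases ArithmeticFunction.moebius_eq_or q with h | h | h
  · rw [h]; push_cast; linarith
  · rw [h]; push_cast; linarith
  · rcases moebius_cases h with h' | h' | h' | h'
    · exact absurd h' h2
    · exact absurd h' h3
    · exact absurd h' h5
    · rw [h]
      have : (5 : ℝ) ≤ q.totient := by exact_mod_cast h'
      push_cast
      linarith

end Pool.Agent.K9h20
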