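import Pool.Agent.R927.GP1

set_option autoImplicit false

/-!
Some unit modulo `E` moves finitely many fractions with denominator `E` away from the integers.
-/

namespace Pool.Agent.K9h20

open Finset Polynomial
open Pool.Agent.R927.GP

/-- The distance of `e(θ)` to one. -/
lemma norm_one_sub_exp_le (θ : ℝ) (w : ℤ) :
    ‖(1 : ℂ) - Complex.exp (2 * Real.pi * θ * Complex.I)‖ ≤ 2 * Real.pi * |θ - w| := by
  have h1 : Complex.exp (2 * Real.pi * θ * Complex.I) =
      Complex.exp (Complex.I * ((2 * Real.pi * (θ - w) : ℝ) : ℂ)) := by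
    have : (2 * Real.pi * θ * Complex.I : ℂ) =
        Complex.I * ((2 * Real.pi * (θ - w) : ℝ) : ℂ) + w * (2 * Real.pi * Complex.I) := by
      push_cast
      ring
    rw [this, Complex.exp_add, Complex.exp_int_mul_two_pi_mul_I, mul_one]
  rw [h1, norm_sub_rev]
  refine (Real.norm_exp_I_mul_ofReal_sub_one_le).trans ?_
  rw [Real.norm_eq_abs, abs_mul, abs_of_pos (by positivity)]

theorem exists_far {ι : Type*} [Fintype ι] (E : ℕ) (hE : 0 < E) (v : ι → ℤ) :
    ∃ a : ℤ, IsCoprime a (E : ℤ) ∧ ∀ i, ¬ (E : ℤ) ∣ v i → ∀ w : ℤ,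
      (1 / 2 : ℝ) ^ (Fintype.card ι + 2) ≤ |(a : ℝ) * v i / E - w| := by
  classical
  have hEz : (0 : ℤ) < E := by exact_mod_cast hE
  have hER : (0 : ℝ) < E := by exact_mod_cast hE
  set g : ι → ℤ[X] := fun i => if (E : ℤ) ∣ v i then 1 else 1 - X ^ ((v i % E).toNat) with hg
  set f : ℤ[X] := ∏ i, g i with hf
  have hval : ∀ z : ℂ, aeval z f = ∏ i, aeval z (g i) := fun z => by rw [hf, map_prod]
  have hne : ∀ z ∈ primitiveRoots E ℂ, aeval z f ≠ 0 := by
    intro z hz
    rw [mem_primitiveRoots hE] at hz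
    rw [hval, prod_ne_zero_iff]
    intro i _
    simp only [hg]
    split_ifs with h
    · simp
    · simp only [map_sub, map_one, map_pow, aeval_X]
      intro h0
      have h1 : z ^ (v i % E).toNat = 1 := by linear_combination -h0
      rw [hz.pow_eq_one_iff_dvd] at h1
      apply h
      have h2 : (E : ℤ) ∣ v i % E := by
        have h3 := Int.emod_nonneg (v i) hEz.ne'
        rw [← Int.toNat_of_nonneg h3]
        exact_mod_cast h1
      exact (Int.dvd_iff_emod_eq_zero).2 (by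
        have := Int.emod_eq_zero_of_dvd h2
        rwa [Int.emod_emod_of_dvd _ dvd_rfl] at this)
  obtain ⟨m, hm⟩ := exists_prod_eq_int hE f
  have hm0 : m ≠ 0 := by
    rintro rfl
    rw [Int.cast_zero] at hm
    exact (prod_ne_zero_iff.mpr hne) hm
  have h1 : (1 : ℝ) ≤ ∏ w ∈ primitiveRoots E ℂ, ‖aeval w f‖ := by
    have : ∏ w ∈ primitiveRoots E ℂ, ‖aeval w f‖ = |(m : ℝ)| := by
      rw [← norm_prod, hm, Complex.norm_intCast]
    rw [this]
    have : (1 : ℤ) ≤ |m| := Int.one_le_abs hm0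
    exact_mod_cast this
  have hprim := Complex.isPrimitiveRoot_exp E hE.ne'
  set ζ : ℂ := Complex.exp (2 * Real.pi * Complex.I / E) with hζ
  have hmem : ζ ∈ primitiveRoots E ℂ := (mem_primitiveRoots hE).2 hprim
  obtain ⟨w, hw, hw1⟩ : ∃ w ∈ primitiveRoots E ℂ, (1 : ℝ) ≤ ‖aeval w f‖ := by
    by_contra hcon
    push Not at hcon
    have h2 : ∏ w ∈ primitiveRoots E ℂ, ‖aeval w f‖ < ∏ w ∈ primitiveRoots E ℂ, (1 : ℝ) :=
      prod_lt_prod (fun w hw => norm_pos_iff.2 (hne w hw)) (fun w hw => (hcon w hw).le)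
        ⟨ζ, hmem, hcon ζ hmem⟩
    rw [prod_const_one] at h2
    linarith
  rw [mem_primitiveRoots hE] at hw
  have : NeZero E := ⟨hE.ne'⟩
  obtain ⟨a, ha, hac, hζa⟩ := hprim.isPrimitiveRoot_iff.1 hw
  refine ⟨a, by rw [Nat.isCoprime_iff_coprime]; exact hac, fun i hi u => ?_⟩
  have hle2 : ∀ j, ‖aeval w (g j)‖ ≤ 2 := by
    intro j
    simp only [hg]
    split_ifs with h
    · simp
    · simp only [map_sub, map_one, map_pow, aeval_X]
      refine (norm_sub_le _ _).trans ?_
      rw [norm_pow, hw.norm'_eq_one hE.ne']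
      norm_num
  have h3 : (1 : ℝ) ≤ ‖aeval w (g i)‖ * 2 ^ (Fintype.card ι - 1) := by
    refine hw1.trans ?_
    rw [hval, norm_prod, ← mul_prod_erase univ _ (mem_univ i)]
    refine mul_le_mul_of_nonneg_left ?_ (norm_nonneg _)
    refine (prod_le_prod (fun j _ => norm_nonneg _) fun j _ => hle2 j).trans ?_
    rw [prod_const, card_erase_of_mem (mem_univ i), card_univ]
  have h4 : ‖aeval w (g i)‖ ≤ 2 * Real.pi * |(a : ℝ) * v i / E - u| := by
    simp only [hg, if_neg hi, map_sub, map_one, map_pow, aeval_X]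
    have h5 : w ^ (v i % E).toNat =
        Complex.exp (2 * Real.pi * (((a : ℝ) * v i / E : ℝ) : ℂ) * Complex.I) := by
      have h6 : w ^ (v i % E).toNat = w ^ (v i) := by
        have h7 := Int.emod_nonneg (v i) hEz.ne'
        rw [← zpow_natCast, Int.toNat_of_nonneg h7]
        have h8 : w ^ (v i) = w ^ (E * (v i / E) + v i % E) := by
          rw [Int.mul_ediv_add_emod]
        have hw0 : w ≠ 0 := hw.ne_zero hE.ne'
        rw [h8, zpow_add₀ hw0, zpow_mul, zpow_natCast, hw.pow_eq_one, one_zpow, one_mul]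
      rw [h6, ← hζa, hζ, ← Complex.exp_nat_mul, ← Complex.exp_int_mul]
      congr 1
      have : (E : ℂ) ≠ 0 := by exact_mod_cast hE.ne'
      push_cast
      field_simp
    rw [h5]
    exact norm_one_sub_exp_le _ u
  have hcard : 1 ≤ Fintype.card ι := Fintype.card_pos_iff.2 ⟨i⟩
  have h9 : (2 : ℝ) ^ (Fintype.card ι - 1) * 2 = 2 ^ Fintype.card ι := by
    rw [← pow_succ]
    congr 1
    omega
  have h10 : (1 : ℝ) ≤ 4 * |(a : ℝ) * v i / E - u| * 2 ^ Fintype.card ι := by
    have h11 : (0 : ℝ) < 2 ^ (Fintype.card ι - 1) := by positivity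
    have h12 := Real.pi_lt_four
    have h13 : (1 : ℝ) ≤ 2 * Real.pi * |(a : ℝ) * v i / E - u| * 2 ^ (Fintype.card ι - 1) :=
      h3.trans (mul_le_mul_of_nonneg_right h4 h11.le)
    have h14 : 2 * Real.pi * |(a : ℝ) * v i / E - u| * 2 ^ (Fintype.card ι - 1) ≤
        2 * 4 * |(a : ℝ) * v i / E - u| * 2 ^ (Fintype.card ι - 1) := by
      have := abs_nonneg ((a : ℝ) * v i / E - u)
      gcongr
    rw [← h9]
    linarith
  rw [pow_add, one_div, inv_pow, inv_pow]
  have h15 : (0 : ℝ) < 2 ^ Fintype.card ι := by positivity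
  rw [← mul_inv, inv_le_iff_one_le_mul₀ (by positivity)]
  push_cast at h10 ⊢
  linarith

end Pool.Agent.K9h20
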