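import Pool.Agent.K9h20.Two

set_option autoImplicit false

/-!
Rank two: points whose difference of exponents has a denominator divisible by a prime number which
does not divide the other denominators.
-/

namespace Pool.Agent.K9h20

open Finset

variable {X : Type*} [Fintype X] [DecidableEq X]

/-- `p` is a prime number, `p ^ k`, `k ≥ 1`, is the exact power of `p` dividing the denominator of
`θ x`, and `p` does not divide the denominators of the other `θ y`. -/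
structure Own (θ : X → ℚ) (x : X) (p k : ℕ) : Prop where
  prime : p.Prime
  pos : 1 ≤ k
  dvd : p ^ k ∣ (θ x).den
  exact : ¬ p ^ (k + 1) ∣ (θ x).den
  other : ∀ y, y ≠ x → ¬ p ∣ (θ y).den

lemma den_dvd_of {N : ℕ} {r : ℚ} (h : ∃ z : ℤ, (N : ℚ) * r = z) : r.den ∣ N := by
  obtain ⟨z, hz⟩ := h
  have h1 : (N : ℤ) * r.num = z * r.den := by
    have h2 : (r.num : ℚ) = r * r.den := (Rat.mul_den_eq_num r).symm
    have h3 : ((N * r.num : ℤ) : ℚ) = ((z * r.den : ℤ) : ℚ) := by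
      push_cast
      rw [h2, ← hz]
      ring
    exact_mod_cast h3
  have h2 : (r.den : ℤ) ∣ N * r.num := ⟨z, by rw [h1]; ring⟩
  have h3 : IsCoprime (r.den : ℤ) r.num := by
    rw [Int.isCoprime_iff_nat_coprime]
    simpa using r.reduced.symm
  exact_mod_cast h3.dvd_of_dvd_mul_right h2

lemma int_of_den_dvd {N : ℕ} {r : ℚ} (h : r.den ∣ N) : ∃ z : ℤ, (N : ℚ) * r = z := by
  obtain ⟨c, hc⟩ := h
  refine ⟨c * r.num, ?_⟩
  rw [hc]
  push_cast
  rw [← Rat.mul_den_eq_num r]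
  ring

omit [Fintype X] in
omit [DecidableEq X] in
lemma own_data {θ : X → ℚ} {x : X} {p k : ℕ} (h : Own θ x p k) {N : ℕ} (hN : 0 < N)
    (hθ : ∀ x, ∃ z : ℤ, (N : ℚ) * θ x = z) :
    ∃ (M : ℕ) (t : X → ℤ) (g : ℤ), ¬ (p : ℤ) ∣ (M : ℤ) ∧ ¬ (p : ℤ) ∣ g ∧
      (∀ a : ℤ, ¬ (p : ℤ) ∣ a → IsCoprime a (M : ℤ) → IsCoprime a (N : ℤ)) ∧
      (∀ a : ℤ, IsCoprime a (N : ℤ) → ¬ (p : ℤ) ∣ a ∧ IsCoprime a (M : ℤ)) ∧
      (∀ y, y ≠ x → (M : ℚ) * θ y = t y) ∧ (M : ℚ) * θ x = g / (p : ℚ) ^ k := by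
  have hp := h.prime
  have hpz : Prime (p : ℤ) := Nat.prime_iff_prime_int.1 hp
  set M : ℕ := N / p ^ N.factorization p with hM
  have hNM : p ^ N.factorization p * M = N := Nat.ordProj_mul_ordCompl_eq_self N p
  have hcop : Nat.Coprime p M := Nat.coprime_ordCompl hp hN.ne'
  have hpM : ¬ p ∣ M := (Nat.Prime.coprime_iff_not_dvd hp).1 hcop
  have hdiv : ∀ d : ℕ, d ∣ N → ¬ p ∣ d → d ∣ M := by
    intro d hd hpd
    have h1 : Nat.Coprime d (p ^ N.factorization p) :=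
      Nat.Coprime.pow_right _ ((Nat.Prime.coprime_iff_not_dvd hp).2 hpd).symm
    rw [← hNM] at hd
    exact h1.dvd_of_dvd_mul_left hd
  have hpN : p ∣ N := (dvd_pow_self p (by have := h.pos; omega)).trans
    (h.dvd.trans (den_dvd_of (hθ x)))
  -- the denominator at `x`
  obtain ⟨R, hR⟩ := h.dvd
  have hpR : ¬ p ∣ R := by
    rintro ⟨c, hc⟩
    exact h.exact ⟨c, by rw [hR, hc]; ring⟩
  have hRN : R ∣ N := (Dvd.intro_left (p ^ k) hR.symm).trans (den_dvd_of (hθ x))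
  obtain ⟨c, hc⟩ := hdiv R hRN hpR
  have ht : ∀ y, ∃ z : ℤ, y ≠ x → (M : ℚ) * θ y = z := by
    intro y
    by_cases hy : y = x
    · exact ⟨0, fun h => absurd hy h⟩
    · obtain ⟨z, hz⟩ := int_of_den_dvd (hdiv _ (den_dvd_of (hθ y)) (h.other y hy))
      exact ⟨z, fun _ => hz⟩
  choose t ht using ht
  refine ⟨M, t, c * (θ x).num, ?_, ?_, ?_, ?_, ht, ?_⟩
  · exact_mod_cast hpM
  · intro hd
    rcases hpz.dvd_or_dvd hd with h1 | h1
    · have h2 : p ∣ c := by exact_mod_cast h1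
      exact hpM (by rw [hc]; exact h2.mul_left _)
    · have h2 : p ∣ (θ x).num.natAbs := Int.natCast_dvd.1 h1
      have h3 : p ∣ (θ x).den := by
        rw [hR]
        exact (dvd_pow_self p (by have := h.pos; omega)).mul_right _
      have h4 := Nat.dvd_gcd h2 h3
      rw [(θ x).reduced] at h4
      exact hp.one_lt.ne' (Nat.dvd_one.1 h4)
  · intro a ha ha'
    rw [← hNM]
    push_cast
    exact IsCoprime.mul_right (IsCoprime.pow_right ((Prime.coprime_iff_not_dvd hpz).2 ha).symm) ha'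
  · intro a ha
    refine ⟨fun hd => ?_, IsCoprime.of_isCoprime_of_dvd_right ha ?_⟩
    · have h1 : IsCoprime a (p : ℤ) := IsCoprime.of_isCoprime_of_dvd_right ha (by
        exact_mod_cast hpN)
      exact (Prime.coprime_iff_not_dvd hpz).1 h1.symm hd
    · exact_mod_cast Dvd.intro_left _ hNM
  · have h1 : (θ x) * ((θ x).den : ℚ) = (θ x).num := Rat.mul_den_eq_num _
    have hp0 : (p : ℚ) ^ k ≠ 0 := by
      have := hp.pos
      positivity
    rw [eq_div_iff hp0, hc]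
    push_cast
    rw [← h1, hR]
    push_cast
    ring

/-- The condition for all conjugates. -/
def Far (θ : X → ℚ) (N : ℕ) (T : Finset X) (c : ℚ) : Prop :=
  ∀ a : ℤ, IsCoprime a (N : ℤ) → ∀ w : X → ℤ, c ≤ ∑ y ∈ T, |(a : ℚ) * θ y - w y|

omit [Fintype X] in
lemma move_free {θ : X → ℚ} {x : X} {p k : ℕ} (h : Own θ x p k) {N : ℕ} (hN : 0 < N)
    (hθ : ∀ x, ∃ z : ℤ, (N : ℚ) * θ x = z) {T : Finset X} (hx : x ∈ T) {c : ℚ}
    (hfar : Far θ N T c) : Far θ N (T.erase x) (c - 2 / (p : ℚ) ^ k) := by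
  obtain ⟨M, t, g, hpM, hpg, hcop, hcop', ht, hg⟩ := own_data h hN hθ
  intro a ha w
  obtain ⟨hpa, haM⟩ := hcop' a ha
  obtain ⟨s, j, hs, hj⟩ := choose_mult h.prime h.pos hpa hpM hpg ((a : ℚ) * θ x)
  have ha' : IsCoprime (a + 2 * s * M) (N : ℤ) := hcop _ hs (by
    rw [show a + 2 * s * (M : ℤ) = a + M * (2 * s) by ring]
    exact (IsCoprime.add_mul_left_left_iff).2 haM)
  have h1 := hfar _ ha' (fun y => if y = x then 2 * j else w y + 2 * s * t y)
  rw [← add_sum_erase T _ hx] at h1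
  simp only [if_true] at h1
  have h2 : ((a + 2 * s * M : ℤ) : ℚ) * θ x - ((2 * j : ℤ) : ℚ) =
      a * θ x + 2 * s * g / (p : ℚ) ^ k - 2 * j := by
    push_cast
    linear_combination (2 * (s : ℚ)) * hg
  rw [h2] at h1
  have h3 : ∑ y ∈ T.erase x, |((a + 2 * s * M : ℤ) : ℚ) * θ y -
      ((if y = x then 2 * j else w y + 2 * s * t y : ℤ) : ℚ)| =
      ∑ y ∈ T.erase x, |(a : ℚ) * θ y - w y| := by
    refine sum_congr rfl fun y hy => ?_
    have hyx := (mem_erase.1 hy).1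
    rw [if_neg hyx]
    congr 1
    push_cast
    linear_combination (2 * (s : ℚ)) * ht y hyx
  rw [h3] at h1
  linarith

/-- The condition on the distances for all conjugates, with the parity. -/
def FarOdd (θ : X → ℚ) (F : ℤ) (N : ℕ) : Prop :=
  ∀ a : ℤ, IsCoprime a (N : ℤ) → ∀ w : X → ℤ, Odd (a * F - ∑ x, w x) →
    1 ≤ ∑ x, |(a : ℚ) * θ x - w x|

lemma move_parity {θ : X → ℚ} {x : X} {p k : ℕ} (h : Own θ x p k) {F : ℤ} {N : ℕ} (hN : 0 < N)
    (hθ : ∀ x, ∃ z : ℤ, (N : ℚ) * θ x = z)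
    (hfar : FarOdd θ F N) : Far θ N (univ.erase x) (1 - 2 / (p : ℚ) ^ k) := by
  obtain ⟨M, t, g, hpM, hpg, hcop, hcop', ht, hg⟩ := own_data h hN hθ
  have hpz : Prime (p : ℤ) := Nat.prime_iff_prime_int.1 h.prime
  intro a ha w
  obtain ⟨hpa, haM⟩ := hcop' a ha
  set G : ℤ := g - (p : ℤ) ^ k * (M * F - ∑ y ∈ univ.erase x, t y) with hG
  have hpG : ¬ (p : ℤ) ∣ G := by
    intro hd
    apply hpg
    have h1 : (p : ℤ) ∣ (p : ℤ) ^ k * (M * F - ∑ y ∈ univ.erase x, t y) :=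
      (dvd_pow_self _ (by have := h.pos; omega)).mul_right _
    have h2 := dvd_add hd h1
    rwa [hG, sub_add_cancel] at h2
  obtain ⟨s, j, hs, hj⟩ := choose_mult h.prime h.pos hpa hpM hpG
    ((a : ℚ) * θ x - a * F + 1 + ∑ y ∈ univ.erase x, (w y : ℚ))
  have ha' : IsCoprime (a + 2 * s * M) (N : ℤ) := hcop _ hs (by
    rw [show a + 2 * s * (M : ℤ) = a + M * (2 * s) by ring]
    exact (IsCoprime.add_mul_left_left_iff).2 haM)
  set T : ℤ := (a + 2 * s * M) * F - 1 - ∑ y ∈ univ.erase x, (w y + 2 * s * t y) with hT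
  have hsum : ∑ y ∈ univ.erase x, (if y = x then T + 2 * j else w y + 2 * s * t y) =
      ∑ y ∈ univ.erase x, (w y + 2 * s * t y) :=
    sum_congr rfl fun y hy => by rw [if_neg (mem_erase.1 hy).1]
  have h1 := hfar _ ha' (fun y => if y = x then T + 2 * j else w y + 2 * s * t y) (by
    rw [← add_sum_erase univ _ (mem_univ x), if_pos rfl, hsum, hT]
    exact ⟨-j, by ring⟩)
  rw [← add_sum_erase univ _ (mem_univ x)] at h1
  simp only [if_true] at h1
  have hp0 : (p : ℚ) ^ k ≠ 0 := by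
    have := h.prime.pos
    positivity
  have h2 : ((a + 2 * s * M : ℤ) : ℚ) * θ x - ((T + 2 * j : ℤ) : ℚ) =
      (a * θ x - a * F + 1 + ∑ y ∈ univ.erase x, (w y : ℚ)) + 2 * s * G / (p : ℚ) ^ k - 2 * j := by
    have h3 : (G : ℚ) / (p : ℚ) ^ k = M * θ x - (M * F - ∑ y ∈ univ.erase x, (t y : ℚ)) := by
      rw [hG, hg]
      push_cast
      field_simp
    have h4 : 2 * (s : ℚ) * G / (p : ℚ) ^ k = 2 * s * (G / (p : ℚ) ^ k) := by ring
    rw [h4, h3, hT]
    push_cast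
    rw [sum_add_distrib, ← mul_sum]
    ring
  rw [h2] at h1
  have h3 : ∑ y ∈ univ.erase x, |((a + 2 * s * M : ℤ) : ℚ) * θ y -
      ((if y = x then T + 2 * j else w y + 2 * s * t y : ℤ) : ℚ)| =
      ∑ y ∈ univ.erase x, |(a : ℚ) * θ y - w y| := by
    refine sum_congr rfl fun y hy => ?_
    have hyx := (mem_erase.1 hy).1
    rw [if_neg hyx]
    congr 1
    push_cast
    linear_combination (2 * (s : ℚ)) * ht y hyx
  rw [h3] at h1
  linarith

/-- All the points in `S` can be moved. -/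
theorem move_all {θ : X → ℚ} {S : Finset X} (hS : S.Nonempty) {p k : X → ℕ}
    (h : ∀ x ∈ S, Own θ x (p x) (k x)) {F : ℤ} {N : ℕ} (hN : 0 < N)
    (hθ : ∀ x, ∃ z : ℤ, (N : ℚ) * θ x = z) (hfar : FarOdd θ F N) :
    Far θ N Sᶜ (1 - ∑ x ∈ S, 2 / (p x : ℚ) ^ k x) := by
  obtain ⟨x₀, hx₀⟩ := hS
  have key : ∀ S' : Finset X, S' ⊆ S.erase x₀ →
      Far θ N (univ.erase x₀ \ S') (1 - 2 / (p x₀ : ℚ) ^ k x₀ - ∑ x ∈ S', 2 / (p x : ℚ) ^ k x) := by
    intro S'
    induction S' using Finset.induction_on with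
    | empty =>
      intro _
      rw [sdiff_empty, sum_empty, sub_zero]
      exact move_parity (h x₀ hx₀) hN hθ hfar
    | insert x S' hx ih =>
      intro hsub
      have h1 := ih (fun y hy => hsub (mem_insert_of_mem hy))
      have h2 := mem_erase.1 (hsub (mem_insert_self x S'))
      have h3 : x ∈ univ.erase x₀ \ S' := mem_sdiff.2 ⟨mem_erase.2 ⟨h2.1, mem_univ _⟩, hx⟩
      have h4 := move_free (h x h2.2) hN hθ h3 h1
      rw [sum_insert hx]
      have h5 : univ.erase x₀ \ insert x S' = (univ.erase x₀ \ S').erase x := by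
        rw [sdiff_insert]
      rw [h5]
      intro a ha w
      have h6 := h4 a ha w
      linarith
  have h1 := key _ (Subset.refl _)
  have h2 : univ.erase x₀ \ S.erase x₀ = Sᶜ := by
    ext y
    simp only [mem_sdiff, mem_erase, mem_univ, mem_compl, and_true, not_and]
    constructor
    · rintro ⟨h3, h4⟩ hy
      exact h4 h3 hy
    · intro hy
      exact ⟨fun h => hy (h ▸ hx₀), fun _ => hy⟩
  rw [h2] at h1
  intro a ha w
  have h3 := h1 a ha w
  rw [← add_sum_erase S _ hx₀]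
  linarith

end Pool.Agent.K9h20
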