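import Pool.Agent.N858.PC.FinalOp
import Pool.Agent.K9h20.Pair

set_option autoImplicit false

/-!
Multiples of the exponents by integers which need not be prime to the denominators.
-/

open Polynomial Filter Topology

namespace Pool.Agent.K9h20

open Pool.Agent.W432.WB Pool.Agent.W432.TC Pool.Agent.W432.HK Pool.Agent.Y227.SS
open Pool.Agent.Y227.SO Pool.Agent.TH571.GP

variable {m n : ℕ}

/-- The conjugate exponents of the operators with a small proportion of bad classes. -/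
def XC (m n : ℕ) (ε : ℝ) : Set (ExponentIndex m n → ℚ) :=
  {y | ∃ (b : Fin (n + 1) → ℤ[X]) (α : Fin m → AlgebraicClosure ℚ)
    (Q : Fin (n + 1) → (AlgebraicClosure ℚ)[X]) (x : ExponentIndex m n → ℚ) (N : ℕ) (a : ℤ),
      OpData b α Q x N ∧ ¬ BadPrimes b N ε ∧ IsCoprime a (N : ℤ) ∧ y = fun i => (a : ℚ) * x i}

/-- The cosets, for all the conjugates of the exponents. -/
lemma cosets_conj (hm : 1 ≤ m) (hn : 1 ≤ n) {ε : ℝ} (hgap : GapAt m n ε) :
    ∃ 𝒟 : Finset (AddSubgroup (ExponentIndex m n → ℤ) × (ExponentIndex m n → ℚ)),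
      (∀ C ∈ 𝒟, (∀ (d : ℤ) (k : ExponentIndex m n → ℤ), d ≠ 0 → d • k ∈ C.1 → k ∈ C.1) ∧
        traceRelation m n ∈ C.1 ∧ ∀ z, InCoset C.1 C.2 z → Good z) ∧
      ∀ x ∈ XC m n ε, ∃ C ∈ 𝒟, InCoset C.1 C.2 (fun i => (x i : ℝ)) := by
  classical
  obtain ⟨𝒟, h𝒟, hcov⟩ := general_cosets (XC m n ε)
  refine ⟨𝒟, fun C hC => ?_, hcov⟩
  obtain ⟨hsat, hgen, hCX, happ⟩ := h𝒟 C hC
  have htr : ∀ x ∈ XC m n ε, ∃ z : ℤ, ∑ i, (traceRelation m n i : ℚ) * x i = z := by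
    rintro y ⟨b, α, Q, x, N, a, hop, -, -, rfl⟩
    obtain ⟨z, hz⟩ := hop.trace hm hn
    refine ⟨a * z, ?_⟩
    push_cast
    rw [← hz, Finset.mul_sum]
    exact Finset.sum_congr rfl fun i _ => by ring
  have hτ : traceRelation m n ∈ C.1 := hgen _ htr
  refine ⟨hsat, hτ, fun z hz => ⟨?_, ?_⟩⟩
  · by_contra hbad
    have he : ∃ e : ℤ, ∑ i, (traceRelation m n i : ℝ) * z i = e := by
      obtain ⟨e', he'⟩ := hz _ hτ
      obtain ⟨e, he⟩ := htr _ hCX
      have he2 : ∑ i, (traceRelation m n i : ℝ) * (C.2 i : ℝ) = e := by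
        have := congrArg (fun q : ℚ => (q : ℝ)) he
        push_cast at this
        exact this
      refine ⟨e' + e, ?_⟩
      push_cast
      rw [← he', ← he2, ← Finset.sum_add_distrib]
      exact Finset.sum_congr rfl fun i _ => by ring
    obtain ⟨δ, hδ, hδW⟩ := near_weyl he hbad
    obtain ⟨y, ⟨b, α, Q, x, N, a, hop, hnb, ha, rfl⟩, -, hxa⟩ := happ 1 (fun _ => z) (fun _ => hz)
      δ hδ
    obtain ⟨a', ha', hnear⟩ := hxa 0 N hop.pos (fun i => by
      obtain ⟨w, hw⟩ := hop.den i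
      exact ⟨a * w, by push_cast; rw [← hw]; ring⟩)
    refine hδW (fun i => ((a' * a : ℤ) : ℝ) * x i) (fun i => ?_)
      (hgap b α Q x N hop hnb (a' * a) (ha'.mul_left ha)).1
    obtain ⟨w, hw⟩ := hnear i
    refine ⟨w, ?_⟩
    push_cast at hw ⊢
    rw [mul_assoc]
    exact hw
  · by_contra hbad
    obtain ⟨δ, hδ, hδW⟩ := semistable_open z hbad
    obtain ⟨y, ⟨b, α, Q, x, N, a, hop, hnb, ha, rfl⟩, -, hxa⟩ := happ 1 (fun _ => z) (fun _ => hz)
      δ hδ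
    obtain ⟨a', ha', hnear⟩ := hxa 0 N hop.pos (fun i => by
      obtain ⟨w, hw⟩ := hop.den i
      exact ⟨a * w, by push_cast; rw [← hw]; ring⟩)
    refine hδW (fun i => ((a' * a : ℤ) : ℝ) * x i) (fun i => ?_)
      (hgap b α Q x N hop hnb (a' * a) (ha'.mul_left ha)).2.1
    obtain ⟨w, hw⟩ := hnear i
    refine ⟨w, ?_⟩
    push_cast at hw ⊢
    rw [mul_assoc]
    exact hw

/-- All multiples by integers prime to a fixed modulus are good. -/
theorem multiples (m n : ℕ) (hm : 1 ≤ m) (hn : 1 ≤ n) {ε : ℝ} (hgap : GapAt m n ε) :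
    ∃ q : ℕ, 0 < q ∧
      ∀ (b : Fin (n + 1) → ℤ[X]) (α : Fin m → AlgebraicClosure ℚ)
        (Q : Fin (n + 1) → (AlgebraicClosure ℚ)[X]) (x : ExponentIndex m n → ℚ) (N M : ℕ),
        OpData b α Q x N → ¬ BadPrimes b N ε → 0 < M → (∀ i, ∃ z : ℤ, (M : ℚ) * x i = z) →
        ∀ v : ℤ, IsCoprime v ((M.gcd q : ℕ) : ℤ) → Good (fun i => (v : ℝ) * x i) := by
  classical
  obtain ⟨𝒟, h𝒟, hcov⟩ := cosets_conj hm hn hgap
  set q : ℕ := ∏ C ∈ 𝒟, ∏ i, (C.2 i).den with hq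
  have hq0 : 0 < q := Finset.prod_pos fun C _ => Finset.prod_pos fun i _ => (C.2 i).den_pos
  refine ⟨q, hq0, fun b α Q x N M hop hnb hM hMx v hv => ?_⟩
  have hNpos := hop.pos
  obtain ⟨a, haa, r, hr⟩ := lift_unit (N := N * M) (Nat.gcd_pos_of_pos_left q hM)
    (Nat.mul_pos hNpos hM) hv
  have ha : IsCoprime a (N : ℤ) := IsCoprime.of_isCoprime_of_dvd_right haa (by
    push_cast; exact dvd_mul_right _ _)
  have haM : IsCoprime a (M : ℤ) := IsCoprime.of_isCoprime_of_dvd_right haa (by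
    push_cast; exact dvd_mul_left _ _)
  obtain ⟨C, hC, hin⟩ := hcov (fun i => (a : ℚ) * x i) ⟨b, α, Q, x, N, a, hop, hnb, ha, rfl⟩
  obtain ⟨-, -, hgood⟩ := h𝒟 C hC
  refine hgood _ fun k hk => ?_
  obtain ⟨t, ht⟩ := hin k hk
  -- everything is rational
  have ht' : ∑ i, (k i : ℚ) * ((a : ℚ) * x i - C.2 i) = t := by
    have h1 : ((∑ i, (k i : ℚ) * ((a : ℚ) * x i - C.2 i) : ℚ) : ℝ) = ((t : ℚ) : ℝ) := by
      push_cast
      push_cast at ht
      exact ht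
    exact_mod_cast h1
  set Y : ℚ := ∑ i, (k i : ℚ) * x i with hY
  set s : ℚ := ∑ i, (k i : ℚ) * C.2 i with hs
  have h1 : a * Y = s + t := by
    rw [← ht', hY, hs, Finset.mul_sum, ← Finset.sum_add_distrib]
    exact Finset.sum_congr rfl fun i _ => by ring
  have h2 : ∃ w : ℤ, (M : ℚ) * Y = w := by
    choose w hw using hMx
    refine ⟨∑ i, k i * w i, ?_⟩
    rw [hY, Finset.mul_sum]
    push_cast
    exact Finset.sum_congr rfl fun i _ => by rw [← hw]; ring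
  have h3 : ∃ w : ℤ, (q : ℚ) * s = w := by
    have h4 : ∀ i, ∃ w : ℤ, (q : ℚ) * C.2 i = w := by
      intro i
      have h5 : (C.2 i).den ∣ q := (Finset.dvd_prod_of_mem (fun i => (C.2 i).den)
        (Finset.mem_univ i)).trans (Finset.dvd_prod_of_mem (fun C => ∏ i, (C.2 i).den) hC)
      obtain ⟨c, hc⟩ := h5
      refine ⟨c * (C.2 i).num, ?_⟩
      rw [hc]
      push_cast
      have h6 := Rat.den_mul_eq_num (C.2 i)
      rw [mul_comm ((C.2 i).den : ℚ), mul_assoc, h6]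
    choose w hw using h4
    refine ⟨∑ i, k i * w i, ?_⟩
    rw [hs, Finset.mul_sum]
    push_cast
    exact Finset.sum_congr rfl fun i _ => by rw [← hw]; ring
  obtain ⟨w1, hw1⟩ := h2
  obtain ⟨w2, hw2⟩ := h3
  -- the order of `Y` divides the greatest common divisor
  have h4 : ∃ w : ℤ, ((M.gcd q : ℕ) : ℚ) * Y = w := by
    have h5 : ((q : ℚ) * a) * Y = ((w2 + q * t : ℤ) : ℚ) := by
      push_cast
      rw [mul_assoc, h1, mul_add, hw2]
    obtain ⟨c, d, hcd⟩ := haM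
    have h6 := Nat.gcd_eq_gcd_ab M q
    have h7 : ((M.gcd q : ℕ) : ℚ) = M * M.gcdA q + q * M.gcdB q := by exact_mod_cast h6
    have h8 : (c : ℚ) * a + d * M = 1 := by exact_mod_cast hcd
    refine ⟨M.gcdA q * w1 + M.gcdB q * (c * (w2 + q * t) + d * q * w1), ?_⟩
    push_cast at h5 ⊢
    rw [h7]
    have h9 : (q : ℚ) * Y = c * (w2 + q * t) + d * q * w1 := by
      rw [← h5, ← hw1]
      linear_combination (-(q : ℚ) * Y) * h8
    linear_combination (M.gcdA q : ℚ) * hw1 + (M.gcdB q : ℚ) * h9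
  obtain ⟨w3, hw3⟩ := h4
  refine ⟨t - r * w3, ?_⟩
  have h5 : ∑ i, (k i : ℚ) * ((v : ℚ) * x i - C.2 i) = v * Y - s := by
    rw [hY, hs, Finset.mul_sum, ← Finset.sum_sub_distrib]
    exact Finset.sum_congr rfl fun i _ => by ring
  have h6 : (a : ℚ) - v = ((M.gcd q : ℕ) : ℚ) * r := by exact_mod_cast hr
  have h7 : v * Y - s = t - r * w3 := by
    rw [← hw3]
    linear_combination h1 - Y * h6
  have h8 : ((∑ i, (k i : ℚ) * ((v : ℚ) * x i - C.2 i) : ℚ) : ℝ) = (((t - r * w3 : ℤ) : ℚ) : ℝ) := by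
    rw [h5, h7]
    push_cast
    ring
  push_cast at h8 ⊢
  exact h8

end Pool.Agent.K9h20
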