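import Pool.Agent.K9h20.Cosi
import Pool.Agent.K9h20.CosReal
import Pool.Agent.K9h20.Move

set_option autoImplicit false

/-!
Pairs of rational numbers `x`, `y` such that for all conjugates the sum of the distances of `a x`
and `a y` to the nearest integers is at least `11 / 23`.
-/

namespace Pool.Agent.K9h20

open Finset
open ArithmeticFunction (moebius)

/-- Equality up to the sign and integers. -/
def Sim (x y : ℚ) : Prop := (∃ w : ℤ, x - y = w) ∨ ∃ w : ℤ, x + y = w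

lemma Sim.half {x y : ℚ} (h : Sim x y) (a : ℤ) : ∃ ε : ℚ, (ε = 1 ∨ ε = -1) ∧
    ∃ w : ℤ, (a : ℚ) * x = ε * (a * y) + w := by
  rcases h with ⟨w, hw⟩ | ⟨w, hw⟩
  · refine ⟨1, Or.inl rfl, a * w, ?_⟩
    push_cast
    rw [← hw]
    ring
  · refine ⟨-1, Or.inr rfl, a * w, ?_⟩
    push_cast
    rw [← hw]
    ring

lemma Sim.abs {x y : ℚ} (h : Sim x y) (a b : ℤ) : ∃ w : ℤ, |(a : ℚ) * x - w| = |(a : ℚ) * y - b| := by
  obtain ⟨ε, hε, w, hw⟩ := h.half a
  rcases hε with rfl | rfl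
  · refine ⟨w + b, ?_⟩
    congr 1
    push_cast
    rw [hw]
    ring
  · refine ⟨w - b, ?_⟩
    rw [← abs_neg]
    congr 1
    push_cast
    rw [hw]
    ring

section arith

variable {N : ℕ}

/-- Some conjugate of `x` is `1 / den` modulo the integers. -/
lemma exists_inv (hN : 0 < N) {x : ℚ} : ∃ a : ℤ, IsCoprime a (N : ℤ) ∧
      ∃ w : ℤ, (a : ℚ) * x - w = 1 / x.den := by
  have hcop : IsCoprime x.num (x.den : ℤ) := by
    rw [Int.isCoprime_iff_nat_coprime]
    simpa using x.reduced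
  obtain ⟨u, v, huv⟩ := hcop
  have hu : IsCoprime u (x.den : ℤ) := ⟨x.num, v, by linarith⟩
  obtain ⟨a, ha, c, hc⟩ := lift_unit x.den_pos hN hu
  refine ⟨a, ha, c * x.num - v, ?_⟩
  have hd : (x.den : ℚ) ≠ 0 := by exact_mod_cast x.den_pos.ne'
  have h1 : x = x.num / x.den := (Rat.num_div_den x).symm
  have h2 : (a : ℚ) = u + x.den * c := by
    have : a = u + x.den * c := by linarith
    exact_mod_cast this
  have h3 : (u : ℚ) * x.num + v * x.den = 1 := by exact_mod_cast huv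
  rw [eq_div_iff hd]
  have h4 : x * x.den = x.num := Rat.mul_den_eq_num x
  push_cast
  rw [h2]
  linear_combination h3 + (u + x.den * c : ℚ) * h4

lemma num_emod {x : ℚ} : ∃ w : ℤ, x - ((x.num % x.den : ℤ) : ℚ) / x.den = w := by
  refine ⟨x.num / x.den, ?_⟩
  have hd : (x.den : ℚ) ≠ 0 := by exact_mod_cast x.den_pos.ne'
  have h1 : x * x.den = x.num := Rat.mul_den_eq_num x
  have h2 : ((x.num % x.den : ℤ) : ℚ) + x.den * ((x.num / x.den : ℤ) : ℚ) = x.num := by
    exact_mod_cast Int.emod_add_mul_ediv x.num x.den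
  field_simp
  linarith

lemma sim_of_den {x : ℚ} {q : ℕ} (h : x.den = q) :
    ∃ j : ℤ, 0 ≤ j ∧ j < q ∧ Int.gcd j q = 1 ∧ ∃ w : ℤ, x - (j : ℚ) / q = w := by
  have hq : (0 : ℤ) < x.den := by exact_mod_cast x.den_pos
  refine ⟨x.num % x.den, Int.emod_nonneg _ hq.ne', ?_, ?_, ?_⟩
  · rw [← h]
    exact Int.emod_lt_of_pos _ hq
  · rw [← h, Int.gcd_emod]
    exact x.reduced
  · rw [← h]
    exact num_emod

lemma int_of_den_one {x : ℚ} (h : x.den = 1) : ∃ w : ℤ, x = w := by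
  obtain ⟨j, h0, h1, -, w, hw⟩ := sim_of_den h
  refine ⟨w + j, ?_⟩
  push_cast at hw ⊢
  rw [← hw]
  ring

lemma sim_two {x : ℚ} (h : x.den = 2) : Sim x (1 / 2) := by
  obtain ⟨j, h0, h1, h2, w, hw⟩ := sim_of_den h
  have : j < 2 := by exact_mod_cast h1
  interval_cases j
  · simp at h2
  · exact Or.inl ⟨w, by push_cast at hw; linarith⟩

lemma sim_three {x : ℚ} (h : x.den = 3) : Sim x (1 / 3) := by
  obtain ⟨j, h0, h1, h2, w, hw⟩ := sim_of_den h
  have : j < 3 := by exact_mod_cast h1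
  interval_cases j
  · simp at h2
  · exact Or.inl ⟨w, by push_cast at hw; linarith⟩
  · exact Or.inr ⟨w + 1, by push_cast at hw ⊢; linarith⟩

lemma sim_four {x : ℚ} (h : x.den = 4) : Sim x (1 / 4) := by
  obtain ⟨j, h0, h1, h2, w, hw⟩ := sim_of_den h
  have : j < 4 := by exact_mod_cast h1
  interval_cases j
  · simp at h2
  · exact Or.inl ⟨w, by push_cast at hw; linarith⟩
  · norm_num at h2
  · exact Or.inr ⟨w + 1, by push_cast at hw ⊢; linarith⟩

lemma sim_five {x : ℚ} (h : x.den = 5) : Sim x (1 / 5) ∨ Sim x (2 / 5) := by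
  obtain ⟨j, h0, h1, h2, w, hw⟩ := sim_of_den h
  have : j < 5 := by exact_mod_cast h1
  interval_cases j
  · simp at h2
  · exact Or.inl (Or.inl ⟨w, by push_cast at hw; linarith⟩)
  · exact Or.inr (Or.inl ⟨w, by push_cast at hw; linarith⟩)
  · exact Or.inr (Or.inr ⟨w + 1, by push_cast at hw ⊢; linarith⟩)
  · exact Or.inl (Or.inr ⟨w + 1, by push_cast at hw ⊢; linarith⟩)

lemma sim_six {x : ℚ} (h : x.den = 6) : Sim x (1 / 6) := by
  obtain ⟨j, h0, h1, h2, w, hw⟩ := sim_of_den h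
  have : j < 6 := by exact_mod_cast h1
  interval_cases j
  · simp at h2
  · exact Or.inl ⟨w, by push_cast at hw; linarith⟩
  · norm_num at h2
  · norm_num at h2
  · norm_num at h2
  · exact Or.inr ⟨w + 1, by push_cast at hw ⊢; linarith⟩

/-- The list of pairs. -/
def PairList (x y : ℚ) : Prop :=
  Sim x (1 / 2) ∨ Sim y (1 / 2) ∨ Sim y (1 / 2 - x) ∨ (Sim x (1 / 3) ∧ Sim y (1 / 3)) ∨
    (Sim x (1 / 3) ∧ Sim y (1 / 4)) ∨ (Sim x (1 / 4) ∧ Sim y (1 / 3)) ∨
    (Sim x (1 / 3) ∧ Sim y (1 / 5)) ∨ (Sim x (1 / 5) ∧ Sim y (1 / 3)) ∨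
    (Sim x (1 / 3) ∧ Sim y (2 / 5)) ∨ (Sim x (2 / 5) ∧ Sim y (1 / 3)) ∨
    (Sim x (1 / 5) ∧ Sim y (2 / 5)) ∨ (Sim x (2 / 5) ∧ Sim y (1 / 5))

lemma Sim.symm {x y : ℚ} (h : Sim x y) : Sim y x := by
  rcases h with ⟨w, hw⟩ | ⟨w, hw⟩
  · exact Or.inl ⟨-w, by push_cast; rw [← hw]; ring⟩
  · exact Or.inr ⟨w, by rw [← hw]; ring⟩

lemma Sim.trans {x y z : ℚ} (h : Sim x y) (h' : Sim y z) : Sim x z := by
  rcases h with ⟨w, hw⟩ | ⟨w, hw⟩ <;> rcases h' with ⟨v, hv⟩ | ⟨v, hv⟩
  · exact Or.inl ⟨w + v, by push_cast; rw [← hw, ← hv]; ring⟩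
  · exact Or.inr ⟨w + v, by push_cast; rw [← hw, ← hv]; ring⟩
  · exact Or.inr ⟨w - v, by push_cast; rw [← hw, ← hv]; ring⟩
  · exact Or.inl ⟨w - v, by push_cast; rw [← hw, ← hv]; ring⟩

lemma sim_half_sub {x y : ℚ} (h : Sim y (1 / 2 - x)) : Sim x (1 / 2 - y) := by
  rcases h with ⟨w, hw⟩ | ⟨w, hw⟩
  · exact Or.inl ⟨w, by rw [← hw]; ring⟩
  · exact Or.inr ⟨1 - w, by push_cast; rw [← hw]; ring⟩

lemma PairList.symm {x y : ℚ} (h : PairList x y) : PairList y x := by
  unfold PairList at h ⊢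
  rcases h with h | h | h | h | h | h | h | h | h | h | h | h
  · exact Or.inr (Or.inl h)
  · exact Or.inl h
  · exact Or.inr (Or.inr (Or.inl (sim_half_sub h)))
  all_goals tauto

/-- The condition for pairs. -/
def FarPair (N : ℕ) (c x y : ℚ) : Prop :=
  ∀ a : ℤ, IsCoprime a (N : ℤ) → ∀ v w : ℤ, c ≤ |(a : ℚ) * x - v| + |(a : ℚ) * y - w|

lemma FarPair.symm {c x y : ℚ} (h : FarPair N c x y) : FarPair N c y x := by
  intro a ha v w
  rw [add_comm]
  exact h a ha w v

/-- The case of a denominator at most three. -/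
lemma pair_small (hN : 0 < N) {x y : ℚ} (h : FarPair N (11 / 23) x y) (hx : x.den ≤ 3) :
    PairList x y := by
  obtain ⟨a, ha, w, hw⟩ := exists_inv hN (x := y)
  have hpos := x.den_pos
  interval_cases hd : x.den
  · -- `x` is an integer
    obtain ⟨v, hv⟩ := int_of_den_one hd
    have h1 := h a ha (a * v) w
    rw [hw, hv] at h1
    push_cast at h1
    rw [sub_self, abs_zero, zero_add, abs_of_nonneg (by positivity)] at h1
    have hy := y.den_pos
    have h2 : y.den ≤ 2 := by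
      by_contra hlt
      have h3 : (3 : ℚ) ≤ y.den := by exact_mod_cast (by omega : 3 ≤ y.den)
      have h4 : 1 / (y.den : ℚ) ≤ 1 / 3 := by
        apply one_div_le_one_div_of_le <;> linarith
      norm_num at h1 h4
      linarith
    interval_cases hdy : y.den
    · obtain ⟨u, hu⟩ := int_of_den_one hdy
      have h3 := h 1 isCoprime_one_left v u
      rw [hv, hu] at h3
      norm_num at h3
    · exact Or.inr (Or.inl (sim_two hdy))
  · exact Or.inl (sim_two hd)
  · -- denominator three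
    have hs := sim_three hd
    obtain ⟨v, hv⟩ : ∃ v : ℤ, |(a : ℚ) * x - v| ≤ 1 / 3 := by
      have h1 : ∃ b : ℤ, |(a : ℚ) * (1 / 3) - b| ≤ 1 / 3 := by
        have h2 := Int.emod_nonneg a (show (3 : ℤ) ≠ 0 by norm_num)
        have h3 := Int.emod_lt_of_pos a (show (0 : ℤ) < 3 by norm_num)
        have h4 : (a : ℚ) = ((a % 3 : ℤ) : ℚ) + 3 * ((a / 3 : ℤ) : ℚ) := by
          exact_mod_cast (Int.emod_add_mul_ediv a 3).symm
        have h5 : a % 3 = 0 ∨ a % 3 = 1 ∨ a % 3 = 2 := by omega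
        rcases h5 with h5 | h5 | h5
        · refine ⟨a / 3, ?_⟩
          rw [h4, h5, abs_le]
          push_cast
          constructor <;> linarith
        · refine ⟨a / 3, ?_⟩
          rw [h4, h5, abs_le]
          push_cast
          constructor <;> linarith
        · refine ⟨a / 3 + 1, ?_⟩
          rw [h4, h5, abs_le]
          push_cast
          constructor <;> linarith
      obtain ⟨b, hb⟩ := h1
      obtain ⟨v, hv⟩ := hs.abs a b
      exact ⟨v, hv.le.trans hb⟩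
    have h1 := h a ha v w
    rw [hw] at h1
    have hy := y.den_pos
    rw [abs_of_nonneg (show (0 : ℚ) ≤ 1 / y.den by positivity)] at h1
    have h2 : y.den ≤ 6 := by
      by_contra hlt
      have h3 : (7 : ℚ) ≤ y.den := by exact_mod_cast (by omega : 7 ≤ y.den)
      have h4 : 1 / (y.den : ℚ) ≤ 1 / 7 := by
        apply one_div_le_one_div_of_le <;> linarith
      linarith
    interval_cases hdy : y.den
    · obtain ⟨u, hu⟩ := int_of_den_one hdy
      have h3 := h a ha v (a * u)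
      rw [hu] at h3
      push_cast at h3
      rw [sub_self, abs_zero, add_zero] at h3
      linarith
    · exact Or.inr (Or.inl (sim_two hdy))
    · exact Or.inr (Or.inr (Or.inr (Or.inl ⟨hs, sim_three hdy⟩)))
    · exact Or.inr (Or.inr (Or.inr (Or.inr (Or.inl ⟨hs, sim_four hdy⟩))))
    · unfold PairList
      rcases sim_five hdy with h3 | h3
      · tauto
      · tauto
    · refine Or.inr (Or.inr (Or.inl ?_))
      refine (sim_six hdy).trans ?_
      have h3 := hs
      rcases h3 with ⟨u, hu⟩ | ⟨u, hu⟩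
      · exact Or.inl ⟨u, by rw [← hu]; ring⟩
      · exact Or.inr ⟨1 - u, by push_cast; rw [← hu]; ring⟩

end arith

end Pool.Agent.K9h20
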