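import Pool.Agent.K9h20.NMove
import Pool.Agent.K9h20.PairClass

set_option autoImplicit false

/-!
Any rank: the inequality at the remaining points, and its consequence for at most two points.
-/

namespace Pool.Agent.K9h20

open Finset

variable {n : ℕ}

/-- The exponents are, modulo the integers, the `n` terms of an arithmetic progression with
difference `1 / n`. -/
def Progression (v : Fin n → ℚ) : Prop :=
  ∀ l l', l ≠ l' → (∃ z : ℤ, (n : ℚ) * (v l - v l') = z) ∧ ¬ ∃ z : ℤ, v l - v l' = z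

/-- The sum of the fractional parts. -/
def fsum (v : Fin n → ℚ) (c : Fin n) : ℚ := ∑ l, Int.fract (v l - v c)

lemma fract_pair_le (r : ℚ) : Int.fract r + Int.fract (-r) ≤ 1 := by
  by_cases h : Int.fract r = 0
  · rw [h, zero_add]
    exact (Int.fract_lt_one _).le
  · rw [Int.fract_neg h]
    linarith

lemma fract_pair_int {r : ℚ} (h : ∃ z : ℤ, r = z) : Int.fract r + Int.fract (-r) = 0 := by
  obtain ⟨z, rfl⟩ := h
  rw [Int.fract_intCast, ← Int.cast_neg, Int.fract_intCast, add_zero]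

lemma two_sum_fsum (v : Fin n → ℚ) :
    2 * ∑ c, fsum v c = ∑ c, ∑ l, (Int.fract (v l - v c) + Int.fract (-(v l - v c))) := by
  have h1 : ∑ c, ∑ l, Int.fract (-(v l - v c)) = ∑ c, fsum v c := by
    rw [sum_comm]
    refine sum_congr rfl fun l _ => ?_
    rw [fsum]
    refine sum_congr rfl fun c _ => ?_
    rw [neg_sub]
  simp only [sum_add_distrib]
  rw [h1]
  simp only [fsum]
  ring

lemma sum_offdiag : ∑ c : Fin n, ∑ l : Fin n, (if l = c then (0 : ℚ) else 1) = n ^ 2 - n := by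
  have h1 : ∀ c : Fin n, ∑ l : Fin n, (if l = c then (0 : ℚ) else 1) = n - 1 := by
    intro c
    have h2 : ∀ l : Fin n, (if l = c then (0 : ℚ) else 1) = 1 - if l = c then 1 else 0 := by
      intro l
      split_ifs <;> norm_num
    simp only [h2, sum_sub_distrib, sum_const, card_univ, Fintype.card_fin, nsmul_eq_mul, mul_one,
      sum_ite_eq', mem_univ, if_true]
  simp only [h1, sum_const, card_univ, Fintype.card_fin, nsmul_eq_mul]
  ring

lemma term_le (v : Fin n → ℚ) (c l : Fin n) :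
    Int.fract (v l - v c) + Int.fract (-(v l - v c)) ≤ if l = c then 0 else 1 := by
  split_ifs with h
  · exact (fract_pair_int ⟨0, by rw [h, sub_self, Int.cast_zero]⟩).le
  · exact fract_pair_le _

lemma sum_fsum_le (v : Fin n → ℚ) : ∑ c, fsum v c ≤ n * (n - 1) / 2 := by
  have h1 := two_sum_fsum v
  have h2 : ∑ c, ∑ l, (Int.fract (v l - v c) + Int.fract (-(v l - v c))) ≤
      ∑ c : Fin n, ∑ l : Fin n, (if l = c then (0 : ℚ) else 1) :=
    sum_le_sum fun c _ => sum_le_sum fun l _ => term_le v c l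
  rw [sum_offdiag] at h2
  linarith

lemma sum_fsum_le' (v : Fin n → ℚ) {l₀ c₀ : Fin n} (h : l₀ ≠ c₀)
    (hv : ∃ z : ℤ, v l₀ - v c₀ = z) : ∑ c, fsum v c ≤ n * (n - 1) / 2 - 1 := by
  have h1 := two_sum_fsum v
  have h2 : ∑ c, ∑ l, (Int.fract (v l - v c) + Int.fract (-(v l - v c))) ≤
      ∑ c : Fin n, ∑ l : Fin n, ((if l = c then (0 : ℚ) else 1) -
        (if c = c₀ then if l = l₀ then 1 else 0 else 0) -
        (if c = l₀ then if l = c₀ then 1 else 0 else 0)) := by
    refine sum_le_sum fun c _ => sum_le_sum fun l _ => ?_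
    by_cases h3 : c = c₀ ∧ l = l₀
    · obtain ⟨rfl, rfl⟩ := h3
      rw [fract_pair_int hv]
      simp [h, h.symm]
    · by_cases h4 : c = l₀ ∧ l = c₀
      · obtain ⟨rfl, rfl⟩ := h4
        obtain ⟨z, hz⟩ := hv
        rw [fract_pair_int ⟨-z, by push_cast; rw [← hz]; ring⟩]
        simp [h, h.symm]
      · refine (term_le v c l).trans (le_of_eq ?_)
        have h5 : (if c = c₀ then if l = l₀ then (1 : ℚ) else 0 else 0) = 0 := by
          by_cases h6 : c = c₀
          · rw [if_pos h6, if_neg (fun h7 => h3 ⟨h6, h7⟩)]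
          · rw [if_neg h6]
        have h6 : (if c = l₀ then if l = c₀ then (1 : ℚ) else 0 else 0) = 0 := by
          by_cases h6 : c = l₀
          · rw [if_pos h6, if_neg (fun h7 => h4 ⟨h6, h7⟩)]
          · rw [if_neg h6]
        rw [h5, h6, sub_zero, sub_zero]
  have h3 : ∑ c : Fin n, ∑ l : Fin n, ((if l = c then (0 : ℚ) else 1) -
        (if c = c₀ then if l = l₀ then 1 else 0 else 0) -
        (if c = l₀ then if l = c₀ then 1 else 0 else 0)) = (n ^ 2 - n) - 1 - 1 := by
    simp only [sum_sub_distrib]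
    rw [sum_offdiag]
    have h4 : ∀ p q : Fin n, ∑ c : Fin n, ∑ l : Fin n,
        (if c = p then if l = q then (1 : ℚ) else 0 else 0) = 1 := by
      intro p q
      rw [sum_eq_single p]
      · simp
      · intro c _ hc
        simp [hc]
      · intro hp
        exact absurd (mem_univ _) hp
    rw [h4, h4]
  rw [h3] at h2
  linarith

lemma fsum_sub_int (v : Fin n → ℚ) (c c' : Fin n) :
    ∃ W : ℤ, fsum v c - fsum v c' = n * (v c' - v c) - W := by
  refine ⟨∑ l, (⌊v l - v c⌋ - ⌊v l - v c'⌋), ?_⟩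
  rw [fsum, fsum, ← sum_sub_distrib]
  have h1 : ∀ l, Int.fract (v l - v c) - Int.fract (v l - v c') =
      (v c' - v c) - ((⌊v l - v c⌋ - ⌊v l - v c'⌋ : ℤ) : ℚ) := by
    intro l
    rw [← Int.self_sub_floor, ← Int.self_sub_floor]
    push_cast
    ring
  rw [sum_congr rfl fun l _ => h1 l, sum_sub_distrib, sum_const, card_univ, Fintype.card_fin,
    nsmul_eq_mul]
  push_cast
  ring

/-- Two families with large sums have nearly constant values. -/
lemma near_const {f g : Fin n → ℚ} {κ : ℚ} (hn : 0 < n)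
    (h : ∀ c c', (n : ℚ) - 1 - κ ≤ f c + g c') (hf : ∑ c, f c ≤ n * (n - 1) / 2)
    (hg : ∑ c, g c ≤ n * (n - 1) / 2) (c c' : Fin n) : f c - f c' ≤ n * κ := by
  have hn' : (0 : ℚ) < n := by exact_mod_cast hn
  have h1 : ∀ c, ((n : ℚ) - 1) / 2 - κ ≤ f c := by
    intro c
    have h2 : ∑ _c' : Fin n, ((n : ℚ) - 1 - κ) ≤ ∑ c', (f c + g c') := sum_le_sum fun c' _ => h c c'
    rw [sum_add_distrib, sum_const, sum_const, card_univ, Fintype.card_fin, nsmul_eq_mul,
      nsmul_eq_mul] at h2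
    have h3 : (n : ℚ) * (((n : ℚ) - 1) / 2 - κ) ≤ n * f c := by linarith
    exact le_of_mul_le_mul_left h3 hn'
  have h2 : f c + ((n : ℚ) - 1) * (((n : ℚ) - 1) / 2 - κ) ≤ ∑ c, f c := by
    rw [← add_sum_erase univ f (mem_univ c)]
    have h3 : ∑ _c' ∈ univ.erase c, (((n : ℚ) - 1) / 2 - κ) ≤ ∑ c' ∈ univ.erase c, f c' :=
      sum_le_sum fun c' _ => h1 c'
    rw [sum_const, card_erase_of_mem (mem_univ c), card_univ, Fintype.card_fin, nsmul_eq_mul,
      Nat.cast_sub hn, Nat.cast_one] at h3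
    linarith
  have h3 := h1 c'
  have h4 : ((n : ℚ) - 1) * (((n : ℚ) - 1) / 2 - κ) = (n - 1) * (n - 1) / 2 - (n - 1) * κ := by ring
  have h5 : (n : ℚ) * (n - 1) / 2 = (n - 1) * (n - 1) / 2 + (n - 1) / 2 := by ring
  linarith

variable {X : Type*} [DecidableEq X]

omit [DecidableEq X] in
lemma FarN.fsum {e : X → Fin n → ℚ} {N : ℕ} {T : Finset X} {κ : ℚ} (h : FarN e N T κ) {a : ℤ}
    (ha : IsCoprime a (N : ℤ)) (c : X → Fin n) :
    κ ≤ ∑ y ∈ T, K9h20.fsum (fun l => (a : ℚ) * e y l) (c y) := by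
  refine (h a ha c (fun y l => ⌊(a : ℚ) * e y l - a * e y (c y)⌋) (fun _ => 0)
    (fun y _ l => ?_)).trans (le_of_eq ?_)
  · have := Int.fract_nonneg ((a : ℚ) * e y l - a * e y (c y))
    rw [← Int.self_sub_floor] at this
    linarith
  · refine sum_congr rfl fun y _ => ?_
    rw [mul_zero, sub_zero, K9h20.fsum]
    refine sum_congr rfl fun l _ => ?_
    rw [← Int.self_sub_floor]
    ring

lemma pair_progression {e : X → Fin n → ℚ} {N : ℕ} (hn : 2 ≤ n) (hN : 0 < N)
    (he : ∀ x l, ∃ z : ℤ, (N : ℚ) * e x l = z) {y z : X} (hyz : y ≠ z) {κ : ℚ}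
    (hκ : κ < 1 / (8 * n)) (h : FarN e N {y, z} (n - 1 - κ)) : Progression (e y) := by
  have hn0 : 0 < n := by omega
  have hn' : (2 : ℚ) ≤ n := by exact_mod_cast hn
  have hn1 : (0 : ℚ) < n := by linarith
  have h8 : n * κ < 1 / 8 := by
    have h1 := mul_lt_mul_of_pos_left hκ hn1
    have h2 : (n : ℚ) * (1 / (8 * n)) = 1 / 8 := by field_simp
    rwa [h2] at h1
  have hmain : ∀ a : ℤ, IsCoprime a (N : ℤ) → ∀ c c' : Fin n,
      (n : ℚ) - 1 - κ ≤ fsum (fun l => (a : ℚ) * e y l) c + fsum (fun l => (a : ℚ) * e z l) c' := by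
    intro a ha c c'
    have h1 := h.fsum ha (fun x => if x = y then c else c')
    rwa [sum_pair hyz, if_pos rfl, if_neg hyz.symm] at h1
  intro l l' hll
  constructor
  · -- the multiples by `n` are integers
    obtain ⟨z1, hz1⟩ := he y l
    obtain ⟨z2, hz2⟩ := he y l'
    obtain ⟨a, ha, hfar⟩ := exists_far (ι := Unit) N hN (fun _ => n * (z1 - z2))
    by_contra hcon
    have hnd : ¬ (N : ℤ) ∣ n * (z1 - z2) := by
      rintro ⟨t, ht⟩
      apply hcon
      refine ⟨t, ?_⟩
      have hN' : (N : ℚ) ≠ 0 := by exact_mod_cast hN.ne'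
      have h1 : (n : ℚ) * (z1 - z2) = N * t := by exact_mod_cast ht
      apply mul_left_cancel₀ hN'
      rw [← h1, ← hz1, ← hz2]
      ring
    obtain ⟨W, hW⟩ := fsum_sub_int (fun l => (a : ℚ) * e y l) l' l
    have h1 := hfar () hnd W
    have h2 := near_const hn0 (hmain a ha) (sum_fsum_le _) (sum_fsum_le _) l' l
    have h3 := near_const hn0 (hmain a ha) (sum_fsum_le _) (sum_fsum_le _) l l'
    have h4 : |fsum (fun l => (a : ℚ) * e y l) l' - fsum (fun l => (a : ℚ) * e y l) l| ≤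
        n * κ := by
      rw [abs_le]
      constructor <;> linarith
    rw [hW] at h4
    have h5 : (n : ℚ) * (a * e y l - a * e y l') - W = a * (n * (z1 - z2)) / N - W := by
      have hN' : (N : ℚ) ≠ 0 := by exact_mod_cast hN.ne'
      rw [← hz1, ← hz2]
      field_simp
    rw [h5] at h4
    have h6 : |(a : ℝ) * ((n * (z1 - z2) : ℤ) : ℝ) / N - W| < 1 / 8 := by
      have h7 : |(a : ℚ) * (n * (z1 - z2)) / N - W| < 1 / 8 := by linarith
      have h8 : ((|(a : ℚ) * (n * (z1 - z2)) / N - W| : ℚ) : ℝ) < ((1 / 8 : ℚ) : ℝ) := by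
        exact_mod_cast h7
      push_cast at h8 ⊢
      exact h8
    have h7 : ((1 : ℝ) / 2) ^ (Fintype.card Unit + 2) = 1 / 8 := by
      rw [Fintype.card_unit]
      norm_num
    rw [h7] at h1
    linarith
  · intro hint
    have h1 : ∑ c, fsum (fun l => ((1 : ℤ) : ℚ) * e y l) c ≤ n * (n - 1) / 2 - 1 := by
      refine sum_fsum_le' _ hll ?_
      obtain ⟨w, hw⟩ := hint
      exact ⟨w, by rw [← hw]; push_cast; ring⟩
    have h2 : ∑ c, fsum (fun l => ((1 : ℤ) : ℚ) * e z l) c ≤ n * (n - 1) / 2 := sum_fsum_le _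
    have h3 : ∑ _c : Fin n, ((n : ℚ) - 1 - κ) ≤ ∑ c, (fsum (fun l => ((1 : ℤ) : ℚ) * e y l) c +
        fsum (fun l => ((1 : ℤ) : ℚ) * e z l) c) :=
      sum_le_sum fun c _ => hmain 1 isCoprime_one_left c c
    rw [sum_add_distrib, sum_const, card_univ, Fintype.card_fin, nsmul_eq_mul] at h3
    have h4 : (n : ℚ) * (n - 1 - κ) = n * (n - 1) - n * κ := by ring
    have h5 := h3.trans (add_le_add h1 h2)
    linarith

/-- The points outside of `S` with a difference of exponents which is not an integer. -/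
def restN [Fintype X] (e : X → Fin n → ℚ) (S : Finset X) : Finset X :=
  Sᶜ.filter fun y => ∃ l l', (e y l - e y l').den ≠ 1

lemma FarN.rest [Fintype X] {e : X → Fin n → ℚ} {N : ℕ} {S : Finset X} {κ : ℚ}
    (h : FarN e N Sᶜ κ) : FarN e N (restN e S) κ := by
  classical
  intro a ha c g m hm
  have hint : ∀ y l l', ∃ z : ℤ, (e y l - e y l').den = 1 → e y l - e y l' = z := by
    intro y l l'
    by_cases hy : (e y l - e y l').den = 1
    · obtain ⟨z, hz⟩ := int_of_den_one hy
      exact ⟨z, fun _ => hz⟩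
    · exact ⟨0, fun h => absurd h hy⟩
  choose z hz using hint
  set P : X → Prop := fun y => ∃ l l', (e y l - e y l').den ≠ 1 with hP
  have h1 := h a ha c (fun y l => if P y then g y l else a * z y l (c y))
    (fun y => if P y then m y else 0) (by
    intro y hy l
    by_cases hPy : P y
    · simp only [if_pos hPy]
      exact hm y (mem_filter.2 ⟨hy, hPy⟩) l
    · simp only [if_neg hPy]
      have h2 : (e y l - e y (c y)).den = 1 := by
        by_contra h3
        exact hPy ⟨l, c y, h3⟩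
      rw [hz y l (c y) h2]
      push_cast
      linarith)
  refine h1.trans (le_of_eq ?_)
  rw [restN, sum_filter]
  refine sum_congr rfl fun y _ => ?_
  by_cases hPy : P y
  · have hPy' : ∃ l l', (e y l - e y l').den ≠ 1 := hPy
    simp only [if_pos hPy, if_pos hPy']
  · have hPy' : ¬ ∃ l l', (e y l - e y l').den ≠ 1 := hPy
    simp only [if_neg hPy, if_neg hPy', mul_zero, sub_zero]
    refine sum_eq_zero fun l _ => ?_
    have h2 : (e y l - e y (c y)).den = 1 := by
      by_contra h3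
      exact hPy ⟨l, c y, h3⟩
    rw [hz y l (c y) h2]
    push_cast
    ring

/-- At most two remaining points. -/
theorem progression_of_far [Fintype X] {e : X → Fin n → ℚ} {N : ℕ} (hn : 2 ≤ n) (hN : 0 < N)
    (he : ∀ x l, ∃ z : ℤ, (N : ℚ) * e x l = z) {S : Finset X} {κ : ℚ}
    (hκ : κ < 1 / (8 * n)) (h : FarN e N Sᶜ (n - 1 - κ)) (hcard : (restN e S).card ≤ 2) :
    (restN e S).card = 2 ∧ ∀ y ∈ restN e S, Progression (e y) := by
  have hn' : (2 : ℚ) ≤ n := by exact_mod_cast hn
  have hn1 : (0 : ℚ) < n := by linarith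
  have hκ1 : κ < 1 / 2 := by
    refine hκ.trans_le ?_
    rw [div_le_div_iff₀ (by positivity) (by norm_num)]
    linarith
  have h' := h.rest
  have hcases : (restN e S).card = 0 ∨ (restN e S).card = 1 ∨ (restN e S).card = 2 := by omega
  have hl : Nonempty (Fin n) := ⟨⟨0, by omega⟩⟩
  obtain ⟨l₀⟩ := hl
  rcases hcases with h0 | h0 | h0
  · exfalso
    rw [card_eq_zero] at h0
    rw [h0] at h'
    have h1 := h'.fsum (a := 1) isCoprime_one_left (fun _ => l₀)
    rw [sum_empty] at h1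
    linarith
  · exfalso
    obtain ⟨y, hy⟩ := card_eq_one.1 h0
    rw [hy] at h'
    have h1 : ∀ c, (n : ℚ) - 1 - κ ≤ fsum (fun l => ((1 : ℤ) : ℚ) * e y l) c := by
      intro c
      have h2 := h'.fsum (a := 1) isCoprime_one_left (fun _ => c)
      rwa [sum_singleton] at h2
    have h2 : ∑ _c : Fin n, ((n : ℚ) - 1 - κ) ≤ ∑ c, fsum (fun l => ((1 : ℤ) : ℚ) * e y l) c :=
      sum_le_sum fun c _ => h1 c
    rw [sum_const, card_univ, Fintype.card_fin, nsmul_eq_mul] at h2
    have h3 := h2.trans (sum_fsum_le _)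
    have h4 : (n : ℚ) * ((n - 1) / 2 - κ) ≤ 0 := by linarith
    have h5 : 0 < (n : ℚ) * ((n - 1) / 2 - κ) := mul_pos hn1 (by linarith)
    linarith
  · refine ⟨h0, fun y hy => ?_⟩
    obtain ⟨u, v, huv, hr⟩ := card_eq_two.1 h0
    rw [hr] at h' hy
    rcases mem_insert.1 hy with rfl | hy
    · exact pair_progression hn hN he huv hκ h'
    · rw [mem_singleton] at hy
      subst hy
      rw [pair_comm] at h'
      exact pair_progression hn hN he huv.symm hκ h'

/-- The inequality for all multiples which are prime to the remaining denominators. -/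
lemma FarN.lift [Fintype X] {e : X → Fin n → ℚ} {N : ℕ} (hN : 0 < N) {S : Finset X} {κ : ℚ}
    (h : FarN e N Sᶜ κ) {a : ℤ}
    (ha : ∀ y, y ∉ S → ∀ l l', IsCoprime a ((e y l - e y l').den : ℤ)) (c : X → Fin n) :
    κ ≤ ∑ y ∈ Sᶜ, ∑ l, Int.fract ((a : ℚ) * (e y l - e y (c y))) := by
  set q : ℕ := ∏ y ∈ Sᶜ, ∏ l, ∏ l', (e y l - e y l').den with hq
  have hq0 : 0 < q :=
    prod_pos fun y _ => prod_pos fun l _ => prod_pos fun l' _ => (e y l - e y l').den_pos
  have haq : IsCoprime a (q : ℤ) := by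
    rw [hq]
    push_cast
    exact IsCoprime.prod_right fun y hy => IsCoprime.prod_right fun l _ =>
      IsCoprime.prod_right fun l' _ => ha y (mem_compl.1 hy) l l'
  obtain ⟨a', ha', r, hr⟩ := lift_unit hq0 hN haq
  have hint : ∀ y l l', ∃ z : ℤ, y ∈ Sᶜ → (q : ℚ) * (e y l - e y l') = z := by
    intro y l l'
    by_cases hy : y ∈ Sᶜ
    · have h1 : (e y l - e y l').den ∣ q :=
        ((dvd_prod_of_mem (fun l' => (e y l - e y l').den) (mem_univ l')).trans
          (dvd_prod_of_mem (fun l => ∏ l', (e y l - e y l').den) (mem_univ l))).trans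
          (dvd_prod_of_mem (fun y => ∏ l, ∏ l', (e y l - e y l').den) hy)
      obtain ⟨z, hz⟩ := int_of_den_dvd h1
      exact ⟨z, fun _ => hz⟩
    · exact ⟨0, fun h => absurd h hy⟩
  choose z hz using hint
  have h2 : (a' : ℚ) = a + q * r := by
    have : a' = a + q * r := by linarith
    exact_mod_cast this
  have h1 := h a' ha' c (fun y l => ⌊(a : ℚ) * (e y l - e y (c y))⌋ + r * z y l (c y))
    (fun _ => 0) (by
    intro y hy l
    have h3 := Int.fract_nonneg ((a : ℚ) * (e y l - e y (c y)))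
    rw [← Int.self_sub_floor] at h3
    have h4 := hz y l (c y) hy
    push_cast
    rw [h2, ← h4]
    linarith)
  refine h1.trans (le_of_eq (sum_congr rfl fun y hy => ?_))
  rw [mul_zero, sub_zero]
  refine sum_congr rfl fun l _ => ?_
  have h4 := hz y l (c y) hy
  rw [← Int.self_sub_floor]
  push_cast
  rw [h2, ← h4]
  ring

end Pool.Agent.K9h20
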