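import Pool.Agent.K9h20.Move

set_option autoImplicit false

/-!
Any rank: the inequality for line subbundles in terms of the differences of the exponents, and points
at which these differences are multiples of a number whose denominator has a prime power of its own.
-/

namespace Pool.Agent.K9h20

open Finset Pool.Agent.N858.PC

section line

variable {X : Type*} [Fintype X] {n : ℕ}

/-- The inequality for line subbundles. -/
theorem line_n [DecidableEq X] [Nonempty X] (hn : 0 < n) {e : X → Fin n → ℚ} {F : ℤ}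
    (hF : ∑ x, ∑ l, e x l = F) (a : ℤ) (h : LineSS fun x l => (a : ℝ) * e x l) (c : X → Fin n)
    (g : X → Fin n → ℤ) (m : X → ℚ)
    (hm : ∀ x l, m x ≤ (a : ℚ) * (e x l - e x (c x)) - g x l) (j : ℤ)
    (hj : (n : ℤ) ∣ j - (a * F - ∑ x, ∑ l, g x l)) (hjn : j < n) :
    (j : ℚ) ≤ ∑ x, (∑ l, ((a : ℚ) * (e x l - e x (c x)) - g x l) - n * m x) := by
  by_contra hlt
  push Not at hlt
  obtain ⟨K, hK⟩ := hj
  obtain ⟨x₀⟩ := ‹Nonempty X›
  set Φ : ℚ := ∑ x, (∑ l, ((a : ℚ) * (e x l - e x (c x)) - g x l) - n * m x) with hΦ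
  set β : X → ℚ := fun x => (a : ℚ) * e x (c x) + m x + if x = x₀ then (K : ℚ) else 0 with hβ
  have hn' : (0 : ℚ) < n := by exact_mod_cast hn
  have hsum : (n : ℚ) * ∑ x, β x = j - Φ := by
    have h0 : ∑ x, (n : ℚ) * m x = n * ∑ x, m x := (mul_sum _ _ _).symm
    rw [hβ, sum_add_distrib, sum_ite_eq' univ x₀, if_pos (mem_univ _), sum_add_distrib, hΦ,
      sum_sub_distrib, h0]
    have h1 : ∑ x, ∑ l, ((a : ℚ) * (e x l - e x (c x)) - g x l) =
        a * F - n * ∑ x, (a : ℚ) * e x (c x) - ∑ x, ∑ l, (g x l : ℚ) := by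
      rw [← hF, mul_sum, mul_sum, ← sum_sub_distrib, ← sum_sub_distrib]
      refine sum_congr rfl fun x _ => ?_
      rw [sum_sub_distrib, ← mul_sum, sum_sub_distrib, sum_const, card_univ, Fintype.card_fin,
        nsmul_eq_mul]
      ring
    have h2 : (j : ℚ) - (a * F - ∑ x, ∑ l, (g x l : ℚ)) = n * K := by exact_mod_cast hK
    rw [h1]
    linarith
  have hpos : 0 < ∑ x, β x := by
    by_contra hle
    push Not at hle
    have : (n : ℚ) * ∑ x, β x ≤ 0 := mul_nonpos_of_nonneg_of_nonpos hn'.le hle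
    linarith
  have h1 := lineSS_fract h (fun x => ((β x : ℚ) : ℝ)) (by exact_mod_cast hpos)
  have h2 : ∑ x, ∑ l, Int.fract ((a : ℝ) * e x l - ((β x : ℚ) : ℝ)) ≤ ((Φ : ℚ) : ℝ) := by
    have h3 : ((Φ : ℚ) : ℝ) =
        ∑ x, ∑ l, (((a : ℚ) * (e x l - e x (c x)) - g x l - m x : ℚ) : ℝ) := by
      rw [hΦ, Rat.cast_sum]
      refine sum_congr rfl fun x _ => ?_
      rw [← Rat.cast_sum]
      congr 1
      rw [sum_sub_distrib (f := fun l => (a : ℚ) * (e x l - e x (c x)) - g x l) (g := fun _ => m x),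
        sum_const, card_univ, Fintype.card_fin, nsmul_eq_mul]
    rw [h3]
    refine sum_le_sum fun x _ => sum_le_sum fun l _ => ?_
    obtain ⟨K', hK'⟩ : ∃ K' : ℤ, (if x = x₀ then (K : ℚ) else 0) = K' := by
      split_ifs
      · exact ⟨K, rfl⟩
      · exact ⟨0, by simp⟩
    have h4 : (a : ℝ) * e x l - ((β x : ℚ) : ℝ) =
        (((a : ℚ) * (e x l - e x (c x)) - g x l - m x : ℚ) : ℝ) + ((g x l - K' : ℤ) : ℝ) := by
      simp only [hβ]
      rw [hK']
      push_cast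
      ring
    rw [h4, Int.fract_add_intCast]
    refine fract_le_self ?_
    have := hm x l
    exact_mod_cast (by linarith : (0 : ℚ) ≤ (a : ℚ) * (e x l - e x (c x)) - g x l - m x)
  have h3 : ((n : ℚ) : ℝ) * ((∑ x, β x : ℚ) : ℝ) = ((j - Φ : ℚ) : ℝ) := by
    rw [← hsum]
    push_cast
    ring
  push_cast at h3
  have h4 : (n : ℝ) ≤ j := by linarith
  have h5 : (n : ℤ) ≤ j := by exact_mod_cast h4
  omega

end line

/-- Choice of a multiplier: `c + s h / P` is close to an integer and `a + n s M` is prime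
to `p`. -/
lemma choose_mult_n {p k : ℕ} (hp : p.Prime) (hk : 1 ≤ k) {a M h n : ℤ} (ha : ¬ (p : ℤ) ∣ a)
    (hM : ¬ (p : ℤ) ∣ M) (hh : ¬ (p : ℤ) ∣ h) (c : ℚ) :
    ∃ s j : ℤ, ¬ (p : ℤ) ∣ a + n * s * M ∧
      |c + s * h / (p : ℚ) ^ k - j| ≤ 1 / (p : ℚ) ^ k := by
  have hp0 : (0 : ℚ) < (p : ℚ) ^ k := by
    have := hp.pos
    positivity
  have hpz : Prime (p : ℤ) := Nat.prime_iff_prime_int.1 hp
  have hcop : IsCoprime h ((p : ℤ) ^ k) := by
    refine IsCoprime.pow_right ?_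
    exact ((Prime.coprime_iff_not_dvd hpz).2 hh).symm
  obtain ⟨u, v, huv⟩ := hcop
  set r : ℤ := round (-(c * (p : ℚ) ^ k)) with hr
  have hr1 : |c * (p : ℚ) ^ k + r| ≤ 1 / 2 := by
    have h1 := abs_sub_round (-(c * (p : ℚ) ^ k))
    rw [← hr] at h1
    have h2 : -(c * (p : ℚ) ^ k + r) = -(c * (p : ℚ) ^ k) - r := by ring
    rw [← abs_neg, h2]
    exact h1
  have key : ∀ r' : ℤ, |c * (p : ℚ) ^ k + r'| ≤ 1 →
      |c + ((r' * u : ℤ) : ℚ) * h / (p : ℚ) ^ k - ((-(r' * v) : ℤ) : ℚ)| ≤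
        1 / (p : ℚ) ^ k := by
    intro r' hr'
    have h1 : c + ((r' * u : ℤ) : ℚ) * h / (p : ℚ) ^ k - ((-(r' * v) : ℤ) : ℚ) =
        (1 / (p : ℚ) ^ k) * (c * (p : ℚ) ^ k + r') := by
      have h2 : (u : ℚ) * h + v * (p : ℚ) ^ k = 1 := by exact_mod_cast huv
      push_cast
      field_simp
      linear_combination (r' : ℚ) * h2
    rw [h1, abs_mul, abs_of_pos (by positivity)]
    calc 1 / (p : ℚ) ^ k * |c * (p : ℚ) ^ k + r'| ≤ 1 / (p : ℚ) ^ k * 1 :=
          mul_le_mul_of_nonneg_left hr' (by positivity)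
      _ = 1 / (p : ℚ) ^ k := mul_one _
  have hu : ¬ (p : ℤ) ∣ u := by
    intro hd
    have h1 : (p : ℤ) ∣ 1 := by
      rw [← huv]
      exact dvd_add (hd.mul_right _) ((dvd_pow_self _ (by omega)).mul_left _)
    exact hpz.not_isUnit (isUnit_of_dvd_one h1)
  by_cases h0 : (p : ℤ) ∣ a + n * (r * u) * M
  · have hp2 : ¬ (p : ℤ) ∣ n := by
      intro hd
      apply ha
      have h1 : (p : ℤ) ∣ n * (r * u) * M := (hd.mul_right _).mul_right _
      exact (dvd_add_left h1).1 h0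
    obtain ⟨ε, hε, hε1⟩ : ∃ ε : ℤ, (ε = 1 ∨ ε = -1) ∧ |c * (p : ℚ) ^ k + ((r + ε : ℤ) : ℚ)| ≤ 1 := by
      have h1 := abs_le.1 hr1
      rcases le_total 0 (c * (p : ℚ) ^ k + r) with h2 | h2
      · refine ⟨-1, Or.inr rfl, ?_⟩
        rw [abs_le]
        push_cast
        constructor <;> linarith
      · refine ⟨1, Or.inl rfl, ?_⟩
        rw [abs_le]
        push_cast
        constructor <;> linarith
    refine ⟨(r + ε) * u, -((r + ε) * v), ?_, key _ hε1⟩
    intro hd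
    have h1 : (p : ℤ) ∣ n * ε * u * M := by
      have h2 := dvd_sub hd h0
      have h3 : a + n * ((r + ε) * u) * M - (a + n * (r * u) * M) = n * ε * u * M := by ring
      rwa [h3] at h2
    rcases hpz.dvd_or_dvd h1 with h2 | h2
    · rcases hpz.dvd_or_dvd h2 with h3 | h3
      · rcases hpz.dvd_or_dvd h3 with h4 | h4
        · exact hp2 h4
        · rcases hε with rfl | rfl
          · exact hpz.not_isUnit (isUnit_of_dvd_one h4)
          · exact hpz.not_isUnit (isUnit_of_dvd_one ((dvd_neg).1 h4))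
      · exact hu h3
    · exact hM h2
  · exact ⟨r * u, -(r * v), h0, key r (hr1.trans (by norm_num))⟩

section steps

variable {X : Type*} [Fintype X] [DecidableEq X] {n : ℕ}

/-- The differences of the exponents at `x` are congruent modulo the integers to multiples
`(c l - c l') * θ` of the number `θ`, with `|c l - c l'| ≤ C`; `p` is a prime number, `p ^ k`,
`k ≥ 1`, is the exact power of `p` dividing the denominator of `θ`, and `p` does not divide the
denominators of the differences of the exponents at the other points. -/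
structure OwnStep (e : X → Fin n → ℚ) (C : ℕ) (x : X) (θ : ℚ) (c : Fin n → ℤ) (p k : ℕ) :
    Prop where
  step : ∀ l l', ∃ w : ℤ, e x l - e x l' = ((c l - c l' : ℤ) : ℚ) * θ + w
  spread : ∀ l l', |c l - c l'| ≤ C
  prime : p.Prime
  pos : 1 ≤ k
  dvd : p ^ k ∣ θ.den
  exact : ¬ p ^ (k + 1) ∣ θ.den
  other : ∀ y, y ≠ x → ∀ l l', ¬ p ∣ (e y l - e y l').den

omit [Fintype X] [DecidableEq X] in
lemma own_data_n {e : X → Fin n → ℚ} {C : ℕ} {x : X} {θ : ℚ} {c : Fin n → ℤ} {p k : ℕ}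
    (h : OwnStep e C x θ c p k) {N : ℕ} (hN : 0 < N)
    (he : ∀ x l, ∃ z : ℤ, (N : ℚ) * e x l = z) (hθ : ∃ z : ℤ, (N : ℚ) * θ = z) :
    ∃ (M : ℕ) (t : X → Fin n → Fin n → ℤ) (g : ℤ), ¬ (p : ℤ) ∣ (M : ℤ) ∧ ¬ (p : ℤ) ∣ g ∧
      (∀ a : ℤ, ¬ (p : ℤ) ∣ a → IsCoprime a (M : ℤ) → IsCoprime a (N : ℤ)) ∧
      (∀ a : ℤ, IsCoprime a (N : ℤ) → ¬ (p : ℤ) ∣ a ∧ IsCoprime a (M : ℤ)) ∧
      (∀ y, y ≠ x → ∀ l l', (M : ℚ) * (e y l - e y l') = t y l l') ∧
      (M : ℚ) * θ = g / (p : ℚ) ^ k := by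
  have hp := h.prime
  have hpz : Prime (p : ℤ) := Nat.prime_iff_prime_int.1 hp
  set M : ℕ := N / p ^ N.factorization p with hM
  have hNM : p ^ N.factorization p * M = N := Nat.ordProj_mul_ordCompl_eq_self N p
  have hcop : Nat.Coprime p M := Nat.coprime_ordCompl hp hN.ne'
  have hpM : ¬ p ∣ M := (Nat.Prime.coprime_iff_not_dvd hp).1 hcop
  have hdiv : ∀ d : ℕ, d ∣ N → ¬ p ∣ d → d ∣ M := by
    intro d hd hpd
    have h1 : Nat.Coprime d (p ^ N.factorization p) :=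
      Nat.Coprime.pow_right _ ((Nat.Prime.coprime_iff_not_dvd hp).2 hpd).symm
    rw [← hNM] at hd
    exact h1.dvd_of_dvd_mul_left hd
  have hpN : p ∣ N := (dvd_pow_self p (by have := h.pos; omega)).trans
    (h.dvd.trans (den_dvd_of hθ))
  obtain ⟨R, hR⟩ := h.dvd
  have hpR : ¬ p ∣ R := by
    rintro ⟨c, hc⟩
    exact h.exact ⟨c, by rw [hR, hc]; ring⟩
  have hRN : R ∣ N := (Dvd.intro_left (p ^ k) hR.symm).trans (den_dvd_of hθ)
  obtain ⟨c', hc⟩ := hdiv R hRN hpR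
  have ht : ∀ y l l', ∃ z : ℤ, y ≠ x → (M : ℚ) * (e y l - e y l') = z := by
    intro y l l'
    by_cases hy : y = x
    · exact ⟨0, fun h => absurd hy h⟩
    · obtain ⟨z1, h1⟩ := he y l
      obtain ⟨z2, h2⟩ := he y l'
      have h3 : ∃ z : ℤ, (N : ℚ) * (e y l - e y l') = z :=
        ⟨z1 - z2, by push_cast; rw [← h1, ← h2]; ring⟩
      obtain ⟨z, hz⟩ := int_of_den_dvd (hdiv _ (den_dvd_of h3) (h.other y hy l l'))
      exact ⟨z, fun _ => hz⟩
  choose t ht using ht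
  refine ⟨M, t, c' * θ.num, ?_, ?_, ?_, ?_, fun y hy l l' => ht y l l' hy, ?_⟩
  · exact_mod_cast hpM
  · intro hd
    rcases hpz.dvd_or_dvd hd with h1 | h1
    · have h2 : p ∣ c' := by exact_mod_cast h1
      exact hpM (by rw [hc]; exact h2.mul_left _)
    · have h2 : p ∣ θ.num.natAbs := Int.natCast_dvd.1 h1
      have h3 : p ∣ θ.den := by
        rw [hR]
        exact (dvd_pow_self p (by have := h.pos; omega)).mul_right _
      have h4 := Nat.dvd_gcd h2 h3
      rw [θ.reduced] at h4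
      exact hp.one_lt.ne' (Nat.dvd_one.1 h4)
  · intro a ha ha'
    rw [← hNM]
    push_cast
    exact IsCoprime.mul_right (IsCoprime.pow_right ((Prime.coprime_iff_not_dvd hpz).2 ha).symm) ha'
  · intro a ha
    refine ⟨fun hd => ?_, IsCoprime.of_isCoprime_of_dvd_right ha ?_⟩
    · have h1 : IsCoprime a (p : ℤ) := IsCoprime.of_isCoprime_of_dvd_right ha (by
        exact_mod_cast hpN)
      exact (Prime.coprime_iff_not_dvd hpz).1 h1.symm hd
    · exact_mod_cast Dvd.intro_left _ hNM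
  · have h1 : θ * (θ.den : ℚ) = θ.num := Rat.mul_den_eq_num _
    have hp0 : (p : ℚ) ^ k ≠ 0 := by
      have := hp.pos
      positivity
    rw [eq_div_iff hp0, hc]
    push_cast
    rw [← h1, hR]
    push_cast
    ring

/-- The condition for all conjugates, any rank. -/
def FarN (e : X → Fin n → ℚ) (N : ℕ) (T : Finset X) (κ : ℚ) : Prop :=
  ∀ a : ℤ, IsCoprime a (N : ℤ) → ∀ (c : X → Fin n) (g : X → Fin n → ℤ) (m : X → ℚ),
    (∀ x ∈ T, ∀ l, m x ≤ (a : ℚ) * (e x l - e x (c x)) - g x l) →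
    κ ≤ ∑ x ∈ T, (∑ l, ((a : ℚ) * (e x l - e x (c x)) - g x l) - n * m x)

/-- The contribution of a point which has been moved. -/
lemma cost_le {s : Fin n → ℤ} {C : ℕ} (hs : ∀ l, |s l| ≤ C) (d : ℚ) :
    (∀ l, -(C * |d|) ≤ (s l : ℚ) * d) ∧ ∑ l, (s l : ℚ) * d - n * (-(C * |d|)) ≤ 2 * n * C * |d| := by
  have h1 : ∀ l, |(s l : ℚ) * d| ≤ C * |d| := by
    intro l
    rw [abs_mul]
    refine mul_le_mul_of_nonneg_right ?_ (abs_nonneg _)
    exact_mod_cast hs l
  refine ⟨fun l => ?_, ?_⟩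
  · have := (abs_le.1 (h1 l)).1
    linarith
  · have h2 : ∑ l, (s l : ℚ) * d ≤ ∑ _l : Fin n, (C * |d| : ℚ) :=
      sum_le_sum fun l _ => (le_abs_self _).trans (h1 l)
    rw [sum_const, card_univ, Fintype.card_fin, nsmul_eq_mul] at h2
    linarith

omit [Fintype X] in
lemma move_free_n {e : X → Fin n → ℚ} {C : ℕ} {x : X} {θ : ℚ} {c₀ : Fin n → ℤ} {p k : ℕ}
    (h : OwnStep e C x θ c₀ p k) {N : ℕ} (hN : 0 < N)
    (he : ∀ x l, ∃ z : ℤ, (N : ℚ) * e x l = z) (hθ : ∃ z : ℤ, (N : ℚ) * θ = z)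
    {T : Finset X} (hx : x ∈ T) {κ : ℚ} (hfar : FarN e N T κ) :
    FarN e N (T.erase x) (κ - 2 * n * C / (p : ℚ) ^ k) := by
  obtain ⟨M, t, g₀, hpM, hpg, hcop, hcop', ht, hg⟩ := own_data_n h hN he hθ
  intro a ha c g m hm
  obtain ⟨hpa, haM⟩ := hcop' a ha
  obtain ⟨s, j, hs, hj⟩ := choose_mult_n (n := 1) h.prime h.pos hpa hpM hpg ((a : ℚ) * θ)
  rw [one_mul] at hs
  have ha' : IsCoprime (a + s * M) (N : ℤ) := hcop _ hs (by
    rw [show a + s * (M : ℤ) = a + M * s by ring]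
    exact (IsCoprime.add_mul_left_left_iff).2 haM)
  choose w hw using h.step
  have hd : ((a + s * M : ℤ) : ℚ) * θ - j = a * θ + s * g₀ / (p : ℚ) ^ k - j := by
    push_cast
    linear_combination (s : ℚ) * hg
  set d : ℚ := ((a + s * M : ℤ) : ℚ) * θ - j with hdd
  have hd1 : |d| ≤ 1 / (p : ℚ) ^ k := by rw [hd]; exact hj
  obtain ⟨hc1, hc2⟩ := cost_le (s := fun l => c₀ l - c₀ (c x)) (fun l => h.spread l (c x)) d
  have h1 := hfar _ ha' c (fun y l => if y = x then (a + s * M) * w l (c x) +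
      (c₀ l - c₀ (c x)) * j else g y l + s * t y l (c y))
    (fun y => if y = x then -(C * |d|) else m y) (by
    intro y hy l
    by_cases hyx : y = x
    · subst hyx
      simp only [if_true]
      have h2 : ((a + s * M : ℤ) : ℚ) * (e y l - e y (c y)) -
          (((a + s * M) * w l (c y) + (c₀ l - c₀ (c y)) * j : ℤ) : ℚ) =
          ((c₀ l - c₀ (c y) : ℤ) : ℚ) * d := by
        rw [hw l (c y), hdd]
        push_cast
        ring
      rw [h2]
      exact hc1 l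
    · simp only [if_neg hyx]
      have h2 : ((a + s * M : ℤ) : ℚ) * (e y l - e y (c y)) - ((g y l + s * t y l (c y) : ℤ) : ℚ) =
          (a : ℚ) * (e y l - e y (c y)) - g y l := by
        push_cast
        linear_combination (s : ℚ) * ht y hyx l (c y)
      rw [h2]
      exact hm y (mem_erase.2 ⟨hyx, hy⟩) l)
  rw [← add_sum_erase T _ hx] at h1
  simp only [if_true] at h1
  have h2 : ∑ l, (((a + s * M : ℤ) : ℚ) * (e x l - e x (c x)) -
      (((a + s * M) * w l (c x) + (c₀ l - c₀ (c x)) * j : ℤ) : ℚ)) =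
      ∑ l, ((c₀ l - c₀ (c x) : ℤ) : ℚ) * d := by
    refine sum_congr rfl fun l _ => ?_
    rw [hw l (c x), hdd]
    push_cast
    ring
  rw [h2] at h1
  have h3 : ∑ y ∈ T.erase x, (∑ l, (((a + s * M : ℤ) : ℚ) * (e y l - e y (c y)) -
      ((if y = x then (a + s * M) * w l (c x) + (c₀ l - c₀ (c x)) * j
        else g y l + s * t y l (c y) : ℤ) : ℚ)) - n * (if y = x then -(C * |d|) else m y)) =
      ∑ y ∈ T.erase x, (∑ l, ((a : ℚ) * (e y l - e y (c y)) - g y l) - n * m y) := by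
    refine sum_congr rfl fun y hy => ?_
    have hyx := (mem_erase.1 hy).1
    simp only [if_neg hyx]
    congr 1
    refine sum_congr rfl fun l _ => ?_
    push_cast
    linear_combination (s : ℚ) * ht y hyx l (c y)
  rw [h3] at h1
  have hp0 : (0 : ℚ) < (p : ℚ) ^ k := by
    have := h.prime.pos
    positivity
  have h4 : 2 * n * C * |d| ≤ 2 * n * C / (p : ℚ) ^ k := by
    have h5 : 2 * (n : ℚ) * C * |d| ≤ 2 * n * C * (1 / (p : ℚ) ^ k) :=
      mul_le_mul_of_nonneg_left hd1 (by positivity)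
    rw [mul_one_div] at h5
    exact h5
  linarith

end steps

end Pool.Agent.K9h20
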