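import Pool.Agent.K9h20.NLine

set_option autoImplicit false

/-!
Any rank: all the points with prime powers of their own can be moved.
-/

namespace Pool.Agent.K9h20

open Finset Pool.Agent.N858.PC

variable {X : Type*} [Fintype X] [DecidableEq X] {n : ℕ}

/-- The inequality of degree `n - 1` for all conjugates. -/
def FarTop (e : X → Fin n → ℚ) (F : ℤ) (N : ℕ) : Prop :=
  ∀ a : ℤ, IsCoprime a (N : ℤ) → ∀ (c : X → Fin n) (g : X → Fin n → ℤ) (m : X → ℚ),
    (∀ x l, m x ≤ (a : ℚ) * (e x l - e x (c x)) - g x l) →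
    (n : ℤ) ∣ (n - 1) - (a * F - ∑ x, ∑ l, g x l) →
    (n : ℚ) - 1 ≤ ∑ x, (∑ l, ((a : ℚ) * (e x l - e x (c x)) - g x l) - n * m x)

lemma move_top {e : X → Fin n → ℚ} {C : ℕ} {x : X} {θ : ℚ} {c₀ : Fin n → ℤ} {p k : ℕ}
    (hn : 0 < n) (h : OwnStep e C x θ c₀ p k) (hgcd : IsCoprime (∑ l, c₀ l) (n : ℤ))
    {F : ℤ} {N : ℕ} (hN : 0 < N)
    (he : ∀ x l, ∃ z : ℤ, (N : ℚ) * e x l = z) (hθ : ∃ z : ℤ, (N : ℚ) * θ = z)
    (hfar : FarTop e F N) :
    FarN e N (univ.erase x) (n - 1 - 2 * n ^ 2 * C / (p : ℚ) ^ k) := by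
  obtain ⟨M, t, g₀, hpM, hpg, hcop, hcop', ht, hg⟩ := own_data_n h hN he hθ
  intro a ha c g m hm
  obtain ⟨hpa, haM⟩ := hcop' a ha
  choose w hw using h.step
  -- the sum of the steps
  set σ : ℤ := ∑ l, (c₀ l - c₀ (c x)) with hσ
  have hσn : IsCoprime σ (n : ℤ) := by
    have h1 : σ = ∑ l, c₀ l + n * (-c₀ (c x)) := by
      rw [hσ, sum_sub_distrib, sum_const, card_univ, Fintype.card_fin, nsmul_eq_mul]
      ring
    rw [h1]
    exact (IsCoprime.add_mul_left_left_iff).2 hgcd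
  obtain ⟨u, v, huv⟩ := hσn
  set T : ℤ := a * F - ∑ y ∈ univ.erase x, ∑ l, g y l - a * ∑ l, w l (c x) + 1 with hT
  obtain ⟨s, i, hs, hi⟩ := choose_mult_n (n := (n : ℤ)) h.prime h.pos hpa hpM hpg
    (((a : ℚ) * θ - u * T) / n)
  have ha' : IsCoprime (a + n * s * M) (N : ℤ) := hcop _ hs (by
    rw [show a + n * s * (M : ℤ) = a + M * (n * s) by ring]
    exact (IsCoprime.add_mul_left_left_iff).2 haM)
  have hn' : (0 : ℚ) < n := by exact_mod_cast hn
  set W : ℤ := u * T + n * i with hW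
  set d : ℚ := ((a + n * s * M : ℤ) : ℚ) * θ - W with hdd
  have hd : d = n * (((a : ℚ) * θ - u * T) / n + s * g₀ / (p : ℚ) ^ k - i) := by
    have h1 : (s : ℚ) * g₀ / (p : ℚ) ^ k = s * (M * θ) := by
      rw [hg]
      ring
    rw [h1, hdd, hW]
    push_cast
    field_simp
    ring
  have hd1 : |d| ≤ n / (p : ℚ) ^ k := by
    have h0 : (n : ℚ) / (p : ℚ) ^ k = n * (1 / (p : ℚ) ^ k) := by ring
    rw [h0, hd, abs_mul, abs_of_pos hn']
    exact mul_le_mul_of_nonneg_left hi hn'.le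
  obtain ⟨hc1, hc2⟩ := cost_le (s := fun l => c₀ l - c₀ (c x)) (fun l => h.spread l (c x)) d
  set a' : ℤ := a + n * s * M with ha'd
  have h1 := hfar a' ha' c (fun y l => if y = x then a' * w l (c x) +
      (c₀ l - c₀ (c x)) * W else g y l + n * s * t y l (c y))
    (fun y => if y = x then -(C * |d|) else m y) (by
    intro y l
    by_cases hyx : y = x
    · subst hyx
      simp only [if_true]
      have h2 : (a' : ℚ) * (e y l - e y (c y)) -
          ((a' * w l (c y) + (c₀ l - c₀ (c y)) * W : ℤ) : ℚ) =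
          ((c₀ l - c₀ (c y) : ℤ) : ℚ) * d := by
        rw [hw l (c y), hdd]
        push_cast
        ring
      rw [h2]
      exact hc1 l
    · simp only [if_neg hyx]
      have h2 : (a' : ℚ) * (e y l - e y (c y)) - ((g y l + n * s * t y l (c y) : ℤ) : ℚ) =
          (a : ℚ) * (e y l - e y (c y)) - g y l := by
        rw [ha'd]
        push_cast
        linear_combination (n * s : ℚ) * ht y hyx l (c y)
      rw [h2]
      exact hm y (mem_erase.2 ⟨hyx, mem_univ _⟩) l) (by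
    rw [← add_sum_erase univ _ (mem_univ x)]
    simp only [if_true]
    have h2 : ∑ y ∈ univ.erase x, ∑ l, (if y = x then a' * w l (c x) +
        (c₀ l - c₀ (c x)) * W else g y l + n * s * t y l (c y)) =
        ∑ y ∈ univ.erase x, ∑ l, g y l + n * s * ∑ y ∈ univ.erase x, ∑ l, t y l (c y) := by
      rw [mul_sum, ← sum_add_distrib]
      refine sum_congr rfl fun y hy => ?_
      rw [mul_sum, ← sum_add_distrib]
      refine sum_congr rfl fun l _ => ?_
      rw [if_neg (mem_erase.1 hy).1]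
    have h3 : ∑ l, (a' * w l (c x) + (c₀ l - c₀ (c x)) * W) =
        a' * ∑ l, w l (c x) + σ * W := by
      rw [sum_add_distrib, ← mul_sum, ← sum_mul]
    rw [h2, h3]
    refine ⟨1 - (s * M * F) + s * M * ∑ l, w l (c x) - v * T + σ * i +
      s * ∑ y ∈ univ.erase x, ∑ l, t y l (c y), ?_⟩
    rw [hW, ha'd]
    have h4 : σ * (u * T) = T - v * n * T := by linear_combination T * huv
    have h5 : T = a * F - ∑ y ∈ univ.erase x, ∑ l, g y l - a * ∑ l, w l (c x) + 1 := hT
    linear_combination h4 + h5)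
  rw [← add_sum_erase univ _ (mem_univ x)] at h1
  simp only [if_true] at h1
  have h2 : ∑ l, ((a' : ℚ) * (e x l - e x (c x)) -
      ((a' * w l (c x) + (c₀ l - c₀ (c x)) * W : ℤ) : ℚ)) =
      ∑ l, ((c₀ l - c₀ (c x) : ℤ) : ℚ) * d := by
    refine sum_congr rfl fun l _ => ?_
    rw [hw l (c x), hdd]
    push_cast
    ring
  rw [h2] at h1
  have h3 : ∑ y ∈ univ.erase x, (∑ l, ((a' : ℚ) * (e y l - e y (c y)) -
      ((if y = x then a' * w l (c x) + (c₀ l - c₀ (c x)) * W
        else g y l + n * s * t y l (c y) : ℤ) : ℚ)) - n * (if y = x then -(C * |d|) else m y)) =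
      ∑ y ∈ univ.erase x, (∑ l, ((a : ℚ) * (e y l - e y (c y)) - g y l) - n * m y) := by
    refine sum_congr rfl fun y hy => ?_
    have hyx := (mem_erase.1 hy).1
    simp only [if_neg hyx]
    congr 1
    refine sum_congr rfl fun l _ => ?_
    rw [ha'd]
    push_cast
    linear_combination (n * s : ℚ) * ht y hyx l (c y)
  rw [h3] at h1
  have hp0 : (0 : ℚ) < (p : ℚ) ^ k := by
    have := h.prime.pos
    positivity
  have h4 : 2 * n * C * |d| ≤ 2 * n ^ 2 * C / (p : ℚ) ^ k := by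
    have h5 : 2 * (n : ℚ) * C * |d| ≤ 2 * n * C * (n / (p : ℚ) ^ k) :=
      mul_le_mul_of_nonneg_left hd1 (by positivity)
    refine h5.trans (le_of_eq ?_)
    ring
  linarith

/-- The data at the points of `S`. -/
def StepData (e : X → Fin n → ℚ) (C : ℕ) (S : Finset X) (θ : X → ℚ) (c : X → Fin n → ℤ)
    (p k : X → ℕ) : Prop :=
  (∀ x ∈ S, OwnStep e C x (θ x) (c x) (p x) (k x)) ∧ ∃ x ∈ S, IsCoprime (∑ l, c x l) (n : ℤ)

/-- All the points in `S` can be moved. -/
theorem move_all_n {e : X → Fin n → ℚ} {C : ℕ} {S : Finset X} {θ : X → ℚ} {c : X → Fin n → ℤ}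
    {p k : X → ℕ} (hn : 0 < n) (h : StepData e C S θ c p k) {F : ℤ} {N : ℕ} (hN : 0 < N)
    (he : ∀ x l, ∃ z : ℤ, (N : ℚ) * e x l = z) (hθ : ∀ x ∈ S, ∃ z : ℤ, (N : ℚ) * θ x = z)
    (hfar : FarTop e F N) :
    FarN e N Sᶜ (n - 1 - ∑ x ∈ S, 2 * n ^ 2 * C / (p x : ℚ) ^ k x) := by
  obtain ⟨h, x₀, hx₀, hgcd⟩ := h
  have hn1 : (1 : ℚ) ≤ n := by exact_mod_cast hn
  have key : ∀ S' : Finset X, S' ⊆ S.erase x₀ →
      FarN e N (univ.erase x₀ \ S') (n - 1 - 2 * n ^ 2 * C / (p x₀ : ℚ) ^ k x₀ -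
        ∑ x ∈ S', 2 * n ^ 2 * C / (p x : ℚ) ^ k x) := by
    intro S'
    induction S' using Finset.induction_on with
    | empty =>
      intro _
      rw [sdiff_empty, sum_empty, sub_zero]
      exact move_top hn (h x₀ hx₀) hgcd hN he (hθ x₀ hx₀) hfar
    | insert x S' hx ih =>
      intro hsub
      have h1 := ih (fun y hy => hsub (mem_insert_of_mem hy))
      have h2 := mem_erase.1 (hsub (mem_insert_self x S'))
      have h3 : x ∈ univ.erase x₀ \ S' := mem_sdiff.2 ⟨mem_erase.2 ⟨h2.1, mem_univ _⟩, hx⟩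
      have h4 := move_free_n (h x h2.2) hN he (hθ x h2.2) h3 h1
      rw [sum_insert hx]
      have h5 : univ.erase x₀ \ insert x S' = (univ.erase x₀ \ S').erase x := by
        rw [sdiff_insert]
      rw [h5]
      intro a ha c g m hm
      have h6 := h4 a ha c g m hm
      have hp0 : (0 : ℚ) < (p x : ℚ) ^ k x := by
        have := (h x h2.2).prime.pos
        positivity
      have h7 : 2 * (n : ℚ) * C / (p x : ℚ) ^ k x ≤ 2 * n ^ 2 * C / (p x : ℚ) ^ k x := by
        apply div_le_div_of_nonneg_right _ hp0.le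
        have : (0 : ℚ) ≤ C := Nat.cast_nonneg _
        nlinarith [mul_nonneg (by linarith : (0 : ℚ) ≤ n) this]
      linarith
  have h1 := key _ (Subset.refl _)
  have h2 : univ.erase x₀ \ S.erase x₀ = Sᶜ := by
    ext y
    simp only [mem_sdiff, mem_erase, mem_univ, mem_compl, and_true, not_and]
    constructor
    · rintro ⟨h3, h4⟩ hy
      exact h4 h3 hy
    · intro hy
      exact ⟨fun h => hy (h ▸ hx₀), fun _ => hy⟩
  rw [h2] at h1
  intro a ha c g m hm
  have h3 := h1 a ha c g m hm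
  rw [← add_sum_erase S _ hx₀]
  linarith

end Pool.Agent.K9h20
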