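import Pool.Agent.K9h20.Mult

set_option autoImplicit false

/-!
Multiples of the exponents by integers which need not be prime to the denominators: operators.
-/

open Polynomial

namespace Pool.Agent.K9h20

open Pool.Agent.W432.WB Pool.Agent.W432.TC Pool.Agent.W432.HK Pool.Agent.Y227.SS
open Pool.Agent.Y227.SO
open Pool.Agent.N858.PC (not_cond)

variable {m n : ℕ}

/-- The numbers `v * lam`, `v * phi` satisfy the Weyl inequalities and are the weights modulo the
integers of a semistable parabolic bundle of parabolic degree zero. -/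
def GoodMultiple (lam : Fin m → Fin n → ℚ) (phi : Fin n → ℚ) (v : ℤ) : Prop :=
  WeylBoth (fun i => (v : ℝ) * expVec lam phi i) ∧
    SemistableWeights ℂ (fun j l => (v : ℝ) * lam j l) (fun l => (v : ℝ) * phi l)

theorem op_multiples (m n : ℕ) (hm : 1 ≤ m) (hn : 1 ≤ n) :
    ∃ (ε : ℝ) (q : ℕ), 0 < ε ∧ 0 < q ∧
      ∀ (b : Fin (n + 1) → ℤ[X]) (α : Fin m → AlgebraicClosure ℚ),
        (∀ lam phi, FuchsianWith b α lam phi →
          (∃ (M : ℕ) (v : ℤ), CommonDen lam phi M ∧ IsCoprime v ((M.gcd q : ℕ) : ℤ) ∧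
            ¬ GoodMultiple lam phi v) →
          ¬ Cond b ∧ ¬ FewBad b ε ∧ ∀ N, CommonDen lam phi N → BadPrimes b N ε) ∧
        (ZerosAmong b α → FewBad b ε → ∃ lam phi, FuchsianWith b α lam phi ∧
          ∀ M, CommonDen lam phi M → ∀ v : ℤ, IsCoprime v ((M.gcd q : ℕ) : ℤ) →
            GoodMultiple lam phi v) := by
  obtain ⟨ε₁, hε₁, hgap₁⟩ := gap_all (m := m) (n := n) hm hn
  obtain ⟨ε₂, 𝒟, hε₂, -, hden⟩ := density m n hm hn
  set ε : ℝ := min ε₁ ε₂ with hεd
  have hε : 0 < ε := lt_min hε₁ hε₂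
  have hgap : GapAt m n ε := GapAt.mono (ε := ε₁) (fun b α Q x N h1 h2 => hgap₁ b α Q x N h1 h2)
    (min_le_left _ _)
  obtain ⟨q, hq, hmul⟩ := multiples m n hm hn hgap
  have key : ∀ (b : Fin (n + 1) → ℤ[X]) (α : Fin m → AlgebraicClosure ℚ) lam phi,
      FuchsianWith b α lam phi → ∀ N, CommonDen lam phi N → ¬ BadPrimes b N ε →
      ∀ M, CommonDen lam phi M → ∀ v : ℤ, IsCoprime v ((M.gcd q : ℕ) : ℤ) →
            GoodMultiple lam phi v := by
    rintro b α lam phi ⟨hb, Q, hF, hE⟩ N hN hnb M hM v hv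
    have hop : OpData b α Q (Sum.elim (fun p => lam p.1 p.2) phi : ExponentIndex m n → ℚ) N :=
      ⟨hb, hF, hE, hN.1, by
        rintro (⟨j, l⟩ | l)
        · exact hN.2.1 j l
        · exact hN.2.2 l⟩
    have h := hmul b α Q _ N M hop hnb hM.1 (by
        rintro (⟨j, l⟩ | l)
        · exact hM.2.1 j l
        · exact hM.2.2 l) v hv
    exact ⟨h.1, h.2⟩
  refine ⟨min (ε / 2) (1 / 4), q, lt_min (by positivity) (by norm_num), hq, fun b α => ⟨?_, ?_⟩⟩
  · rintro lam phi hF ⟨M, v, hM, hv, hg⟩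
    obtain ⟨N₀, hN₀⟩ := exists_commonDen lam phi
    have hall : ∀ N, CommonDen lam phi N → BadPrimes b N ε := by
      intro N hN
      by_contra hnb
      exact hg (key b α lam phi hF N hN hnb M hM v hv)
    refine ⟨not_cond hN₀.1 hε (hall N₀ hN₀), fun hfew => ?_, fun N hN => ?_⟩
    · exact (hall N₀ hN₀).dens hN₀.1 hε (hfew.mono (min_le_left _ _))
    · exact (hall N hN).mono ((min_le_left _ _).trans (by linarith))
  · intro hZ hfew
    obtain ⟨lam, phi, hF, -⟩ := (hden b α).2 hZ (hfew.mono ((min_le_left _ _).trans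
      ((by linarith : ε / 2 ≤ ε).trans (min_le_right _ _))))
    obtain ⟨N₀, hN₀⟩ := exists_commonDen lam phi
    refine ⟨lam, phi, hF, fun M hM v hv => key b α lam phi hF N₀ hN₀ (fun hbad => ?_) M hM v hv⟩
    exact hbad.dens hN₀.1 hε (hfew.mono (min_le_left _ _))

end Pool.Agent.K9h20
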