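import Pool.Agent.K9h20.Arc

set_option autoImplicit false

/-!
Exponents such that at all points but two the differences have denominators composed of large
primes: if the conjugate exponents are weights of semistable parabolic bundles, then the exponents
at the two remaining points are opposite up to these primes.
-/

namespace Pool.Agent.K9h20

open Finset Pool.Agent.N858.PC

/-- The tuples `e`, `f` are opposite modulo `1 / D` up to a translation. -/
def Opposite {n : ℕ} (D : ℕ) (e f : Fin n → ℚ) : Prop :=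
  ∃ σ : Equiv.Perm (Fin n), ∀ l l', ∃ w : ℤ,
    (D : ℚ) * ((e l + f (σ l)) - (e l' + f (σ l'))) = w

/-- The bound for the prime factors. -/
def bnd (M n : ℕ) : ℕ := (2 ^ (n ^ 4 + 5) * (n + 1) * (M + 2)) ^ (M * n ^ 2)

section

variable {X : Type*} [Fintype X] [DecidableEq X] {n : ℕ}

omit [DecidableEq X] in
lemma exists_mult (e : X → Fin n → ℚ) (y z : X) {D E N K : ℕ} (hD : 0 < D) (hE : 0 < E)
    (hN : 0 < N) (hK : 0 < K) (hDE : D.Coprime E)
    (hr : ∀ p : ℕ, p.Prime → p ∣ D → K ^ (Fintype.card X * n ^ 2) < p)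
    (h2 : ∀ x l l', ∃ w : ℤ, (D : ℚ) * E * (e x l - e x l') = w) :
    ∃ u a₀ a : ℤ, (D : ℤ) ∣ u ∧ (E : ℤ) ∣ 1 - u ∧ IsCoprime a (N : ℤ) ∧
      (∀ x l l', ∃ w : ℤ, |(a : ℝ) * (e x l - e x l') - a₀ * u * (e x l - e x l') - w| ≤ 1 / K) ∧
      ∀ l l' k k', (∃ w : ℤ, (u : ℚ) * ((e y l - e y l') + (e z k - e z k')) = w) ∨
        ∀ w : ℤ, (1 / 2 : ℝ) ^ (n ^ 4 + 2) ≤
          |(a₀ : ℝ) * u * ((e y l - e y l') + (e z k - e z k')) - w| := by
  classical
  obtain ⟨p, q, hpq⟩ := Nat.isCoprime_iff_coprime.2 hDE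
  set u : ℤ := p * D with hu
  have hu1 : 1 - u = q * E := by rw [hu]; linarith
  choose W hW using h2
  -- the unit modulo `E`
  obtain ⟨a₀, ha₀, hfar⟩ := exists_far (ι := Fin n × Fin n × Fin n × Fin n) E hE
    (fun i => p * (W y i.1 i.2.1 + W z i.2.2.1 i.2.2.2))
  -- the unit modulo `D`
  obtain ⟨t, ht, htK, hθ⟩ := dirichlet (I := X × Fin n × Fin n)
    (fun i => (((1 - u : ℤ) : ℚ) * (e i.1 i.2.1 - e i.1 i.2.2) : ℚ)) K hK
  have hco : IsCoprime (t : ℤ) (D : ℤ) := by
    rw [Nat.isCoprime_iff_coprime]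
    by_contra hnc
    obtain ⟨p, hp, h2, h3⟩ := Nat.Prime.not_coprime_iff_dvd.1 hnc
    have h4 := hr p hp h3
    have h5 := Nat.le_of_dvd ht h2
    have h6 : Fintype.card (X × Fin n × Fin n) = Fintype.card X * n ^ 2 := by
      simp only [Fintype.card_prod, Fintype.card_fin]
      ring
    rw [h6] at htK
    omega
  have hq : 0 < D * E := Nat.mul_pos hD hE
  have hcop : IsCoprime (t * (1 - u) + a₀ * u) ((D * E : ℕ) : ℤ) := by
    push_cast
    refine IsCoprime.mul_right ?_ ?_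
    · have h3 : (t : ℤ) * (1 - u) + a₀ * u = t + D * ((a₀ - t) * p) := by rw [hu]; ring
      rw [h3]
      exact (IsCoprime.add_mul_left_left_iff).2 hco
    · have h3 : (t : ℤ) * (1 - u) + a₀ * u = a₀ + E * ((t - a₀) * q) := by
        have : u = 1 - q * E := by linarith
        rw [this]
        ring
      rw [h3]
      exact (IsCoprime.add_mul_left_left_iff).2 ha₀
  obtain ⟨a, ha, s, hs⟩ := lift_unit hq hN hcop
  refine ⟨u, a₀, a, ⟨p, by rw [hu]; ring⟩, ⟨q, by rw [hu1]; ring⟩, ha, fun x l l' => ?_,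
    fun l l' k k' => ?_⟩
  · obtain ⟨w, hw⟩ := hθ (x, l, l')
    -- the difference of the numbers is an integer
    have ha' : (a : ℚ) = t * (1 - u) + a₀ * u + (D * E) * s := by
      have : a = t * (1 - u) + a₀ * u + (D * E) * s := by
        push_cast at hs
        linarith
      exact_mod_cast this
    have hWx := hW x l l'
    have key : (a : ℚ) * (e x l - e x l') - a₀ * u * (e x l - e x l') -
        t * (((1 - u : ℤ) : ℚ) * (e x l - e x l')) = ((s * W x l l' : ℤ) : ℚ) := by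
      rw [ha']
      push_cast
      rw [← hWx]
      ring
    refine ⟨w + s * W x l l', ?_⟩
    have key' : (a : ℝ) * (e x l - e x l') - a₀ * u * (e x l - e x l') -
        t * ((((1 - u : ℤ) : ℚ) * (e x l - e x l') : ℚ) : ℝ) = ((s * W x l l' : ℤ) : ℝ) := by
      have := congrArg (fun r : ℚ => (r : ℝ)) key
      push_cast at this ⊢
      exact this
    have h3 : (a : ℝ) * (e x l - e x l') - a₀ * u * (e x l - e x l') -
        ((w + s * W x l l' : ℤ) : ℝ) =
        t * ((((1 - u : ℤ) : ℚ) * (e x l - e x l') : ℚ) : ℝ) - w := by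
      push_cast at key' ⊢
      linarith
    rw [h3]
    exact hw
  · by_cases hdv : (E : ℤ) ∣ p * (W y l l' + W z k k')
    · left
      obtain ⟨w, hw⟩ := hdv
      refine ⟨w, ?_⟩
      have hE0 : (E : ℚ) ≠ 0 := by exact_mod_cast hE.ne'
      apply mul_left_cancel₀ hE0
      have hw' : (p : ℚ) * (W y l l' + W z k k') = E * w := by exact_mod_cast hw
      rw [← hw', ← hW, ← hW, hu]
      push_cast
      ring
    · right
      intro w
      have h3 := hfar (l, l', k, k') hdv w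
      have h4 : Fintype.card (Fin n × Fin n × Fin n × Fin n) = n ^ 4 := by
        simp only [Fintype.card_prod, Fintype.card_fin]
        ring
      rw [h4] at h3
      refine h3.trans (le_of_eq ?_)
      congr 2
      have hE0 : (E : ℝ) ≠ 0 := by exact_mod_cast hE.ne'
      have h5 : ((p * (W y l l' + W z k k') : ℤ) : ℝ) =
          E * (u * ((e y l - e y l') + (e z k - e z k'))) := by
        have h6 : ((p * (W y l l' + W z k k') : ℤ) : ℚ) =
            E * (u * ((e y l - e y l') + (e z k - e z k'))) := by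
          push_cast
          rw [← hW, ← hW, hu]
          push_cast
          ring
        have := congrArg (fun r : ℚ => (r : ℝ)) h6
        push_cast at this ⊢
        exact this
      rw [h5]
      field_simp

theorem opposite (hn : 0 < n) (e : X → Fin n → ℚ) {y z : X} (hyz : y ≠ z) {D E N : ℕ}
    (hD : 0 < D) (hE : 0 < E) (hN : 0 < N) (hDE : D.Coprime E)
    (hr : ∀ p : ℕ, p.Prime → p ∣ D → bnd (Fintype.card X) n < p)
    (h1 : ∀ x, x ≠ y → x ≠ z → ∀ l l', ∃ w : ℤ, (D : ℚ) * (e x l - e x l') = w)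
    (h2 : ∀ x l l', ∃ w : ℤ, (D : ℚ) * E * (e x l - e x l') = w)
    (hss : ∀ a : ℤ, IsCoprime a (N : ℤ) → LineSS fun x l => (a : ℝ) * e x l) :
    Opposite D (e y) (e z) := by
  classical
  set K : ℕ := 2 ^ (n ^ 4 + 5) * (n + 1) * (Fintype.card X + 2) with hKdef
  have hK : 0 < K := by positivity
  obtain ⟨u, a₀, a, ⟨p, hp⟩, ⟨q, hq⟩, ha, hnear, hfar⟩ :=
    exists_mult e y z hD hE hN hK hDE hr h2
  set M : ℝ := (Fintype.card X : ℝ) with hM
  set η : ℝ := 1 / K with hη
  have hK' : (0 : ℝ) < K := by exact_mod_cast hK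
  have hη0 : 0 < η := by positivity
  have hM2 : 2 ≤ M := by
    have h3 := card_split hyz
    have h4 : (0 : ℝ) ≤ (((univ.erase y).erase z).card : ℝ) := Nat.cast_nonneg _
    linarith
  have hKval : (K : ℝ) = 2 ^ (n ^ 4 + 5) * (n + 1) * (M + 2) := by
    rw [hKdef, hM]
    push_cast
    ring
  have hpow : (1 : ℝ) ≤ 2 ^ (n ^ 4) := one_le_pow₀ (by norm_num)
  have hηK : η * K = 1 := by rw [hη]; field_simp
  have hKge : 32 * (n + 1) * (M + 2) ≤ (K : ℝ) := by
    rw [hKval, pow_add]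
    have : (0 : ℝ) ≤ (n + 1) * (M + 2) := by positivity
    nlinarith
  have hn0 : (0 : ℝ) ≤ n := Nat.cast_nonneg n
  -- the constants
  have hsmall : 2 * n * η * (M - 2) < 1 := by
    have h3 : 2 * n * (M - 2) < (K : ℝ) := by nlinarith
    have h4 : 2 * n * (M - 2) * η < K * η := mul_lt_mul_of_pos_right h3 hη0
    nlinarith
  have hsmall2 : 2 * η + 2 * η * M ≤ 1 := by
    have h3 : 2 + 2 * M ≤ (K : ℝ) := by nlinarith
    have h4 : (2 + 2 * M) * η ≤ K * η := mul_le_mul_of_nonneg_right h3 hη0.le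
    nlinarith
  have hsmall3 : 2 * η * M + 2 * η < (1 / 2 : ℝ) ^ (n ^ 4 + 2) := by
    rw [one_div, inv_pow, lt_inv_comm₀ (by positivity) (by positivity), ← one_div,
      lt_div_iff₀ (by positivity)]
    have h3 : (2 : ℝ) ^ (n ^ 4 + 2) * (2 * M + 2) < K := by
      rw [hKval, show n ^ 4 + 5 = (n ^ 4 + 2) + 3 by ring, pow_add _ (n ^ 4 + 2) 3]
      have h4 : (0 : ℝ) < 2 ^ (n ^ 4 + 2) := by positivity
      have h5 : 2 * M + 2 < 2 ^ 3 * ((n + 1) * (M + 2)) := by nlinarith
      nlinarith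
    have h4 : (2 : ℝ) ^ (n ^ 4 + 2) * (2 * M + 2) * η < K * η := mul_lt_mul_of_pos_right h3 hη0
    nlinarith
  -- the count
  have ha' : IsCoprime (-a) (N : ℤ) := ha.neg_left
  have hss1 := hss a ha
  have hss2 : LineSS fun x l => -((a : ℝ) * e x l) := by
    have h3 := hss (-a) ha'
    have h4 : (fun x l => (((-a : ℤ)) : ℝ) * (e x l : ℝ)) =
        fun (x : X) (l : Fin n) => -((a : ℝ) * e x l) := by
      funext x l
      push_cast
      ring
    rw [h4] at h3
    exact h3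
  obtain ⟨s, hs⟩ := arc_count hss1 hss2 hyz hη0 (fun x => (a : ℝ) * e x ⟨0, hn⟩) (by
    intro x hxy hxz l
    obtain ⟨w, hw⟩ := hnear x l ⟨0, hn⟩
    obtain ⟨v, hv⟩ := h1 x hxy hxz l ⟨0, hn⟩
    refine ⟨w + a₀ * p * v, ?_⟩
    have h3 : (a₀ : ℝ) * u * (e x l - e x ⟨0, hn⟩) = ((a₀ * p * v : ℤ) : ℝ) := by
      have h4 : (a₀ : ℚ) * u * (e x l - e x ⟨0, hn⟩) = ((a₀ * p * v : ℤ) : ℚ) := by
        rw [hp]
        push_cast
        rw [← hv]
        ring
      have := congrArg (fun r : ℚ => (r : ℝ)) h4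
      push_cast at this ⊢
      exact this
    rw [h3] at hw
    have h5 : (a : ℝ) * e x l - a * e x ⟨0, hn⟩ - ((w + a₀ * p * v : ℤ) : ℝ) =
        (a : ℝ) * (e x l - e x ⟨0, hn⟩) - ((a₀ * p * v : ℤ) : ℝ) - w := by
      push_cast
      ring
    rw [h5]
    exact hw) hsmall
  set d' : ℝ := 2 * η + 2 * η * (M - 1) with hd'
  -- the sets
  let W : Fin n → Finset (Fin n) := fun l => univ.filter fun k =>
    1 - d' < Int.fract ((a : ℝ) * e z k + ((a : ℝ) * e y l - η) - s)
  have hW : ∀ l, (univ.filter fun l' => ∃ w : ℤ, (u : ℚ) * (e y l' - e y l) = w).card ≤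
      (W l).card := by
    intro l
    refine (card_le_card ?_).trans (hs ((a : ℝ) * e y l - η) (2 * η) (by positivity) hsmall2)
    intro l' hl'
    rw [mem_filter] at hl' ⊢
    refine ⟨mem_univ _, ?_⟩
    obtain ⟨v, hv⟩ := hl'.2
    obtain ⟨w, hw⟩ := hnear y l' l
    refine fract_near (w := w + a₀ * v) ?_
    have h3 : (a₀ : ℝ) * u * (e y l' - e y l) = ((a₀ * v : ℤ) : ℝ) := by
      have h4 : (a₀ : ℚ) * u * (e y l' - e y l) = ((a₀ * v : ℤ) : ℚ) := by
        push_cast
        rw [← hv]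
        ring
      have := congrArg (fun r : ℚ => (r : ℝ)) h4
      push_cast at this ⊢
      exact this
    rw [h3] at hw
    have h5 : (a : ℝ) * e y l' - a * e y l - ((w + a₀ * v : ℤ) : ℝ) =
        (a : ℝ) * (e y l' - e y l) - ((a₀ * v : ℤ) : ℝ) - w := by
      push_cast
      ring
    rw [h5]
    exact hw
  have hpair : ∀ l l' k k', k ∈ W l → k' ∈ W l' →
      ∃ w : ℤ, (u : ℚ) * ((e y l - e y l') + (e z k - e z k')) = w := by
    intro l l' k k' hk hk'
    rcases hfar l l' k k' with h | h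
    · exact h
    exfalso
    rw [mem_filter] at hk hk'
    have k1 := hk.2
    have k2 := hk'.2
    have k3 := Int.fract_lt_one ((a : ℝ) * e z k + ((a : ℝ) * e y l - η) - s)
    have k4 := Int.fract_lt_one ((a : ℝ) * e z k' + ((a : ℝ) * e y l' - η) - s)
    obtain ⟨w1, hw1⟩ := hnear y l l'
    obtain ⟨w2, hw2⟩ := hnear z k k'
    set j1 : ℤ := ⌊(a : ℝ) * e z k + ((a : ℝ) * e y l - η) - s⌋ with hj1
    set j2 : ℤ := ⌊(a : ℝ) * e z k' + ((a : ℝ) * e y l' - η) - s⌋ with hj2
    have k5 := Int.self_sub_floor ((a : ℝ) * e z k + ((a : ℝ) * e y l - η) - s)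
    have k6 := Int.self_sub_floor ((a : ℝ) * e z k' + ((a : ℝ) * e y l' - η) - s)
    have k7 := h (j1 - j2 - w1 - w2)
    have k8 := abs_le.1 hw1
    have k9 := abs_le.1 hw2
    have k10 : |(a₀ : ℝ) * u * ((e y l - e y l') + (e z k - e z k')) -
        ((j1 - j2 - w1 - w2 : ℤ) : ℝ)| ≤ 2 * η * M + 2 * η := by
      rw [abs_le]
      push_cast
      rw [← hj1] at k5
      rw [← hj2] at k6
      constructor
      · nlinarith
      · nlinarith
    linarith
  -- the matching
  let l1 : Fin n := ⟨0, hn⟩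
  obtain ⟨k1, hk1⟩ : (W l1).Nonempty := by
    rw [← card_pos]
    refine lt_of_lt_of_le ?_ (hW l1)
    rw [card_pos]
    exact ⟨l1, by rw [mem_filter]; exact ⟨mem_univ _, 0, by simp⟩⟩
  obtain ⟨σ, hσ⟩ := exists_match (fun l => Int.fract ((u : ℚ) * e y l))
    (fun k => Int.fract ((u : ℚ) * (e y l1 + e z k1 - e z k))) (by
    intro l
    have h3 : (univ.filter fun l' => Int.fract ((u : ℚ) * e y l') = Int.fract ((u : ℚ) * e y l)) =
        univ.filter fun l' => ∃ w : ℤ, (u : ℚ) * (e y l' - e y l) = w := by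
      refine filter_congr fun l' _ => ?_
      rw [Int.fract_eq_fract]
      simp only [mul_sub]
    rw [h3]
    refine (hW l).trans (card_le_card fun k hk => ?_)
    rw [mem_filter]
    refine ⟨mem_univ _, ?_⟩
    obtain ⟨w, hw⟩ := hpair l l1 k k1 hk hk1
    rw [Int.fract_eq_fract]
    refine ⟨-w, ?_⟩
    push_cast
    rw [← hw]
    ring)
  refine ⟨σ, fun l l' => ?_⟩
  have h3 := hσ l
  have h4 := hσ l'
  simp only [Int.fract_eq_fract] at h3 h4
  obtain ⟨w1, hw1⟩ := h3
  obtain ⟨w2, hw2⟩ := h4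
  obtain ⟨w3, hw3⟩ := h2 y l l'
  obtain ⟨w4, hw4⟩ := h2 z (σ l) (σ l')
  refine ⟨q * (w3 + w4) + D * (w2 - w1), ?_⟩
  have hq' : (1 : ℚ) - u = E * q := by exact_mod_cast hq
  have h5 : (D : ℚ) * ((e y l + e z (σ l)) - (e y l' + e z (σ l'))) =
      D * (1 - u) * ((e y l - e y l') + (e z (σ l) - e z (σ l'))) +
      D * (u * ((e y l - e y l') + (e z (σ l) - e z (σ l')))) := by ring
  rw [h5, hq']
  push_cast
  rw [← hw1, ← hw2, ← hw3, ← hw4]
  ring

end

end Pool.Agent.K9h20
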