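import Pool.Agent.N858.PC.FinalOp
import Pool.Agent.K9h20.Opp

set_option autoImplicit false

/-!
Operators for which all but two of the tuples of exponents have rough differences.
-/

open Finset Polynomial

namespace Pool.Agent.K9h20

open Pool.Agent.W432.WB Pool.Agent.W432.HK Pool.Agent.Y227.SS Pool.Agent.Y227.SO
open Pool.Agent.N858.PC (allExp LineSS lineSS_of fuchs_int not_cond)

/-- At the points other than `y`, `z` the differences of the exponents are in `(1 / D) ℤ` and all
prime factors of `D` are greater than `bnd`; at all points the differences of the exponents are in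
`(1 / (D * E)) ℤ`, and `D`, `E` are coprime. -/
def RoughAway {X : Type*} [Fintype X] {n : ℕ} (y z : X) (D E : ℕ) (e : X → Fin n → ℚ) : Prop :=
  0 < D ∧ 0 < E ∧ D.Coprime E ∧ (∀ p : ℕ, p.Prime → p ∣ D → bnd (Fintype.card X) n < p) ∧
    (∀ x, x ≠ y → x ≠ z → ∀ l l', ∃ w : ℤ, (D : ℚ) * (e x l - e x l') = w) ∧
    ∀ x l l', ∃ w : ℤ, (D : ℚ) * E * (e x l - e x l') = w

variable {m n : ℕ}

lemma lineSS_conj {lam : Fin m → Fin n → ℚ} {phi : Fin n → ℚ} {F : ℤ}
    (hF : ∑ j, ∑ l, lam j l = ∑ l, phi l + F) (a : ℤ)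
    (h : SemistableWeights ℂ (fun j l => (a : ℝ) * lam j l) (fun l => (a : ℝ) * phi l)) :
    LineSS fun x l => (a : ℝ) * (allExp lam phi x l : ℚ) := by
  have h1 := lineSS_of h (a * F) (by
    have h2 : ((∑ j, ∑ l, lam j l : ℚ) : ℝ) = ((∑ l, phi l + F : ℚ) : ℝ) := by rw [hF]
    push_cast at h2
    push_cast
    simp only [← mul_sum]
    linear_combination (a : ℝ) * h2)
  have h2 : allExp (fun j l => (a : ℝ) * lam j l) (fun l => (a : ℝ) * phi l) =
      fun x l => (a : ℝ) * ((allExp lam phi x l : ℚ) : ℝ) := by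
    funext x l
    rcases x with _ | j
    · simp only [allExp]
      push_cast
      ring
    · simp only [allExp]
  rw [h2] at h1
  exact h1

theorem op_opposite (m n : ℕ) (hm : 1 ≤ m) (hn : 1 ≤ n) :
    ∃ ε : ℝ, 0 < ε ∧ ∀ (b : Fin (n + 1) → ℤ[X]) (α : Fin m → AlgebraicClosure ℚ),
      (∀ lam phi, FuchsianWith b α lam phi → ∀ (y z : Option (Fin m)) (D E : ℕ), y ≠ z →
        RoughAway y z D E (allExp lam phi) →
        ¬ Opposite D (allExp lam phi y) (allExp lam phi z) →
        ¬ Cond b ∧ ¬ FewBad b ε ∧ ∀ N, CommonDen lam phi N → BadPrimes b N ε) ∧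
      (ZerosAmong b α → FewBad b ε → ∃ lam phi, FuchsianWith b α lam phi ∧
        ∀ (y z : Option (Fin m)) (D E : ℕ), y ≠ z → RoughAway y z D E (allExp lam phi) →
          Opposite D (allExp lam phi y) (allExp lam phi z)) := by
  obtain ⟨ε, 𝒟, hε, -, hden⟩ := density m n hm hn
  have key : ∀ (b : Fin (n + 1) → ℤ[X]) (α : Fin m → AlgebraicClosure ℚ) lam phi,
      FuchsianWith b α lam phi → ∀ N, CommonDen lam phi N → ConjGood b lam phi N →
      ∀ (y z : Option (Fin m)) (D E : ℕ), y ≠ z → RoughAway y z D E (allExp lam phi) →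
          Opposite D (allExp lam phi y) (allExp lam phi z) := by
    rintro b α lam phi hF N hN hG y z D E hyz ⟨hD, hE, hDE, hr, h1, h2⟩
    obtain ⟨F, hFu⟩ := fuchs_int hm hn hF
    exact opposite (by omega) _ hyz hD hE hN.1 hDE hr h1 h2 fun a ha =>
      lineSS_conj hFu a (hG a ha).2.1
  refine ⟨min (ε / 2) ε, lt_min (by positivity) hε, fun b α => ⟨?_, fun hZ hfew => ?_⟩⟩
  · intro lam phi hF y z D E hyz hR hO
    obtain ⟨N₀, hN₀⟩ := exists_commonDen lam phi
    have hall : ∀ N, CommonDen lam phi N → BadPrimes b N ε := by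
      intro N hN
      rcases (hden b α).1 lam phi N hF hN with h | ⟨h, -⟩
      · exact h
      · exact absurd (key b α lam phi hF N hN h y z D E hyz hR) hO
    refine ⟨not_cond hN₀.1 hε (hall N₀ hN₀), fun hfew => ?_, fun N hN => ?_⟩
    · exact (hall N₀ hN₀).dens hN₀.1 hε (hfew.mono (min_le_left _ _))
    · exact (hall N hN).mono (min_le_right _ _)
  · obtain ⟨lam, phi, hF, ⟨N, hN⟩, hG, -⟩ := (hden b α).2 hZ (hfew.mono (min_le_right _ _))
    exact ⟨lam, phi, hF, key b α lam phi hF N hN (hG N hN)⟩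

end Pool.Agent.K9h20
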