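import Pool.Agent.K9h20.PairMain
import Pool.Agent.K9h20.OpOpp

set_option autoImplicit false

/-!
Operators of order two for which some of the differences of exponents have denominators divisible
by prime numbers of their own.
-/

open Finset Polynomial

namespace Pool.Agent.K9h20

open Pool.Agent.W432.WB Pool.Agent.W432.HK Pool.Agent.Y227.SS Pool.Agent.Y227.SO
open Pool.Agent.N858.PC (allExp LineSS lineSS_of fuchs_int not_cond)

section abs

variable {X : Type*} [Fintype X] [DecidableEq X]

/-- The points outside of `S` at which the difference of the exponents is not an integer. -/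
def rest (θ : X → ℚ) (S : Finset X) : Finset X := Sᶜ.filter fun y => (θ y).den ≠ 1

/-- There are two or three points in `Y` and the numbers `θ y` are on the lists. -/
def Exceptional (θ : X → ℚ) (Y : Finset X) : Prop :=
  (∃ y z, y ≠ z ∧ Y = {y, z} ∧ Sim (θ y) (1 / 2) ∧ Sim (θ z) (1 / 2)) ∨
    ∃ x y z, x ≠ y ∧ y ≠ z ∧ x ≠ z ∧ Y = {x, y, z} ∧ TripleList (θ x) (θ y) (θ z)

/-- `S` is a nonempty set of points `x` such that the denominator of `θ x` has a prime factor `p x` of
its own, with exact power `p x ^ k x`; the sum of the `2 / p x ^ k x` is at most `1 / 46`; and at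
most three points outside of `S` have a difference of exponents which is not an integer. -/
def OwnPowers (θ : X → ℚ) (S : Finset X) (p k : X → ℕ) : Prop :=
  S.Nonempty ∧ (∀ x ∈ S, Own θ x (p x) (k x)) ∧ ∑ x ∈ S, 2 / (p x : ℚ) ^ k x ≤ 1 / 46 ∧
    (rest θ S).card ≤ 3

lemma Far.lift {θ : X → ℚ} {N : ℕ} (hN : 0 < N) {S : Finset X} {c : ℚ} (h : Far θ N Sᶜ c)
    {a : ℤ} (ha : ∀ y, y ∉ S → IsCoprime a ((θ y).den : ℤ)) (w : X → ℤ) :
    c ≤ ∑ y ∈ Sᶜ, |(a : ℚ) * θ y - w y| := by
  set q : ℕ := ∏ y ∈ Sᶜ, (θ y).den with hq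
  have hq0 : 0 < q := prod_pos fun y _ => (θ y).den_pos
  have haq : IsCoprime a (q : ℤ) := by
    rw [hq]
    push_cast
    exact IsCoprime.prod_right fun y hy => ha y (mem_compl.1 hy)
  obtain ⟨a', ha', r, hr⟩ := lift_unit hq0 hN haq
  have hint : ∀ y, ∃ z : ℤ, y ∈ Sᶜ → (q : ℚ) * θ y = z := by
    intro y
    by_cases hy : y ∈ Sᶜ
    · obtain ⟨z, hz⟩ := int_of_den_dvd (N := q) (dvd_prod_of_mem (fun y => (θ y).den) hy)
      exact ⟨z, fun _ => hz⟩
    · exact ⟨0, fun h => absurd h hy⟩
  choose z hz using hint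
  have h1 := h a' ha' (fun y => w y + r * z y)
  refine h1.trans (le_of_eq (sum_congr rfl fun y hy => ?_))
  congr 1
  have h2 : (a' : ℚ) = a + q * r := by
    have : a' = a + q * r := by linarith
    exact_mod_cast this
  push_cast
  rw [h2, ← hz y hy]
  ring

lemma Far.rest {θ : X → ℚ} {N : ℕ} {S : Finset X} {c : ℚ} (h : Far θ N Sᶜ c) :
    Far θ N (rest θ S) c := by
  intro a ha w
  have hint : ∀ y, ∃ z : ℤ, (θ y).den = 1 → θ y = z := by
    intro y
    by_cases hy : (θ y).den = 1
    · obtain ⟨z, hz⟩ := int_of_den_one hy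
      exact ⟨z, fun _ => hz⟩
    · exact ⟨0, fun h => absurd h hy⟩
  choose z hz using hint
  refine (h a ha (fun y => if (θ y).den = 1 then a * z y else w y)).trans (le_of_eq ?_)
  rw [K9h20.rest, sum_filter]
  refine sum_congr rfl fun y _ => ?_
  by_cases hy : (θ y).den = 1
  · rw [if_pos hy, if_neg (not_not.2 hy)]
    have h1 := hz y hy
    push_cast
    rw [← h1, sub_self, abs_zero]
  · rw [if_neg hy, if_pos hy]

lemma not_sim_zero {r : ℚ} (h0 : 0 < r) (h1 : r < 1) : ¬ Sim 0 r := by
  rintro (⟨w, hw⟩ | ⟨w, hw⟩)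
  · have h2 : (-1 : ℚ) < w := by linarith
    have h3 : (w : ℚ) < 0 := by linarith
    have h4 : -1 < w := by exact_mod_cast h2
    have h5 : w < 0 := by exact_mod_cast h3
    omega
  · have h2 : (0 : ℚ) < w := by linarith
    have h3 : (w : ℚ) < 1 := by linarith
    have h4 : 0 < w := by exact_mod_cast h2
    have h5 : w < 1 := by exact_mod_cast h3
    omega

lemma pairList_zero {y : ℚ} (h : PairList y 0) : Sim y (1 / 2) := by
  have n2 := not_sim_zero (r := 1 / 2) (by norm_num) (by norm_num)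
  have n3 := not_sim_zero (r := 1 / 3) (by norm_num) (by norm_num)
  have n4 := not_sim_zero (r := 1 / 4) (by norm_num) (by norm_num)
  have n5 := not_sim_zero (r := 1 / 5) (by norm_num) (by norm_num)
  have n6 := not_sim_zero (r := 2 / 5) (by norm_num) (by norm_num)
  unfold PairList at h
  rcases h with h | h | h | h | h | h | h | h | h | h | h | h
  · exact h
  · exact absurd h n2
  · have := sim_half_sub h
    rwa [sub_zero] at this
  · exact absurd h.2 n3
  · exact absurd h.2 n4
  · exact absurd h.2 n3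
  · exact absurd h.2 n5
  · exact absurd h.2 n3
  · exact absurd h.2 n6
  · exact absurd h.2 n3
  · exact absurd h.2 n6
  · exact absurd h.2 n5

omit [Fintype X] in
/-- At most three points. -/
theorem exceptional_of_far {θ : X → ℚ} {N : ℕ} (hN : 0 < N)
    (hθ : ∀ x, ∃ z : ℤ, (N : ℚ) * θ x = z) {Y : Finset X} {c : ℚ} (hc : 45 / 46 ≤ c)
    (h : Far θ N Y c) (hY : Y.card ≤ 3) : Exceptional θ Y := by
  have hden : ∀ x, (θ x).den ∣ N := fun x => den_dvd_of (hθ x)
  have hcard : Y.card = 0 ∨ Y.card = 1 ∨ Y.card = 2 ∨ Y.card = 3 := by omega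
  rcases hcard with h0 | h0 | h0 | h0
  · exfalso
    rw [card_eq_zero] at h0
    subst h0
    have := h 1 isCoprime_one_left (fun _ => 0)
    rw [sum_empty] at this
    linarith
  · exfalso
    obtain ⟨y, rfl⟩ := card_eq_one.1 h0
    have := h 1 isCoprime_one_left (fun _ => round (((1 : ℤ) : ℚ) * θ y))
    rw [sum_singleton] at this
    have h2 := this.trans (abs_sub_round (((1 : ℤ) : ℚ) * θ y))
    norm_num at h2 hc
    linarith
  · obtain ⟨y, z, hyz, rfl⟩ := card_eq_two.1 h0
    left
    refine ⟨y, z, hyz, rfl, ?_⟩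
    have hf : FarTriple N (θ y) (θ z) 0 := by
      intro a ha u v w
      have h1 := h a ha (fun x => if x = y then u else v)
      rw [sum_pair hyz, if_pos rfl, if_neg hyz.symm] at h1
      have h2 := abs_nonneg ((a : ℚ) * 0 - w)
      linarith
    have n2 := not_sim_zero (r := 1 / 2) (by norm_num) (by norm_num)
    have n3 := not_sim_zero (r := 1 / 3) (by norm_num) (by norm_num)
    rcases triple_class hN (hden y) (hden z) (by simp) hf with h1 | h1 | h1
    · rcases h1 with h1 | h1
      · exact ⟨h1.1, pairList_zero h1.2⟩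
      · exact absurd h1.2.2 n3
    · rcases h1 with h1 | h1
      · exact ⟨pairList_zero h1.2.symm, h1.1⟩
      · exact absurd h1.2.1 n3
    · rcases h1 with h1 | h1
      · exact absurd h1.1 n2
      · exact absurd h1.1 n3
  · obtain ⟨x, y, z, hxy, hxz, hyz, rfl⟩ := card_eq_three.1 h0
    right
    have hf : FarTriple N (θ x) (θ y) (θ z) := by
      intro a ha u v w
      have h1 := h a ha (fun t => if t = x then u else if t = y then v else w)
      rw [sum_insert (by simp [hxy, hxz]), sum_pair hyz, if_pos rfl, if_neg hxy.symm, if_pos rfl,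
        if_neg hxz.symm, if_neg hyz.symm] at h1
      linarith
    rcases triple_class hN (hden x) (hden y) (hden z) hf with h1 | h1 | h1
    · exact ⟨x, y, z, hxy, hyz, hxz, rfl, h1⟩
    · refine ⟨y, z, x, hyz, hxz.symm, hxy.symm, ?_, h1⟩
      ext t
      simp only [mem_insert, mem_singleton]
      tauto
    · refine ⟨z, x, y, hxz.symm, hxy, hyz.symm, ?_, h1⟩
      ext t
      simp only [mem_insert, mem_singleton]
      tauto

theorem exceptional_of {θ : X → ℚ} {F : ℤ} {N : ℕ} (hN : 0 < N)
    (hθ : ∀ x, ∃ z : ℤ, (N : ℚ) * θ x = z) (h : FarOdd θ F N) {S : Finset X} {p k : X → ℕ}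
    (hS : OwnPowers θ S p k) : Exceptional θ (rest θ S) := by
  obtain ⟨h1, h2, h3, h4⟩ := hS
  have h5 := move_all h1 h2 hN hθ h
  refine exceptional_of_far hN hθ (c := 1 - ∑ x ∈ S, 2 / (p x : ℚ) ^ k x) ?_ h5.rest h4
  linarith

end abs

theorem op_own (m : ℕ) (hm : 1 ≤ m) :
    ∃ ε : ℝ, 0 < ε ∧ ∀ (b : Fin 3 → ℤ[X]) (α : Fin m → AlgebraicClosure ℚ),
      (∀ lam phi, FuchsianWith b α lam phi → ∀ (S : Finset (Option (Fin m)))
        (p k : Option (Fin m) → ℕ), OwnPowers (dif (allExp lam phi)) S p k →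
        ¬ Exceptional (dif (allExp lam phi)) (rest (dif (allExp lam phi)) S) →
        ¬ Cond b ∧ ¬ FewBad b ε ∧ ∀ N, CommonDen lam phi N → BadPrimes b N ε) ∧
      (ZerosAmong b α → FewBad b ε → ∃ lam phi, FuchsianWith b α lam phi ∧
        ∀ (S : Finset (Option (Fin m))) (p k : Option (Fin m) → ℕ),
          OwnPowers (dif (allExp lam phi)) S p k →
          Exceptional (dif (allExp lam phi)) (rest (dif (allExp lam phi)) S)) := by
  obtain ⟨ε, 𝒟, hε, -, hden⟩ := density m 2 hm (by norm_num)
  have key : ∀ (b : Fin 3 → ℤ[X]) (α : Fin m → AlgebraicClosure ℚ) lam phi,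
      FuchsianWith b α lam phi → ∀ N, CommonDen lam phi N → ConjGood b lam phi N →
      ∀ (S : Finset (Option (Fin m))) (p k : Option (Fin m) → ℕ),
          OwnPowers (dif (allExp lam phi)) S p k →
          Exceptional (dif (allExp lam phi)) (rest (dif (allExp lam phi)) S) := by
    intro b α lam phi hF N hN hG S p k hS
    obtain ⟨F, hFu⟩ := fuchs_int hm (by norm_num) hF
    have hsum : ∑ x, ∑ l, allExp lam phi x l = F := by
      rw [Fintype.sum_option]
      simp only [allExp, sum_neg_distrib, hFu]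
      ring
    refine exceptional_of (F := F) hN.1 (fun x => ?_) (fun a ha w hw => ?_) hS
    · have hint : ∀ l, ∃ z : ℤ, (N : ℚ) * allExp lam phi x l = z := by
        intro l
        rcases x with _ | j
        · obtain ⟨z, hz⟩ := hN.2.2 l
          exact ⟨-z, by push_cast; rw [← hz]; simp only [allExp]; ring⟩
        · exact hN.2.1 j l
      obtain ⟨z0, h0⟩ := hint 0
      obtain ⟨z1, h1⟩ := hint 1
      exact ⟨z1 - z0, by push_cast; rw [← h0, ← h1, dif]; ring⟩
    · exact dist_ge hsum a (lineSS_conj hFu a (hG a ha).2.1) w hw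
  refine ⟨min (ε / 2) ε, lt_min (by positivity) hε, fun b α => ⟨?_, fun hZ hfew => ?_⟩⟩
  · intro lam phi hF S p k hS hO
    obtain ⟨N₀, hN₀⟩ := exists_commonDen lam phi
    have hall : ∀ N, CommonDen lam phi N → BadPrimes b N ε := by
      intro N hN
      rcases (hden b α).1 lam phi N hF hN with h | ⟨h, -⟩
      · exact h
      · exact absurd (key b α lam phi hF N hN h S p k hS) hO
    refine ⟨not_cond hN₀.1 hε (hall N₀ hN₀), fun hfew => ?_, fun N hN => ?_⟩
    · exact (hall N₀ hN₀).dens hN₀.1 hε (hfew.mono (min_le_left _ _))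
    · exact (hall N hN).mono (min_le_right _ _)
  · obtain ⟨lam, phi, hF, ⟨N, hN⟩, hG, -⟩ := (hden b α).2 hZ (hfew.mono (min_le_right _ _))
    exact ⟨lam, phi, hF, key b α lam phi hF N hN (hG N hN)⟩

end Pool.Agent.K9h20
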