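import Pool.Agent.K9h20.NClass
import Pool.Agent.K9h20.OpOpp

set_option autoImplicit false

/-!
Operators of any order: points with prime powers of their own.
-/

open Finset Polynomial

namespace Pool.Agent.K9h20

open Pool.Agent.W432.WB Pool.Agent.W432.HK Pool.Agent.Y227.SS Pool.Agent.Y227.SO
open Pool.Agent.N858.PC (allExp LineSS lineSS_of fuchs_int not_cond)

section abs

variable {X : Type*} [Fintype X] [DecidableEq X] {n : ℕ}

/-- The cost of moving the points of `S`. -/
def cost (n C : ℕ) (S : Finset X) (p k : X → ℕ) : ℚ := ∑ x ∈ S, 2 * n ^ 2 * C / (p x : ℚ) ^ k x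

/-- The conclusion on the points outside of `S`. First, for all multipliers `a` which are prime to the
denominators of the differences of the exponents at the points outside of `S`, and all choices of
an exponent at each of these points, the inequality of line subbundles holds up to the cost.
Second, if the cost is smaller than `1 / (8 n)` and there are at most two points outside of `S` with
a difference of exponents which is not an integer, then there are two such points, and the exponents
at these points are, modulo the integers, arithmetic progressions with difference `1 / n`. -/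
def OwnGood (e : X → Fin n → ℚ) (C : ℕ) (S : Finset X) (p k : X → ℕ) : Prop :=
  (∀ a : ℤ, (∀ y, y ∉ S → ∀ l l', IsCoprime a ((e y l - e y l').den : ℤ)) → ∀ c : X → Fin n,
    (n : ℚ) - 1 - cost n C S p k ≤ ∑ y ∈ Sᶜ, ∑ l, Int.fract ((a : ℚ) * (e y l - e y (c y)))) ∧
  (cost n C S p k < 1 / (8 * n) → (restN e S).card ≤ 2 →
    (restN e S).card = 2 ∧ ∀ y ∈ restN e S, Progression (e y))

omit [DecidableEq X] in
lemma FarTop.mul {e : X → Fin n → ℚ} {F : ℤ} {N N' : ℕ} (h : FarTop e F N) :
    FarTop e F (N * N') := by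
  intro a ha
  refine h a (IsCoprime.of_isCoprime_of_dvd_right ha ?_)
  push_cast
  exact Dvd.intro _ rfl

theorem ownGood_of {e : X → Fin n → ℚ} {F : ℤ} {N : ℕ} (hn : 2 ≤ n) (hN : 0 < N)
    (he : ∀ x l, ∃ z : ℤ, (N : ℚ) * e x l = z) (h : FarTop e F N) {C : ℕ} {S : Finset X}
    {θ : X → ℚ} {c : X → Fin n → ℤ} {p k : X → ℕ} (hS : StepData e C S θ c p k) :
    OwnGood e C S p k := by
  set N' : ℕ := ∏ x, (θ x).den with hN'
  have hN0 : 0 < N' := prod_pos fun x _ => (θ x).den_pos
  have he' : ∀ x l, ∃ z : ℤ, ((N * N' : ℕ) : ℚ) * e x l = z := by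
    intro x l
    obtain ⟨z, hz⟩ := he x l
    exact ⟨N' * z, by push_cast; rw [← hz]; ring⟩
  have hθ : ∀ x ∈ S, ∃ z : ℤ, ((N * N' : ℕ) : ℚ) * θ x = z := fun x _ =>
    int_of_den_dvd ((dvd_prod_of_mem (fun x => (θ x).den) (mem_univ x)).trans (Dvd.intro_left _ rfl))
  have hfar := move_all_n (by omega) hS (Nat.mul_pos hN hN0) he' hθ h.mul
  refine ⟨fun a ha c' => ?_, fun hκ hcard => ?_⟩
  · exact hfar.lift (Nat.mul_pos hN hN0) ha c'
  · exact progression_of_far hn (Nat.mul_pos hN hN0) he' hκ hfar hcard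

lemma farTop_of {e : X → Fin n → ℚ} [Nonempty X] (hn : 0 < n) {F : ℤ}
    (hF : ∑ x, ∑ l, e x l = F) {N : ℕ}
    (h : ∀ a : ℤ, IsCoprime a (N : ℤ) → LineSS fun x l => (a : ℝ) * e x l) : FarTop e F N := by
  intro a ha c g m hm hj
  have h1 := line_n hn hF a (h a ha) c g m hm (n - 1) hj (by omega)
  push_cast at h1
  exact h1

end abs

theorem op_own_n (m n : ℕ) (hm : 1 ≤ m) (hn : 2 ≤ n) :
    ∃ ε : ℝ, 0 < ε ∧ ∀ (b : Fin (n + 1) → ℤ[X]) (α : Fin m → AlgebraicClosure ℚ),
      (∀ lam phi, FuchsianWith b α lam phi → ∀ (C : ℕ) (S : Finset (Option (Fin m)))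
        (θ : Option (Fin m) → ℚ) (c : Option (Fin m) → Fin n → ℤ) (p k : Option (Fin m) → ℕ),
        StepData (allExp lam phi) C S θ c p k → ¬ OwnGood (allExp lam phi) C S p k →
        ¬ Cond b ∧ ¬ FewBad b ε ∧ ∀ N, CommonDen lam phi N → BadPrimes b N ε) ∧
      (ZerosAmong b α → FewBad b ε → ∃ lam phi, FuchsianWith b α lam phi ∧
        ∀ (C : ℕ) (S : Finset (Option (Fin m)))
        (θ : Option (Fin m) → ℚ) (c : Option (Fin m) → Fin n → ℤ) (p k : Option (Fin m) → ℕ),
        StepData (allExp lam phi) C S θ c p k → OwnGood (allExp lam phi) C S p k) := by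
  obtain ⟨ε, 𝒟, hε, -, hden⟩ := density m n hm (by omega)
  have key : ∀ (b : Fin (n + 1) → ℤ[X]) (α : Fin m → AlgebraicClosure ℚ) lam phi,
      FuchsianWith b α lam phi → ∀ N, CommonDen lam phi N → ConjGood b lam phi N →
      ∀ (C : ℕ) (S : Finset (Option (Fin m)))
        (θ : Option (Fin m) → ℚ) (c : Option (Fin m) → Fin n → ℤ) (p k : Option (Fin m) → ℕ),
        StepData (allExp lam phi) C S θ c p k → OwnGood (allExp lam phi) C S p k := by
    intro b α lam phi hF N hN hG C S θ c p k hS
    obtain ⟨F, hFu⟩ := fuchs_int hm (by omega) hF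
    have hsum : ∑ x, ∑ l, allExp lam phi x l = F := by
      rw [Fintype.sum_option]
      simp only [allExp, sum_neg_distrib, hFu]
      ring
    refine ownGood_of (F := F) hn hN.1 (fun x l => ?_)
      (farTop_of (by omega) hsum fun a ha => lineSS_conj hFu a (hG a ha).2.1) hS
    rcases x with _ | j
    · obtain ⟨z, hz⟩ := hN.2.2 l
      exact ⟨-z, by push_cast; rw [← hz]; simp only [allExp]; ring⟩
    · exact hN.2.1 j l
  refine ⟨min (ε / 2) ε, lt_min (by positivity) hε, fun b α => ⟨?_, fun hZ hfew => ?_⟩⟩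
  · intro lam phi hF C S θ c p k hS hO
    obtain ⟨N₀, hN₀⟩ := exists_commonDen lam phi
    have hall : ∀ N, CommonDen lam phi N → BadPrimes b N ε := by
      intro N hN
      rcases (hden b α).1 lam phi N hF hN with h | ⟨h, -⟩
      · exact h
      · exact absurd (key b α lam phi hF N hN h C S θ c p k hS) hO
    refine ⟨not_cond hN₀.1 hε (hall N₀ hN₀), fun hfew => ?_, fun N hN => ?_⟩
    · exact (hall N₀ hN₀).dens hN₀.1 hε (hfew.mono (min_le_left _ _))
    · exact (hall N hN).mono (min_le_right _ _)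
  · obtain ⟨lam, phi, hF, ⟨N, hN⟩, hG, -⟩ := (hden b α).2 hZ (hfew.mono (min_le_right _ _))
    exact ⟨lam, phi, hF, key b α lam phi hF N hN (hG N hN)⟩

end Pool.Agent.K9h20
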