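import Pool.Agent.K9h20.PairClass

set_option autoImplicit false

/-!
Pairs and triples of rational numbers all of whose conjugates have a large sum of the distances to
the nearest integers.
-/

namespace Pool.Agent.K9h20

open Finset
open ArithmeticFunction (moebius)

variable {N : ℕ}

lemma mean_ge [NeZero N] {x : ℚ} (hx : x.den ∣ N) (h2 : x.den ≠ 2) (h3 : x.den ≠ 3) :
    -(N.totient : ℝ) ≤ 4 * ∑ u : (ZMod N)ˣ,
      Real.cos (2 * Real.pi * (((u : ZMod N).val : ℝ) * x)) := by
  have h := mean_cos (N := N) x hx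
  have hN : (0 : ℝ) < N.totient := by
    exact_mod_cast Nat.totient_pos.2 (Nat.pos_of_ne_zero (NeZero.ne N))
  have hq : (0 : ℝ) < x.den.totient := by exact_mod_cast Nat.totient_pos.2 x.den_pos
  set S : ℝ := ∑ u : (ZMod N)ˣ, Real.cos (2 * Real.pi * (((u : ZMod N).val : ℝ) * x)) with hS
  by_cases h5 : x.den = 5
  · rw [h5] at h
    have h6 : Nat.totient 5 = 4 := by decide
    have h7 : moebius 5 = -1 := ArithmeticFunction.moebius_apply_prime (by norm_num)
    rw [h6, h7] at h
    push_cast at h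
    linarith
  · have h6 := moebius_ge x.den_pos h2 h3 h5
    have h7 : -(x.den.totient : ℝ) * N.totient ≤ 5 * (x.den.totient * S) := by
      rw [h]
      nlinarith
    have h8 : -(N.totient : ℝ) ≤ 5 * S := by
      by_contra hlt
      push Not at hlt
      nlinarith
    by_contra hlt
    push Not at hlt
    linarith

lemma mean_ge' [NeZero N] {x : ℚ} (hx : x.den ∣ N) (h2 : x.den ≠ 2) (h3 : x.den ≠ 3)
    (h5 : x.den ≠ 5) :
    -(N.totient : ℝ) ≤ 5 * ∑ u : (ZMod N)ˣ,
      Real.cos (2 * Real.pi * (((u : ZMod N).val : ℝ) * x)) := by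
  have h := mean_cos (N := N) x hx
  have hN : (0 : ℝ) < N.totient := by
    exact_mod_cast Nat.totient_pos.2 (Nat.pos_of_ne_zero (NeZero.ne N))
  have hq : (0 : ℝ) < x.den.totient := by exact_mod_cast Nat.totient_pos.2 x.den_pos
  set S : ℝ := ∑ u : (ZMod N)ˣ, Real.cos (2 * Real.pi * (((u : ZMod N).val : ℝ) * x)) with hS
  have h6 := moebius_ge x.den_pos h2 h3 h5
  have h7 : -(x.den.totient : ℝ) * N.totient ≤ 5 * (x.den.totient * S) := by
    rw [h]
    nlinarith
  by_contra hlt
  push Not at hlt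
  nlinarith

/-- The distance of a conjugate to the nearest integer, as a real number. -/
lemma round_real (a : ℕ) (x : ℚ) :
    |((a : ℝ) * x) - round ((a : ℝ) * (x : ℝ))| = ((|(a : ℚ) * x - round ((a : ℚ) * x)| : ℚ) : ℝ) := by
  have h1 : round ((a : ℝ) * (x : ℝ)) = round ((a : ℚ) * x) := by
    rw [← Rat.round_cast (α := ℝ)]
    congr 1
    push_cast
    rfl
  rw [h1]
  push_cast
  rfl

lemma isCoprime_val [NeZero N] (u : (ZMod N)ˣ) : IsCoprime (((u : ZMod N).val : ℕ) : ℤ) (N : ℤ) := by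
  rw [Nat.isCoprime_iff_coprime]
  exact ZMod.val_coe_unit_coprime u

/-- The case of denominators at least four. -/
lemma pair_big (hN : 0 < N) {x y : ℚ} (hx : x.den ∣ N) (hy : y.den ∣ N)
    (h : FarPair N (11 / 23) x y) (hx4 : 4 ≤ x.den) (hy4 : 4 ≤ y.den) : PairList x y := by
  have : NeZero N := ⟨hN.ne'⟩
  have hN1 : 1 < N := lt_of_lt_of_le (by omega) (Nat.le_of_dvd hN hx)
  have hc : ∀ u : (ZMod N)ˣ, 2 * Real.cos (2 * Real.pi * (((u : ZMod N).val : ℝ) * x)) +
      2 * Real.cos (2 * Real.pi * (((u : ZMod N).val : ℝ) * y)) ≤ 0.278 := by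
    intro u
    have h1 := h _ (isCoprime_val u) (round ((((u : ZMod N).val : ℕ) : ℚ) * x))
      (round ((((u : ZMod N).val : ℕ) : ℚ) * y))
    rw [cos_round (((u : ZMod N).val : ℝ) * x), cos_round (((u : ZMod N).val : ℝ) * y)]
    have h2 := round_real (u : ZMod N).val x
    have h3 := round_real (u : ZMod N).val y
    have h4 : (11 / 23 : ℝ) ≤ |(((u : ZMod N).val : ℝ) * x) - round (((u : ZMod N).val : ℝ) * (x : ℝ))| +
        |(((u : ZMod N).val : ℝ) * y) - round (((u : ZMod N).val : ℝ) * (y : ℝ))| := by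
      rw [h2, h3]
      have h5 : ((11 / 23 : ℚ) : ℝ) ≤ ((|(((u : ZMod N).val : ℕ) : ℚ) * x -
          round ((((u : ZMod N).val : ℕ) : ℚ) * x)| +
          |(((u : ZMod N).val : ℕ) : ℚ) * y - round ((((u : ZMod N).val : ℕ) : ℚ) * y)| : ℚ) : ℝ) := by
        exact_mod_cast h1
      push_cast at h5 ⊢
      exact h5
    have h5 := cos_two_aux (abs_nonneg _) (abs_sub_round (((u : ZMod N).val : ℝ) * (x : ℝ)))
      (abs_nonneg _) (abs_sub_round (((u : ZMod N).val : ℝ) * (y : ℝ))) h4
    norm_num at h5 ⊢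
    linarith
  by_cases h0 : ∃ u : (ZMod N)ˣ, 2 * Real.cos (2 * Real.pi * (((u : ZMod N).val : ℝ) * x)) +
      2 * Real.cos (2 * Real.pi * (((u : ZMod N).val : ℝ) * y)) ≠ 0
  · have h1 := pair_core hx hy hc h0
    rw [sum_add_distrib, ← mul_sum, ← mul_sum] at h1
    have hφ : (0 : ℝ) < N.totient := by exact_mod_cast Nat.totient_pos.2 hN
    have h2 := mean_ge (N := N) hx (by omega) (by omega)
    have h3 := mean_ge (N := N) hy (by omega) (by omega)
    have hx5 : x.den = 5 := by
      by_contra h5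
      have h4 := mean_ge' (N := N) hx (by omega) (by omega) h5
      linarith
    have hy5 : y.den = 5 := by
      by_contra h5
      have h4 := mean_ge' (N := N) hy (by omega) (by omega) h5
      linarith
    have hns : ¬ Sim y x := by
      intro hs
      obtain ⟨a, ha, w, hw⟩ := exists_inv hN (x := x)
      obtain ⟨v, hv⟩ := hs.abs a w
      have h4 := h a ha w v
      rw [hv, hw, hx5] at h4
      norm_num at h4
    unfold PairList
    rcases sim_five hx5 with h4 | h4 <;> rcases sim_five hy5 with h5 | h5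
    · exact absurd (h5.trans h4.symm) hns
    · tauto
    · tauto
    · exact absurd (h5.trans h4.symm) hns
  · push Not at h0
    have h1 := h0 1
    have hval : (((1 : (ZMod N)ˣ) : ZMod N).val : ℝ) = 1 := by
      have : Fact (1 < N) := ⟨hN1⟩
      rw [Units.val_one, ZMod.val_one]
      simp
    rw [hval, one_mul, one_mul] at h1
    have h2 : Real.cos (2 * Real.pi * x) = Real.cos (Real.pi - 2 * Real.pi * y) := by
      rw [Real.cos_pi_sub]
      linarith
    rw [Real.cos_eq_cos_iff] at h2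
    obtain ⟨k, hk⟩ := h2
    refine Or.inr (Or.inr (Or.inl ?_))
    have hpi := Real.pi_pos
    rcases hk with hk | hk
    · left
      refine ⟨-k, ?_⟩
      have h3 : Real.pi * (1 - 2 * y - 2 * k - 2 * x) = 0 := by linarith
      have h4 : (1 : ℝ) - 2 * y - 2 * k - 2 * x = 0 := by
        rcases mul_eq_zero.1 h3 with h5 | h5
        · exact absurd h5 hpi.ne'
        · exact h5
      have h5 : (1 : ℚ) - 2 * y - 2 * k - 2 * x = 0 := by exact_mod_cast h4
      push_cast
      linarith
    · right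
      refine ⟨1 - k, ?_⟩
      have h3 : Real.pi * (1 - 2 * y - 2 * k + 2 * x) = 0 := by linarith
      have h4 : (1 : ℝ) - 2 * y - 2 * k + 2 * x = 0 := by
        rcases mul_eq_zero.1 h3 with h5 | h5
        · exact absurd h5 hpi.ne'
        · exact h5
      have h5 : (1 : ℚ) - 2 * y - 2 * k + 2 * x = 0 := by exact_mod_cast h4
      push_cast
      linarith

/-- The pairs. -/
theorem pair_class (hN : 0 < N) {x y : ℚ} (hx : x.den ∣ N) (hy : y.den ∣ N)
    (h : FarPair N (11 / 23) x y) : PairList x y := by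
  by_cases h1 : x.den ≤ 3
  · exact pair_small hN h h1
  by_cases h2 : y.den ≤ 3
  · exact (pair_small hN h.symm h2).symm
  exact pair_big hN hx hy h (by omega) (by omega)

/-- The condition for triples. -/
def FarTriple (N : ℕ) (x y z : ℚ) : Prop :=
  ∀ a : ℤ, IsCoprime a (N : ℤ) → ∀ u v w : ℤ,
    45 / 46 ≤ |(a : ℚ) * x - u| + |(a : ℚ) * y - v| + |(a : ℚ) * z - w|

lemma FarTriple.rot {x y z : ℚ} (h : FarTriple N x y z) : FarTriple N y z x := by
  intro a ha u v w
  have := h a ha w u v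
  linarith

lemma FarTriple.swap {x y z : ℚ} (h : FarTriple N x y z) : FarTriple N x z y := by
  intro a ha u v w
  have := h a ha u w v
  linarith

/-- The list of triples, in some order. -/
def TripleList (x y z : ℚ) : Prop :=
  (Sim x (1 / 2) ∧ PairList y z) ∨ (Sim x (1 / 3) ∧ Sim y (1 / 3) ∧ Sim z (1 / 3))

/-- The case of a half. -/
lemma triple_half (hN : 0 < N) {x y z : ℚ} (hy : y.den ∣ N) (hz : z.den ∣ N)
    (h : FarTriple N x y z) (hx : Sim x (1 / 2)) : TripleList x y z := by
  refine Or.inl ⟨hx, pair_class hN hy hz fun a ha v w => ?_⟩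
  have h1 := h a ha (round ((a : ℚ) * x)) v w
  have h2 := abs_sub_round ((a : ℚ) * x)
  norm_num at h1 h2 ⊢
  linarith

lemma third_near {x : ℚ} (hs : Sim x (1 / 3)) (a : ℤ) : ∃ v : ℤ, |(a : ℚ) * x - v| ≤ 1 / 3 := by
  have h1 : ∃ b : ℤ, |(a : ℚ) * (1 / 3) - b| ≤ 1 / 3 := by
    have h4 : (a : ℚ) = ((a % 3 : ℤ) : ℚ) + 3 * ((a / 3 : ℤ) : ℚ) := by
      exact_mod_cast (Int.emod_add_mul_ediv a 3).symm
    have h5 : a % 3 = 0 ∨ a % 3 = 1 ∨ a % 3 = 2 := by omega
    rcases h5 with h5 | h5 | h5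
    · refine ⟨a / 3, ?_⟩
      rw [h4, h5, abs_le]
      push_cast
      constructor <;> linarith
    · refine ⟨a / 3, ?_⟩
      rw [h4, h5, abs_le]
      push_cast
      constructor <;> linarith
    · refine ⟨a / 3 + 1, ?_⟩
      rw [h4, h5, abs_le]
      push_cast
      constructor <;> linarith
  obtain ⟨b, hb⟩ := h1
  obtain ⟨v, hv⟩ := hs.abs a b
  exact ⟨v, hv.le.trans hb⟩

lemma near_of_sim {x y : ℚ} (h : Sim x y) : ∃ v : ℤ, |x - v| = |y| := by
  obtain ⟨v, hv⟩ := h.abs 1 0
  refine ⟨v, ?_⟩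
  simpa using hv

/-- The case of a third, no halves. -/
lemma triple_third (hN : 0 < N) {x y z : ℚ} (hy : y.den ∣ N) (hz : z.den ∣ N)
    (h : FarTriple N x y z) (hx : Sim x (1 / 3)) (hy2 : ¬ Sim y (1 / 2)) (hz2 : ¬ Sim z (1 / 2)) :
    TripleList x y z := by
  have hpair : FarPair N (89 / 138) y z := by
    intro a ha v w
    obtain ⟨u, hu⟩ := third_near hx a
    have h1 := h a ha u v w
    norm_num at h1 hu ⊢
    linarith
  have h1 : PairList y z := pair_class hN hy hz fun a ha v w => by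
    have := hpair a ha v w
    norm_num at this ⊢
    linarith
  have hone := fun v w => hpair 1 isCoprime_one_left v w
  simp only [Int.cast_one, one_mul] at hone
  have bad : ∀ {s t : ℚ}, Sim y s → Sim z t → |s| + |t| < 89 / 138 → False := by
    intro s t hs ht hlt
    obtain ⟨v, hv⟩ := near_of_sim hs
    obtain ⟨w, hw⟩ := near_of_sim ht
    have h2 := hone v w
    rw [hv, hw] at h2
    linarith
  -- the conjugates with a fifth
  have bad5 : ∀ {s t : ℚ}, Sim s (1 / 3) → Sim t (2 / 5) → FarPair N (89 / 138) s t → False := by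
    intro s t hs ht hp
    have hden : t.den = 5 := by
      have h5 : ((2 : ℚ) / 5).den = 5 := by norm_num
      rcases ht with ⟨w, hw⟩ | ⟨w, hw⟩
      · have : t = 2 / 5 + w := by linarith
        rw [this, Rat.add_intCast_den, h5]
      · have : t = -(2 / 5) + w := by linarith
        rw [this, Rat.add_intCast_den, Rat.neg_den, h5]
    obtain ⟨a, ha, w, hw⟩ := exists_inv hN (x := t)
    obtain ⟨v, hv⟩ := third_near hs a
    have h2 := hp a ha v w
    rw [hw, hden] at h2
    norm_num at h2 hv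
    linarith
  rcases h1 with h1 | h1 | h1 | h1 | h1 | h1 | h1 | h1 | h1 | h1 | h1 | h1
  · exact absurd h1 hy2
  · exact absurd h1 hz2
  · exfalso
    -- `y + z` or `y - z` is a half
    have h3 := abs_sub_round y
    have h4 : ∃ w : ℤ, |z - w| = 1 / 2 - |y - round y| := by
      have h5 : ∃ ε : ℚ, ∃ v : ℤ, (ε = 1 ∨ ε = -1) ∧ z = 1 / 2 - ε * (y - round y) + v := by
        rcases h1 with ⟨w, hw⟩ | ⟨w, hw⟩
        · exact ⟨1, w - round y, Or.inl rfl, by push_cast; linarith⟩
        · exact ⟨-1, w - 1 + round y, Or.inr rfl, by push_cast; linarith⟩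
      obtain ⟨ε, v, hε, hz⟩ := h5
      have h6 := neg_abs_le (y - round y)
      have h7 := le_abs_self (y - round y)
      have h8 := abs_nonneg (y - round y)
      rcases le_total 0 (ε * (y - round y)) with h9 | h9
      · refine ⟨v, ?_⟩
        have h10 : ε * (y - round y) = |y - round y| := by
          rw [← abs_of_nonneg h9, abs_mul]
          rcases hε with rfl | rfl <;> simp
        rw [hz, add_sub_cancel_right, h10, abs_of_nonneg (by linarith)]
      · refine ⟨v + 1, ?_⟩
        have h10 : ε * (y - round y) = -|y - round y| := by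
          rw [← neg_neg (ε * (y - round y)), ← abs_of_nonpos h9, abs_mul]
          rcases hε with rfl | rfl <;> simp
        have h11 : z - ((v + 1 : ℤ) : ℚ) = -(1 / 2 - |y - round y|) := by
          rw [hz, h10]
          push_cast
          ring
        rw [h11, abs_neg, abs_of_nonneg (by linarith)]
    obtain ⟨w, hw⟩ := h4
    have h5 := hone (round y) w
    rw [hw] at h5
    linarith
  · exact Or.inr ⟨hx, h1.1, h1.2⟩
  · exact (bad h1.1 h1.2 (by norm_num [abs_of_pos])).elim
  · exact (bad h1.1 h1.2 (by norm_num [abs_of_pos])).elim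
  · exact (bad h1.1 h1.2 (by norm_num [abs_of_pos])).elim
  · exact (bad h1.1 h1.2 (by norm_num [abs_of_pos])).elim
  · exact (bad5 h1.1 h1.2 hpair).elim
  · exact (bad5 h1.2 h1.1 hpair.symm).elim
  · exact (bad h1.1 h1.2 (by norm_num [abs_of_pos])).elim
  · exact (bad h1.1 h1.2 (by norm_num [abs_of_pos])).elim

/-- No halves and no thirds. -/
lemma triple_none (hN : 0 < N) {x y z : ℚ} (hx : x.den ∣ N) (hy : y.den ∣ N) (hz : z.den ∣ N)
    (h : FarTriple N x y z) (hx2 : x.den ≠ 2) (hx3 : x.den ≠ 3) (hy2 : y.den ≠ 2)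
    (hy3 : y.den ≠ 3) (hz2 : z.den ≠ 2) (hz3 : z.den ≠ 3) : False := by
  have : NeZero N := ⟨hN.ne'⟩
  have hc : ∀ u : (ZMod N)ˣ, Real.cos (2 * Real.pi * (((u : ZMod N).val : ℝ) * x)) +
      Real.cos (2 * Real.pi * (((u : ZMod N).val : ℝ) * y)) +
      Real.cos (2 * Real.pi * (((u : ZMod N).val : ℝ) * z)) ≤ -0.8 := by
    intro u
    have h1 := h _ (isCoprime_val u) (round ((((u : ZMod N).val : ℕ) : ℚ) * x))
      (round ((((u : ZMod N).val : ℕ) : ℚ) * y)) (round ((((u : ZMod N).val : ℕ) : ℚ) * z))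
    rw [cos_round (((u : ZMod N).val : ℝ) * x), cos_round (((u : ZMod N).val : ℝ) * y),
      cos_round (((u : ZMod N).val : ℝ) * z)]
    have h2 := round_real (u : ZMod N).val x
    have h3 := round_real (u : ZMod N).val y
    have h3' := round_real (u : ZMod N).val z
    refine cos_three_aux (abs_nonneg _) (abs_sub_round _) (abs_nonneg _) (abs_sub_round _)
      (abs_nonneg _) (abs_sub_round _) ?_
    rw [h2, h3, h3']
    have h5 : ((45 / 46 : ℚ) : ℝ) ≤ ((|(((u : ZMod N).val : ℕ) : ℚ) * x -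
          round ((((u : ZMod N).val : ℕ) : ℚ) * x)| +
          |(((u : ZMod N).val : ℕ) : ℚ) * y - round ((((u : ZMod N).val : ℕ) : ℚ) * y)| +
          |(((u : ZMod N).val : ℕ) : ℚ) * z - round ((((u : ZMod N).val : ℕ) : ℚ) * z)| : ℚ) : ℝ) := by
      exact_mod_cast h1
    push_cast at h5 ⊢
    exact h5
  have hsum := sum_le_sum fun u (_ : u ∈ (univ : Finset (ZMod N)ˣ)) => hc u
  rw [sum_add_distrib, sum_add_distrib, sum_const, card_univ, ZMod.card_units_eq_totient,
    nsmul_eq_mul] at hsum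
  have hφ : (0 : ℝ) < N.totient := by exact_mod_cast Nat.totient_pos.2 hN
  have h1 := mean_ge (N := N) hx hx2 hx3
  have h2 := mean_ge (N := N) hy hy2 hy3
  have h3 := mean_ge (N := N) hz hz2 hz3
  have h08 : (-0.8 : ℝ) = -(4 / 5) := by norm_num
  rw [h08] at hsum
  linarith

/-- The triples. -/
theorem triple_class (hN : 0 < N) {x y z : ℚ} (hx : x.den ∣ N) (hy : y.den ∣ N) (hz : z.den ∣ N)
    (h : FarTriple N x y z) : TripleList x y z ∨ TripleList y z x ∨ TripleList z x y := by
  by_cases hx2 : Sim x (1 / 2)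
  · exact Or.inl (triple_half hN hy hz h hx2)
  by_cases hy2 : Sim y (1 / 2)
  · exact Or.inr (Or.inl (triple_half hN hz hx h.rot hy2))
  by_cases hz2 : Sim z (1 / 2)
  · exact Or.inr (Or.inr (triple_half hN hx hy h.rot.rot hz2))
  by_cases hx3 : Sim x (1 / 3)
  · exact Or.inl (triple_third hN hy hz h hx3 hy2 hz2)
  by_cases hy3 : Sim y (1 / 3)
  · exact Or.inr (Or.inl (triple_third hN hz hx h.rot hy3 hz2 hx2))
  by_cases hz3 : Sim z (1 / 3)
  · exact Or.inr (Or.inr (triple_third hN hx hy h.rot.rot hz3 hx2 hy2))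
  exact (triple_none hN hx hy hz h (fun h => hx2 (sim_two h)) (fun h => hx3 (sim_three h))
    (fun h => hy2 (sim_two h)) (fun h => hy3 (sim_three h)) (fun h => hz2 (sim_two h))
    (fun h => hz3 (sim_three h))).elim

end Pool.Agent.K9h20
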