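import Pool.Agent.R927.GP1

set_option autoImplicit false

/-!
Means of cosines over the units: the sums of the primitive roots of unity are the values of the
Möbius function.
-/

namespace Pool.Agent.K9h20

open Finset Polynomial
open Pool.Agent.R927.GP
open ArithmeticFunction (moebius)

lemma sum_roots_eq {n : ℕ} (hn : 0 < n) :
    ∑ z ∈ nthRootsFinset n (1 : ℂ), z = if n = 1 then 1 else 0 := by
  have : NeZero n := ⟨hn.ne'⟩
  have hprim := Complex.isPrimitiveRoot_exp n hn.ne'
  split_ifs with h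
  · subst h
    have h1 : nthRootsFinset 1 (1 : ℂ) = {1} := by
      ext z
      rw [mem_nthRootsFinset one_pos, mem_singleton, pow_one]
    rw [h1, sum_singleton]
  · have h1 : 1 < n := by omega
    have h2 := hprim.geom_sum_eq_zero h1
    rw [← h2]
    have h3 : nthRootsFinset n (1 : ℂ) =
        (range n).image fun i => Complex.exp (2 * Real.pi * Complex.I / n) ^ i := by
      ext z
      rw [mem_nthRootsFinset hn, mem_image]
      constructor
      · intro hz
        obtain ⟨i, hi, hi2⟩ := hprim.eq_pow_of_pow_eq_one hz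
        exact ⟨i, mem_range.2 hi, hi2⟩
      · rintro ⟨i, -, rfl⟩
        rw [← pow_mul, mul_comm i n, pow_mul, hprim.pow_eq_one, one_pow]
    rw [h3, sum_image]
    intro i hi j hj hij
    exact hprim.pow_inj (mem_range.1 hi) (mem_range.1 hj) hij

/-- The sum of the primitive roots of unity is the value of the Möbius function. -/
theorem sum_primitive {q : ℕ} (hq : 0 < q) :
    ∑ z ∈ primitiveRoots q ℂ, z = ((moebius q : ℤ) : ℂ) := by
  have h1 : ∀ n : ℕ, 0 < n → ∑ i ∈ n.divisors, ∑ z ∈ primitiveRoots i ℂ, z =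
      (if n = 1 then (1 : ℂ) else 0) := by
    intro n hn
    have : NeZero n := ⟨hn.ne'⟩
    rw [← sum_roots_eq hn, IsPrimitiveRoot.nthRoots_one_eq_biUnion_primitiveRoots, sum_biUnion]
    intro i _ j _ hij
    exact IsPrimitiveRoot.disjoint hij
  have h2 := (ArithmeticFunction.sum_eq_iff_sum_mul_moebius_eq (R := ℂ)
    (f := fun i => ∑ z ∈ primitiveRoots i ℂ, z) (g := fun n => if n = 1 then (1 : ℂ) else 0)).1 h1 q hq
  rw [← h2, sum_eq_single (q, 1)]
  · simp
  · rintro ⟨a, b⟩ hab hne
    rw [Nat.mem_divisorsAntidiagonal] at hab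
    have hb : b ≠ 1 := by
      rintro rfl
      apply hne
      simp at hab
      simp [hab.1]
    simp [hb]
  · intro h
    exfalso
    apply h
    rw [Nat.mem_divisorsAntidiagonal]
    exact ⟨by simp, hq.ne'⟩

lemma sum_hom {G H : Type*} [Group G] [Group H] [Fintype G] [Fintype H] (f : G →* H)
    (hf : Function.Surjective f) (g : H → ℝ) :
    (Fintype.card H : ℝ) * ∑ u, g (f u) = Fintype.card G * ∑ h, g h := by
  choose s hs using hf
  have h1 : ∀ h : H, ∑ u, g (f u) = ∑ u, g (f u * h) := by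
    intro h
    rw [← Equiv.sum_comp (Equiv.mulRight (s h))]
    refine sum_congr rfl fun u _ => ?_
    simp [hs]
  calc (Fintype.card H : ℝ) * ∑ u, g (f u) = ∑ _h : H, ∑ u, g (f u) := by simp
    _ = ∑ h : H, ∑ u, g (f u * h) := sum_congr rfl fun h _ => h1 h
    _ = ∑ u, ∑ h : H, g (f u * h) := sum_comm
    _ = ∑ _u : G, ∑ h : H, g h := by
        refine sum_congr rfl fun u _ => ?_
        exact Equiv.sum_comp (Equiv.mulLeft (f u)) g
    _ = Fintype.card G * ∑ h, g h := by simp

/-- The mean of the cosines of the conjugates. -/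
theorem mean_cos {N : ℕ} [NeZero N] (x : ℚ) (hx : x.den ∣ N) :
    ((x.den.totient : ℕ) : ℝ) * ∑ u : (ZMod N)ˣ,
      Real.cos (2 * Real.pi * (((u : ZMod N).val : ℝ) * x)) = N.totient * (moebius x.den : ℤ) := by
  have : NeZero x.den := ⟨x.den_pos.ne'⟩
  set q : ℕ := x.den with hq
  have hq0 : 0 < q := x.den_pos
  set ξ : ℂ := Complex.exp (2 * Real.pi * Complex.I / q) ^ x.num with hξ
  have hprim : IsPrimitiveRoot ξ q := by
    refine (Complex.isPrimitiveRoot_exp q hq0.ne').zpow_of_gcd_eq_one _ ?_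
    exact x.reduced
  have hre : ∀ a : ℕ, (ξ ^ a).re = Real.cos (2 * Real.pi * ((a : ℝ) * x)) := by
    intro a
    have h1 : ξ ^ a = Complex.exp (((2 * Real.pi * ((a : ℝ) * x) : ℝ) : ℂ) * Complex.I) := by
      rw [hξ, ← Complex.exp_int_mul, ← Complex.exp_nat_mul]
      congr 1
      have h2 : (x : ℂ) = x.num / q := by
        rw [hq]
        exact_mod_cast (Rat.num_div_den x).symm
      have h3 : (q : ℂ) ≠ 0 := by exact_mod_cast hq0.ne'
      push_cast
      rw [h2]
      field_simp
    rw [h1, Complex.exp_ofReal_mul_I_re]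
  have h1 : ∀ u : (ZMod N)ˣ, Real.cos (2 * Real.pi * (((u : ZMod N).val : ℝ) * x)) =
      (fun v : (ZMod q)ˣ => (ξ ^ (v : ZMod q).val).re) (ZMod.unitsMap hx u) := by
    intro u
    rw [← hre]
    simp only
    congr 1
    rw [ZMod.unitsMap_val, ← pow_mod_orderOf, ← pow_mod_orderOf ξ ((_ : ZMod q).val),
      ← hprim.eq_orderOf]
    congr 1
    have h2 : ((u : ZMod N).cast : ZMod q) = (((u : ZMod N).val : ℕ) : ZMod q) := by
      rw [ZMod.natCast_val]
    rw [h2, ZMod.val_natCast, Nat.mod_mod]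
  rw [sum_congr rfl fun u _ => h1 u]
  have h2 := sum_hom (ZMod.unitsMap hx) (ZMod.unitsMap_surjective hx)
    (fun v : (ZMod q)ˣ => (ξ ^ (v : ZMod q).val).re)
  rw [ZMod.card_units_eq_totient, ZMod.card_units_eq_totient] at h2
  rw [h2]
  congr 1
  rw [← sum_prim hprim (fun w => w.re), ← Complex.re_sum, sum_primitive hq0]
  simp

end Pool.Agent.K9h20
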