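import Pool.Agent.K9h20.Arc

set_option autoImplicit false

/-!
Rank two: the `l¹`-distances to the integral points of the wrong parity, and the motion of a
difference of exponents whose denominator is divisible by a prime number not dividing the other ones.
-/

namespace Pool.Agent.K9h20

open Finset Pool.Agent.N858.PC

section line

variable {X : Type*} [Fintype X]

/-- The differences of the exponents. -/
def dif (e : X → Fin 2 → ℚ) (x : X) : ℚ := e x 1 - e x 0

/-- The inequality for line subbundles in rank two. -/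
theorem dist_ge [DecidableEq X] [Nonempty X] {e : X → Fin 2 → ℚ} {F : ℤ}
    (hF : ∑ x, ∑ l, e x l = F) (a : ℤ) (h : LineSS fun x l => (a : ℝ) * e x l) (w : X → ℤ)
    (hw : Odd (a * F - ∑ x, w x)) : 1 ≤ ∑ x, |(a : ℚ) * dif e x - w x| := by
  by_contra hlt
  push Not at hlt
  obtain ⟨K, hK⟩ := hw
  obtain ⟨x₀⟩ := ‹Nonempty X›
  set Δ : ℝ := ∑ x, |(a : ℝ) * (e x 1 - e x 0) - w x| with hΔ
  have hΔ1 : Δ < 1 := by
    have h1 : ((∑ x, |(a : ℚ) * dif e x - w x| : ℚ) : ℝ) = Δ := by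
      rw [hΔ]
      push_cast [dif]
      rfl
    rw [← h1]
    exact_mod_cast hlt
  have h1 := lineSS_fract h (fun x => ((a : ℝ) * e x 0 + a * e x 1 - w x -
    |(a : ℝ) * (e x 1 - e x 0) - w x|) / 2 - if x = x₀ then (K : ℝ) else 0)
  have hsum : ∑ x, ((((a : ℝ) * e x 0 + a * e x 1 - w x -
      |(a : ℝ) * (e x 1 - e x 0) - w x|) / 2) - if x = x₀ then (K : ℝ) else 0) = (1 - Δ) / 2 := by
    rw [sum_sub_distrib, sum_ite_eq' univ x₀, if_pos (mem_univ _), ← sum_div, sum_sub_distrib,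
      sum_sub_distrib]
    have h2 : ∑ x, ((a : ℝ) * e x 0 + a * e x 1) = a * F := by
      have h3 : ((∑ x, ∑ l, e x l : ℚ) : ℝ) = ((F : ℚ) : ℝ) := by rw [hF]
      push_cast at h3
      rw [← h3, mul_sum]
      refine sum_congr rfl fun x _ => ?_
      rw [Fin.sum_univ_two]
      ring
    have h4 : (a : ℝ) * F - ∑ x, (w x : ℝ) = 2 * K + 1 := by exact_mod_cast hK
    rw [h2, ← hΔ]
    linarith
  rw [hsum] at h1
  have h2 := h1 (by linarith)
  have h3 : ∑ x, ∑ l, Int.fract ((a : ℝ) * e x l - (((a : ℝ) * e x 0 + a * e x 1 - w x -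
      |(a : ℝ) * (e x 1 - e x 0) - w x|) / 2 - if x = x₀ then (K : ℝ) else 0)) ≤ Δ := by
    rw [hΔ]
    refine sum_le_sum fun x _ => ?_
    rw [Fin.sum_univ_two]
    obtain ⟨K', hK'⟩ : ∃ K' : ℤ, (if x = x₀ then (K : ℝ) else 0) = K' := by
      split_ifs
      · exact ⟨K, rfl⟩
      · exact ⟨0, by simp⟩
    rw [hK']
    set t : ℝ := (a : ℝ) * (e x 1 - e x 0) - w x with ht
    have e1 : (a : ℝ) * e x 0 - (((a : ℝ) * e x 0 + a * e x 1 - w x - |t|) / 2 - K') =
        (|t| - t) / 2 + K' := by rw [ht]; ring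
    have e2 : (a : ℝ) * e x 1 - (((a : ℝ) * e x 0 + a * e x 1 - w x - |t|) / 2 - K') =
        (|t| + t) / 2 + ((K' + w x : ℤ) : ℝ) := by rw [ht]; push_cast; ring
    rw [e1, e2, Int.fract_add_intCast, Int.fract_add_intCast]
    have h5 := abs_nonneg t
    have h6 := neg_abs_le t
    have h7 := le_abs_self t
    have h8 := fract_le_self (u := (|t| - t) / 2) (by linarith)
    have h9 := fract_le_self (u := (|t| + t) / 2) (by linarith)
    linarith
  push_cast at h2
  linarith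

end line

section move

/-- Choice of a multiplier: `c + 2 s h / P` is close to an even integer and `a + 2 s M` is prime
to `p`. -/
lemma choose_mult {p k : ℕ} (hp : p.Prime) (hk : 1 ≤ k) {a M h : ℤ} (ha : ¬ (p : ℤ) ∣ a)
    (hM : ¬ (p : ℤ) ∣ M) (hh : ¬ (p : ℤ) ∣ h) (c : ℚ) :
    ∃ s j : ℤ, ¬ (p : ℤ) ∣ a + 2 * s * M ∧
      |c + 2 * s * h / (p : ℚ) ^ k - 2 * j| ≤ 2 / (p : ℚ) ^ k := by
  have hp0 : (0 : ℚ) < (p : ℚ) ^ k := by
    have := hp.pos
    positivity
  have hpz : Prime (p : ℤ) := Nat.prime_iff_prime_int.1 hp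
  -- invert `h` modulo `p ^ k`
  have hcop : IsCoprime h ((p : ℤ) ^ k) := by
    refine IsCoprime.pow_right ?_
    exact ((Prime.coprime_iff_not_dvd hpz).2 hh).symm
  obtain ⟨u, v, huv⟩ := hcop
  -- `u h = 1 - v P`
  set r : ℤ := round (-(c * (p : ℚ) ^ k / 2)) with hr
  have hr1 : |c * (p : ℚ) ^ k / 2 + r| ≤ 1 / 2 := by
    have h1 := abs_sub_round (-(c * (p : ℚ) ^ k / 2))
    rw [← hr] at h1
    have h2 : -(c * (p : ℚ) ^ k / 2 + r) = -(c * (p : ℚ) ^ k / 2) - r := by ring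
    rw [← abs_neg, h2]
    exact h1
  -- general computation
  have key : ∀ r' : ℤ, |c * (p : ℚ) ^ k / 2 + r'| ≤ 1 →
      |c + 2 * ((r' * u : ℤ) : ℚ) * h / (p : ℚ) ^ k - 2 * ((-(r' * v) : ℤ) : ℚ)| ≤
        2 / (p : ℚ) ^ k := by
    intro r' hr'
    have h1 : c + 2 * ((r' * u : ℤ) : ℚ) * h / (p : ℚ) ^ k - 2 * ((-(r' * v) : ℤ) : ℚ) =
        (2 / (p : ℚ) ^ k) * (c * (p : ℚ) ^ k / 2 + r') := by
      have h2 : (u : ℚ) * h + v * (p : ℚ) ^ k = 1 := by exact_mod_cast huv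
      push_cast
      field_simp
      linear_combination (2 * (r' : ℚ)) * h2
    rw [h1, abs_mul, abs_of_pos (by positivity)]
    calc 2 / (p : ℚ) ^ k * |c * (p : ℚ) ^ k / 2 + r'| ≤ 2 / (p : ℚ) ^ k * 1 :=
          mul_le_mul_of_nonneg_left hr' (by positivity)
      _ = 2 / (p : ℚ) ^ k := mul_one _
  have hu : ¬ (p : ℤ) ∣ u := by
    intro hd
    have h1 : (p : ℤ) ∣ 1 := by
      rw [← huv]
      exact dvd_add (hd.mul_right _) ((dvd_pow_self _ (by omega)).mul_left _)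
    exact hpz.not_isUnit (isUnit_of_dvd_one h1)
  by_cases h0 : (p : ℤ) ∣ a + 2 * (r * u) * M
  · -- `p` is odd
    have hp2 : ¬ (p : ℤ) ∣ 2 := by
      intro hd
      apply ha
      have h1 : (p : ℤ) ∣ 2 * (r * u) * M := (hd.mul_right _).mul_right _
      exact (dvd_add_left h1).1 h0
    obtain ⟨ε, hε, hε1⟩ : ∃ ε : ℤ, (ε = 1 ∨ ε = -1) ∧ |c * (p : ℚ) ^ k / 2 + ((r + ε : ℤ) : ℚ)| ≤ 1 := by
      have h1 := abs_le.1 hr1
      rcases le_total 0 (c * (p : ℚ) ^ k / 2 + r) with h2 | h2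
      · refine ⟨-1, Or.inr rfl, ?_⟩
        rw [abs_le]
        push_cast
        constructor <;> linarith
      · refine ⟨1, Or.inl rfl, ?_⟩
        rw [abs_le]
        push_cast
        constructor <;> linarith
    refine ⟨(r + ε) * u, -((r + ε) * v), ?_, key _ hε1⟩
    intro hd
    have h1 : (p : ℤ) ∣ 2 * ε * u * M := by
      have h2 := dvd_sub hd h0
      have h3 : a + 2 * ((r + ε) * u) * M - (a + 2 * (r * u) * M) = 2 * ε * u * M := by ring
      rwa [h3] at h2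
    rcases hpz.dvd_or_dvd h1 with h2 | h2
    · rcases hpz.dvd_or_dvd h2 with h3 | h3
      · rcases hpz.dvd_or_dvd h3 with h4 | h4
        · exact hp2 h4
        · rcases hε with rfl | rfl
          · exact hpz.not_isUnit (isUnit_of_dvd_one h4)
          · exact hpz.not_isUnit (isUnit_of_dvd_one ((dvd_neg).1 h4))
      · exact hu h3
    · exact hM h2
  · exact ⟨r * u, -(r * v), h0, key r (hr1.trans (by norm_num))⟩

end move

end Pool.Agent.K9h20
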